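import Pool.Agent.Helper212.CohenE.Defn

/-! Basic sets and functions of a countable transitive model. -/

namespace CohenE

open ZFSet

variable {M : Set ZFSet.{0}} [hM : Fact (CTM M)]
variable {Γ Δ : Type 1} [Ctx M Γ] [Ctx M Δ]

theorem M_ext {a b : M} : a = b ↔ ∀ z : M, (z : ZFSet.{0}) ∈ (a : ZFSet.{0}) ↔ (z : ZFSet.{0}) ∈ (b : ZFSet.{0}) := by
  constructor
  · rintro rfl z; rfl
  · intro h
    apply Subtype.ext
    apply ZFSet.ext
    intro z
    constructor
    · intro hz
      exact (h ⟨z, hM.out.trans _ a.2 _ hz⟩).1 hz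
    · intro hz
      exact (h ⟨z, hM.out.trans _ b.2 _ hz⟩).2 hz

theorem empty_memM : (∅ : ZFSet.{0}) ∈ M := by
  obtain ⟨w, hw, h0, -⟩ := hM.out.infinity
  exact hM.out.trans _ hw _ h0

theorem upair_memM {a b : ZFSet.{0}} (ha : a ∈ M) (hb : b ∈ M) : ({a, b} : ZFSet.{0}) ∈ M :=
  hM.out.pairing a ha b hb

theorem single_memM {a : ZFSet.{0}} (ha : a ∈ M) : ({a} : ZFSet.{0}) ∈ M := by
  have := upair_memM ha ha
  rwa [ZFSet.pair_eq_singleton] at this

theorem union_memM {a b : ZFSet.{0}} (ha : a ∈ M) (hb : b ∈ M) : (a ∪ b : ZFSet.{0}) ∈ M := by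
  have := hM.out.union _ (upair_memM ha hb)
  rwa [ZFSet.sUnion_pair] at this

theorem insert_memM {a b : ZFSet.{0}} (ha : a ∈ M) (hb : b ∈ M) : (insert a b : ZFSet.{0}) ∈ M := by
  rw [ZFSet.insert_eq]
  exact union_memM (single_memM ha) hb

theorem pair_memM {a b : ZFSet.{0}} (ha : a ∈ M) (hb : b ∈ M) : ZFSet.pair a b ∈ M :=
  upair_memM (single_memM ha) (upair_memM ha hb)

theorem nat_memM (n : ℕ) : nat n ∈ M := by
  induction n with
  | zero => exact empty_memM
  | succ n ih => exact insert_memM ih ih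

theorem bit_memM (b : Bool) : bit b ∈ M := by
  unfold bit
  split_ifs
  · exact nat_memM 1
  · exact nat_memM 0

theorem seg_memM (x : ℕ → Bool) (n : ℕ) : seg x n ∈ M := by
  induction n with
  | zero => exact empty_memM
  | succ n ih => exact insert_memM (pair_memM (nat_memM n) (bit_memM _)) ih

theorem fst_memM {a b : ZFSet.{0}} (h : ZFSet.pair a b ∈ M) : a ∈ M := by
  have h1 : ({a} : ZFSet.{0}) ∈ M := hM.out.trans _ h _ (by simp [ZFSet.pair])
  exact hM.out.trans _ h1 _ (by simp)

theorem snd_memM {a b : ZFSet.{0}} (h : ZFSet.pair a b ∈ M) : b ∈ M := by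
  have h1 : ({a, b} : ZFSet.{0}) ∈ M := hM.out.trans _ h _ (by simp [ZFSet.pair])
  exact hM.out.trans _ h1 _ (by simp)

def memp : M := ⟨∅, empty_memM⟩
def mpair (a b : M) : M := ⟨ZFSet.pair a b, pair_memM a.2 b.2⟩
noncomputable def msucc (a : M) : M := ⟨insert (a : ZFSet.{0}) (a : ZFSet.{0}), insert_memM a.2 a.2⟩
noncomputable def mnat (n : ℕ) : M := ⟨nat n, nat_memM n⟩
noncomputable def mbit (b : Bool) : M := ⟨bit b, bit_memM b⟩
noncomputable def mseg (x : ℕ → Bool) (n : ℕ) : M := ⟨seg x n, seg_memM x n⟩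

theorem mpair_inj {a b c d : M} : mpair a b = mpair c d ↔ a = c ∧ b = d := by
  rw [Subtype.ext_iff]
  simp [mpair, ZFSet.pair_inj, Subtype.ext_iff]


theorem D.mpair0 : D M (fun p : (M × M) × M => p.2 = mpair p.1.1 p.1.2) := by
  have key : ∀ p : (M × M) × M, p.2 = mpair p.1.1 p.1.2 ↔
      ∀ z : M, (z : ZFSet.{0}) ∈ (p.2 : ZFSet.{0}) ↔
        ((∀ w : M, (w : ZFSet.{0}) ∈ (z : ZFSet.{0}) ↔ w = p.1.1) ∨
         (∀ w : M, (w : ZFSet.{0}) ∈ (z : ZFSet.{0}) ↔ (w = p.1.1 ∨ w = p.1.2))) := by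
    rintro ⟨⟨a, b⟩, c⟩
    rw [M_ext]
    refine forall_congr' fun z => iff_congr Iff.rfl ?_
    have e1 : ((z : ZFSet.{0}) = {(a : ZFSet.{0})}) ↔ ∀ w : M, (w : ZFSet.{0}) ∈ (z : ZFSet.{0}) ↔ w = a := by
      have := M_ext (a := z) (b := (⟨{(a : ZFSet.{0})}, single_memM a.2⟩ : M))
      rw [Subtype.ext_iff] at this
      rw [this]
      simp [Subtype.ext_iff]
    have e2 : ((z : ZFSet.{0}) = {(a : ZFSet.{0}), (b : ZFSet.{0})}) ↔
        ∀ w : M, (w : ZFSet.{0}) ∈ (z : ZFSet.{0}) ↔ (w = a ∨ w = b) := by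
      have := M_ext (a := z) (b := (⟨{(a : ZFSet.{0}), (b : ZFSet.{0})}, upair_memM a.2 b.2⟩ : M))
      rw [Subtype.ext_iff] at this
      rw [this]
      simp [Subtype.ext_iff]
    show (z : ZFSet.{0}) ∈ ZFSet.pair a b ↔ _
    rw [ZFSet.pair, ZFSet.mem_pair, e1, e2]
  refine D.congr ?_ key
  refine D.all (D.iff (D.mem (by first | exact F.var 0 | exact F.var 1 | exact F.var 2 | exact F.var 3 | exact F.var 4 | exact F.var 5 | exact F.var 6 | exact F.var 7 | exact F.const _) (by first | exact F.var 0 | exact F.var 1 | exact F.var 2 | exact F.var 3 | exact F.var 4 | exact F.var 5 | exact F.var 6 | exact F.var 7 | exact F.const _)) (D.or (D.all (D.iff (D.mem (by first | exact F.var 0 | exact F.var 1 | exact F.var 2 | exact F.var 3 | exact F.var 4 | exact F.var 5 | exact F.var 6 | exact F.var 7 | exact F.const _) (by first | exact F.var 0 | exact F.var 1 | exact F.var 2 | exact F.var 3 | exact F.var 4 | exact F.var 5 | exact F.var 6 | exact F.var 7 | exact F.const _))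
    (D.eq (by first | exact F.var 0 | exact F.var 1 | exact F.var 2 | exact F.var 3 | exact F.var 4 | exact F.var 5 | exact F.var 6 | exact F.var 7 | exact F.const _) (by first | exact F.var 0 | exact F.var 1 | exact F.var 2 | exact F.var 3 | exact F.var 4 | exact F.var 5 | exact F.var 6 | exact F.var 7 | exact F.const _)))) (D.all (D.iff (D.mem (by first | exact F.var 0 | exact F.var 1 | exact F.var 2 | exact F.var 3 | exact F.var 4 | exact F.var 5 | exact F.var 6 | exact F.var 7 | exact F.const _) (by first | exact F.var 0 | exact F.var 1 | exact F.var 2 | exact F.var 3 | exact F.var 4 | exact F.var 5 | exact F.var 6 | exact F.var 7 | exact F.const _)) (D.or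
    (D.eq (by first | exact F.var 0 | exact F.var 1 | exact F.var 2 | exact F.var 3 | exact F.var 4 | exact F.var 5 | exact F.var 6 | exact F.var 7 | exact F.const _) (by first | exact F.var 0 | exact F.var 1 | exact F.var 2 | exact F.var 3 | exact F.var 4 | exact F.var 5 | exact F.var 6 | exact F.var 7 | exact F.const _)) (D.eq (by first | exact F.var 0 | exact F.var 1 | exact F.var 2 | exact F.var 3 | exact F.var 4 | exact F.var 5 | exact F.var 6 | exact F.var 7 | exact F.const _) (by first | exact F.var 0 | exact F.var 1 | exact F.var 2 | exact F.var 3 | exact F.var 4 | exact F.var 5 | exact F.var 6 | exact F.var 7 | exact F.const _)))))))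

theorem F.pair {f g : Γ → M} (hf : F M f) (hg : F M g) : F M (fun γ => mpair (f γ) (g γ)) :=
  D.comp D.mpair0 (m := fun q : Γ × M => ((f q.1, g q.1), q.2))
    (CM.pair (CM.pair (CM.of hf.w) hg.w) F.snd)

theorem D.msucc0 : D M (fun p : M × M => p.2 = msucc p.1) := by
  have key : ∀ p : M × M, p.2 = msucc p.1 ↔
      ∀ z : M, (z : ZFSet.{0}) ∈ (p.2 : ZFSet.{0}) ↔ (z = p.1 ∨ (z : ZFSet.{0}) ∈ (p.1 : ZFSet.{0})) := by
    rintro ⟨a, b⟩
    rw [M_ext]
    refine forall_congr' fun z => iff_congr Iff.rfl ?_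
    show (z : ZFSet.{0}) ∈ insert (a : ZFSet.{0}) (a : ZFSet.{0}) ↔ _
    rw [ZFSet.mem_insert_iff, Subtype.ext_iff]
  refine D.congr ?_ key
  refine D.all (D.iff (D.mem (by first | exact F.var 0 | exact F.var 1 | exact F.var 2 | exact F.var 3 | exact F.var 4 | exact F.var 5 | exact F.var 6 | exact F.var 7 | exact F.const _) (by first | exact F.var 0 | exact F.var 1 | exact F.var 2 | exact F.var 3 | exact F.var 4 | exact F.var 5 | exact F.var 6 | exact F.var 7 | exact F.const _)) (D.or (D.eq (by first | exact F.var 0 | exact F.var 1 | exact F.var 2 | exact F.var 3 | exact F.var 4 | exact F.var 5 | exact F.var 6 | exact F.var 7 | exact F.const _) (by first | exact F.var 0 | exact F.var 1 | exact F.var 2 | exact F.var 3 | exact F.var 4 | exact F.var 5 | exact F.var 6 | exact F.var 7 | exact F.const _))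
    (D.mem (by first | exact F.var 0 | exact F.var 1 | exact F.var 2 | exact F.var 3 | exact F.var 4 | exact F.var 5 | exact F.var 6 | exact F.var 7 | exact F.const _) (by first | exact F.var 0 | exact F.var 1 | exact F.var 2 | exact F.var 3 | exact F.var 4 | exact F.var 5 | exact F.var 6 | exact F.var 7 | exact F.const _))))

theorem F.succ {f : Γ → M} (hf : F M f) : F M (fun γ => msucc (f γ)) :=
  D.comp D.msucc0 (m := fun q : Γ × M => (f q.1, q.2)) (CM.pair (CM.of hf.w) F.snd)

theorem D.subset {f g : Γ → M} (hf : F M f) (hg : F M g) :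
    D M (fun γ => (f γ : ZFSet.{0}) ⊆ (g γ : ZFSet.{0})) := by
  have h : D M (fun γ => ∀ z : M, (z : ZFSet.{0}) ∈ (f γ : ZFSet.{0}) →
      (z : ZFSet.{0}) ∈ (g γ : ZFSet.{0})) :=
    D.all (D.imp (D.mem F.snd hf.w) (D.mem F.snd hg.w))
  refine h.congr fun γ => ?_
  constructor
  · intro h z hz; exact h hz
  · intro h z hz; exact h ⟨z, hM.out.trans _ (f γ).2 _ hz⟩ hz

/-- Separation for definable predicates. -/
theorem exists_sep {Q : Γ → M → Prop} (h : D M (fun p : Γ × M => Q p.1 p.2)) (γ : Γ) (a : M) :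
    ∃ b : M, ∀ z : M, (z : ZFSet.{0}) ∈ (b : ZFSet.{0}) ↔
      (z : ZFSet.{0}) ∈ (a : ZFSet.{0}) ∧ Q γ z := by
  obtain ⟨φ, e, he⟩ := h
  classical
  obtain ⟨b, hb⟩ := hM.out.separation (ren (fun i => if e i = .inl 0 then 0 else i + 1) φ)
    (fun i => match e i with
      | .inl (k + 1) => Ctx.vars γ k
      | .inl 0 => memp
      | .inr c => c) a
  refine ⟨b, fun z => (hb z).trans (and_congr Iff.rfl ?_)⟩
  rw [sat_ren]
  refine Iff.trans ?_ (he (γ, z)).symm
  have : (fun i => ev M (γ, z) (e i)) = (fun i => scons z (fun i =>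
      (match e i with
      | .inl (k + 1) => Ctx.vars γ k
      | .inl 0 => memp
      | .inr c => c)) (if e i = .inl 0 then 0 else i + 1)) := by
    funext i
    rcases hi : e i with k | c
    · cases k with
      | zero => simp; rfl
      | succ k =>
        simp only [Sum.inl.injEq, Nat.add_eq_zero_iff, one_ne_zero, and_false, if_false]
        simp only [scons, hi]
        rfl
    · simp only [reduceCtorEq, if_false, scons, hi]
      rfl
  rw [this]

/-- `{z ∈ a : Q z}` as an element of `M` (junk value `∅` if it is not in `M`) -/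
noncomputable def msep (a : M) (Q : M → Prop) : M := by
  classical
  exact if h : ∃ b : M, ∀ z : M, (z : ZFSet.{0}) ∈ (b : ZFSet.{0}) ↔
      (z : ZFSet.{0}) ∈ (a : ZFSet.{0}) ∧ Q z then h.choose else memp

theorem mem_msep {Q : Γ → M → Prop} (h : D M (fun p : Γ × M => Q p.1 p.2)) (γ : Γ) (a z : M) :
    (z : ZFSet.{0}) ∈ (msep a (Q γ) : ZFSet.{0}) ↔ (z : ZFSet.{0}) ∈ (a : ZFSet.{0}) ∧ Q γ z := by
  have h' := exists_sep h γ a
  unfold msep
  rw [dif_pos h']
  exact h'.choose_spec z

theorem F.sep {Q : Γ → M → Prop} (h : D M (fun p : Γ × M => Q p.1 p.2)) {f : Γ → M}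
    (hf : F M f) : F M (fun γ => msep (f γ) (Q γ)) := by
  have h1 : D M (fun p : Γ × M => ∀ z : M, (z : ZFSet.{0}) ∈ (p.2 : ZFSet.{0}) ↔
      ((z : ZFSet.{0}) ∈ (f p.1 : ZFSet.{0}) ∧ Q p.1 z)) := by
    refine D.all (D.iff (D.mem F.snd F.snd.w) (D.and (D.mem F.snd hf.w.w) ?_))
    exact D.weak h
  refine D.congr h1 fun p => ?_
  rw [M_ext]
  exact forall_congr' fun z => iff_congr Iff.rfl (mem_msep h p.1 (f p.1) z)

/-- Replacement for definable functional relations. -/
theorem exists_repl {G : M → M → Prop} (h : D M (fun p : M × M => G p.1 p.2)) (a : M)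
    (hG : ∀ z : M, (z : ZFSet.{0}) ∈ (a : ZFSet.{0}) → ∃! w : M, G z w) :
    ∃ b : M, ∀ w : M, (w : ZFSet.{0}) ∈ (b : ZFSet.{0}) ↔
      ∃ z : M, (z : ZFSet.{0}) ∈ (a : ZFSet.{0}) ∧ G z w := by
  obtain ⟨φ, e, he⟩ := h
  classical
  -- variables of `M × M`: `inl 0` is `p.2 = w`, `inl (k+1)` is `p.1 = z`
  have key : ∀ z w : M, G z w ↔ Sat M (scons z (scons w (fun i => match e i with
      | .inl _ => memp
      | .inr c => c))) (ren (fun i => match e i with
        | .inl 0 => 1
        | .inl (_ + 1) => 0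
        | .inr _ => i + 2) φ) := by
    intro z w
    rw [sat_ren]
    refine (he (z, w)).trans ?_
    have : (fun i => ev M (z, w) (e i)) = (fun i => scons z (scons w (fun i => match e i with
      | .inl _ => memp
      | .inr c => c)) (match e i with
        | .inl 0 => 1
        | .inl (_ + 1) => 0
        | .inr _ => i + 2)) := by
      funext i
      rcases hi : e i with k | c
      · cases k with
        | zero => rfl
        | succ k => rfl
      · simp only [scons, hi]
        rfl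
    rw [this]
  obtain ⟨b, hb⟩ := hM.out.replacement _ _ a (fun z hz => by
    obtain ⟨w, hw, hu⟩ := hG z hz
    exact ⟨w, (key z w).1 hw, fun w' hw' => hu w' ((key z w').2 hw')⟩)
  exact ⟨b, fun w => (hb w).trans (exists_congr fun z => and_congr Iff.rfl (key z w).symm)⟩

end CohenE
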