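import Pool.Agent.Helper212.CohenE.Defs

namespace CohenE



lemma EM_measurable_seg (n : ℕ) : ∀ Q : ZFSet.{0} → Prop,
    MeasurableSet {x : ℕ → Bool | Q (seg x n)} := by
  induction n with
  | zero =>
    intro Q
    show MeasurableSet {x : ℕ → Bool | Q ∅}
    exact MeasurableSet.const _
  | succ n ih =>
    intro Q
    have h0 : Measurable (fun x : ℕ → Bool => x n) := measurable_pi_apply n
    have h1 : MeasurableSet {x : ℕ → Bool | x n = true} := h0 (measurableSet_singleton true)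
    have h2 : MeasurableSet {x : ℕ → Bool | x n = false} := h0 (measurableSet_singleton false)
    have h3 := ih (fun s => Q (insert (ZFSet.pair (nat n) (bit true)) s))
    have h4 := ih (fun s => Q (insert (ZFSet.pair (nat n) (bit false)) s))
    have h5 : {x : ℕ → Bool | Q (seg x (n + 1))} =
        ({x : ℕ → Bool | x n = true} ∩
          {x : ℕ → Bool | Q (insert (ZFSet.pair (nat n) (bit true)) (seg x n))}) ∪
        ({x : ℕ → Bool | x n = false} ∩
          {x : ℕ → Bool | Q (insert (ZFSet.pair (nat n) (bit false)) (seg x n))}) := by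
      ext x
      show Q (insert (ZFSet.pair (nat n) (bit (x n))) (seg x n)) ↔
        (x n = true ∧ Q (insert (ZFSet.pair (nat n) (bit true)) (seg x n))) ∨
        (x n = false ∧ Q (insert (ZFSet.pair (nat n) (bit false)) (seg x n)))
      cases h : x n <;> simp
    rw [h5]
    exact (h1.inter h3).union (h2.inter h4)

lemma EM_measurable_mem {M : Set ZFSet.{0}} (hM : CTM M) {ρ s τ : ZFSet.{0}} (hτ : τ ∈ M)
    (h : ZFSet.pair ρ s ∈ τ) : ρ ∈ M := by
  have h1 := hM.trans τ hτ _ h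
  have h2 : ({ρ} : ZFSet.{0}) ∈ M := hM.trans _ h1 _ (by simp [ZFSet.pair])
  exact hM.trans _ h2 _ (by simp)

lemma EM_measurable_eq_iff {M : Set ZFSet.{0}} (hM : CTM M) {τ τ' : ZFSet.{0}} (hτ : τ ∈ M)
    (hτ' : τ' ∈ M) (x y : ℕ → Bool) :
    val x τ = val y τ' ↔
      (∀ ρ : M, ∀ n : ℕ, ¬ ZFSet.pair (ρ : ZFSet.{0}) (seg x n) ∈ τ ∨ ∃ ρ' : M, ∃ n' : ℕ,
        (ZFSet.pair (ρ : ZFSet.{0}) (seg x n) ∈ τ ∧ ZFSet.pair (ρ' : ZFSet.{0}) (seg y n') ∈ τ' ∧
          val x ρ = val y ρ')) ∧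
      (∀ ρ' : M, ∀ n' : ℕ, ¬ ZFSet.pair (ρ' : ZFSet.{0}) (seg y n') ∈ τ' ∨ ∃ ρ : M, ∃ n : ℕ,
        (ZFSet.pair (ρ : ZFSet.{0}) (seg x n) ∈ τ ∧ ZFSet.pair (ρ' : ZFSet.{0}) (seg y n') ∈ τ' ∧
          val x ρ = val y ρ')) := by
  constructor
  · intro h
    constructor
    · intro ρ n
      by_cases hp : ZFSet.pair (ρ : ZFSet.{0}) (seg x n) ∈ τ
      · right
        have h1 : val x ρ ∈ val y τ' := by
          rw [← h, mem_val]
          exact ⟨ρ, n, hp, rfl⟩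
        rw [mem_val] at h1
        obtain ⟨ρ', n', h2, h3⟩ := h1
        exact ⟨⟨ρ', EM_measurable_mem hM hτ' h2⟩, n', hp, h2, h3⟩
      · left; exact hp
    · intro ρ' n'
      by_cases hp : ZFSet.pair (ρ' : ZFSet.{0}) (seg y n') ∈ τ'
      · right
        have h1 : val y ρ' ∈ val x τ := by
          rw [h, mem_val]
          exact ⟨ρ', n', hp, rfl⟩
        rw [mem_val] at h1
        obtain ⟨ρ, n, h2, h3⟩ := h1
        exact ⟨⟨ρ, EM_measurable_mem hM hτ h2⟩, n, h2, hp, h3.symm⟩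
      · left; exact hp
  · rintro ⟨h1, h2⟩
    ext z
    rw [mem_val, mem_val]
    constructor
    · rintro ⟨ρ, n, hp, rfl⟩
      rcases h1 ⟨ρ, EM_measurable_mem hM hτ hp⟩ n with h | ⟨ρ', n', -, h3, h4⟩
      · exact absurd hp h
      · exact ⟨ρ', n', h3, h4⟩
    · rintro ⟨ρ', n', hp, rfl⟩
      rcases h2 ⟨ρ', EM_measurable_mem hM hτ' hp⟩ n' with h | ⟨ρ, n, h3, -, h4⟩
      · exact absurd hp h
      · exact ⟨ρ, n, h3, h4.symm⟩

lemma EM_measurable_val {M : Set ZFSet.{0}} (hM : CTM M) (τ : ZFSet.{0}) :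
    τ ∈ M → ∀ τ' ∈ M,
      MeasurableSet {p : (ℕ → Bool) × (ℕ → Bool) | val p.1 τ = val p.2 τ'} := by
  have hc : Countable M := hM.countable.to_subtype
  induction τ using nameRel_wf.induction with
  | _ τ ih =>
  intro hτ τ' hτ'
  have hx : ∀ (ρ : ZFSet.{0}) (n : ℕ),
      MeasurableSet {p : (ℕ → Bool) × (ℕ → Bool) | ZFSet.pair ρ (seg p.1 n) ∈ τ} := fun ρ n =>
    measurable_fst (EM_measurable_seg n (fun s => ZFSet.pair ρ s ∈ τ))
  have hy : ∀ (ρ : ZFSet.{0}) (n : ℕ),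
      MeasurableSet {p : (ℕ → Bool) × (ℕ → Bool) | ZFSet.pair ρ (seg p.2 n) ∈ τ'} := fun ρ n =>
    measurable_snd (EM_measurable_seg n (fun s => ZFSet.pair ρ s ∈ τ'))
  have hxy : ∀ (ρ ρ' : M) (n n' : ℕ),
      MeasurableSet {p : (ℕ → Bool) × (ℕ → Bool) |
        ZFSet.pair (ρ : ZFSet.{0}) (seg p.1 n) ∈ τ ∧
        ZFSet.pair (ρ' : ZFSet.{0}) (seg p.2 n') ∈ τ' ∧ val p.1 ρ = val p.2 ρ'} := by
    intro ρ ρ' n n'
    by_cases hr : NameRel (ρ : ZFSet.{0}) τ
    · exact (hx ρ n).inter ((hy ρ' n').inter (ih ρ hr ρ.2 ρ' ρ'.2))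
    · convert MeasurableSet.empty using 1
      ext p
      simp only [Set.mem_empty_iff_false, iff_false]
      rintro ⟨h, -⟩
      exact hr ⟨_, h⟩
  have he : {p : (ℕ → Bool) × (ℕ → Bool) | val p.1 τ = val p.2 τ'} =
      (⋂ ρ : M, ⋂ n : ℕ, ({p : (ℕ → Bool) × (ℕ → Bool) |
          ZFSet.pair (ρ : ZFSet.{0}) (seg p.1 n) ∈ τ}ᶜ ∪ ⋃ ρ' : M, ⋃ n' : ℕ,
          {p : (ℕ → Bool) × (ℕ → Bool) |
            ZFSet.pair (ρ : ZFSet.{0}) (seg p.1 n) ∈ τ ∧
            ZFSet.pair (ρ' : ZFSet.{0}) (seg p.2 n') ∈ τ' ∧ val p.1 ρ = val p.2 ρ'})) ∩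
      (⋂ ρ' : M, ⋂ n' : ℕ, ({p : (ℕ → Bool) × (ℕ → Bool) |
          ZFSet.pair (ρ' : ZFSet.{0}) (seg p.2 n') ∈ τ'}ᶜ ∪ ⋃ ρ : M, ⋃ n : ℕ,
          {p : (ℕ → Bool) × (ℕ → Bool) |
            ZFSet.pair (ρ : ZFSet.{0}) (seg p.1 n) ∈ τ ∧
            ZFSet.pair (ρ' : ZFSet.{0}) (seg p.2 n') ∈ τ' ∧ val p.1 ρ = val p.2 ρ'})) := by
    ext p
    have := EM_measurable_eq_iff hM hτ hτ' p.1 p.2
    simp only [Set.mem_inter_iff, Set.mem_iInter, Set.mem_union, Set.mem_iUnion, Set.mem_compl_iff]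
    exact this
  rw [he]
  refine MeasurableSet.inter ?_ ?_
  · exact MeasurableSet.iInter fun ρ => MeasurableSet.iInter fun n =>
      (hx ρ n).compl.union (MeasurableSet.iUnion fun ρ' => MeasurableSet.iUnion fun n' =>
        hxy ρ ρ' n n')
  · exact MeasurableSet.iInter fun ρ' => MeasurableSet.iInter fun n' =>
      (hy ρ' n').compl.union (MeasurableSet.iUnion fun ρ => MeasurableSet.iUnion fun n =>
        hxy ρ ρ' n n')

/-- `E_M` is a Borel equivalence relation. -/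
theorem EM_measurable (M : Set ZFSet.{0}) (hM : CTM M) :
    MeasurableSet {p : {x : ℕ → Bool // Generic M x} × {x : ℕ → Bool // Generic M x} |
      EM M p.1 p.2} := by
  have hc : Countable M := hM.countable.to_subtype
  have h1 : MeasurableSet {p : (ℕ → Bool) × (ℕ → Bool) | Ext M p.1 = Ext M p.2} := by
    have he : {p : (ℕ → Bool) × (ℕ → Bool) | Ext M p.1 = Ext M p.2} =
        (⋂ τ : M, ⋃ τ' : M, {p : (ℕ → Bool) × (ℕ → Bool) | val p.1 τ = val p.2 τ'}) ∩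
        (⋂ τ' : M, ⋃ τ : M, {p : (ℕ → Bool) × (ℕ → Bool) | val p.1 τ = val p.2 τ'}) := by
      ext p
      simp only [Set.mem_inter_iff, Set.mem_iInter, Set.mem_iUnion]
      constructor
      · intro h
        constructor
        · intro τ
          have : val p.1 τ ∈ Ext M p.2 := by
            have h' : Ext M p.1 = Ext M p.2 := h
            rw [← h']
            exact ⟨τ, τ.2, rfl⟩
          obtain ⟨τ', h1, h2⟩ := this
          exact ⟨⟨τ', h1⟩, h2⟩
        · intro τ'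
          have : val p.2 τ' ∈ Ext M p.1 := by
            have h' : Ext M p.1 = Ext M p.2 := h
            rw [h']
            exact ⟨τ', τ'.2, rfl⟩
          obtain ⟨τ, h1, h2⟩ := this
          exact ⟨⟨τ, h1⟩, h2.symm⟩
      · rintro ⟨h1, h2⟩
        show Ext M p.1 = Ext M p.2
        ext z
        constructor
        · rintro ⟨τ, hτ, rfl⟩
          obtain ⟨τ', h⟩ := h1 ⟨τ, hτ⟩
          exact ⟨τ', τ'.2, h⟩
        · rintro ⟨τ', hτ', rfl⟩
          obtain ⟨τ, h⟩ := h2 ⟨τ', hτ'⟩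
          exact ⟨τ, τ.2, h.symm⟩
    rw [he]
    refine MeasurableSet.inter ?_ ?_
    · exact MeasurableSet.iInter fun τ => MeasurableSet.iUnion fun τ' =>
        EM_measurable_val hM τ.1 τ.2 τ'.1 τ'.2
    · exact MeasurableSet.iInter fun τ' => MeasurableSet.iUnion fun τ =>
        EM_measurable_val hM τ.1 τ.2 τ'.1 τ'.2
  have h2 : Measurable (fun p : {x : ℕ → Bool // Generic M x} × {x : ℕ → Bool // Generic M x} =>
      ((p.1 : ℕ → Bool), (p.2 : ℕ → Bool))) :=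
    (measurable_subtype_coe.comp measurable_fst).prodMk (measurable_subtype_coe.comp measurable_snd)
  exact h2 h1

end CohenE
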