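import Pool.Agent.Helper212.CohenE.Defs

/-! Definability over a transitive set `M`. -/

namespace CohenE

open ZFSet

/-- renaming of variables -/
def lift (ρ : ℕ → ℕ) : ℕ → ℕ
  | 0 => 0
  | n + 1 => ρ n + 1

def ren : (ℕ → ℕ) → Fml → Fml
  | ρ, .mem i j => .mem (ρ i) (ρ j)
  | ρ, .eq i j => .eq (ρ i) (ρ j)
  | ρ, .neg φ => .neg (ren ρ φ)
  | ρ, .and φ ψ => .and (ren ρ φ) (ren ρ ψ)
  | ρ, .ex φ => .ex (ren (lift ρ) φ)

theorem scons_lift {A : Type*} (a : A) (v : ℕ → A) (ρ : ℕ → ℕ) :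
    (fun i => scons a v (lift ρ i)) = scons a (fun i => v (ρ i)) := by
  funext i
  cases i <;> rfl

variable {M : Set ZFSet.{0}}

theorem sat_ren (φ : Fml) : ∀ (ρ : ℕ → ℕ) (v : ℕ → M),
    Sat M v (ren ρ φ) ↔ Sat M (fun i => v (ρ i)) φ := by
  induction φ with
  | mem i j => intro ρ v; rfl
  | eq i j => intro ρ v; rfl
  | neg φ ih => intro ρ v; exact not_congr (ih ρ v)
  | and φ ψ ih ih' => intro ρ v; exact and_congr (ih ρ v) (ih' ρ v)
  | ex φ ih =>
    intro ρ v
    refine exists_congr fun a => ?_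
    rw [ih, scons_lift]

/-- contexts -/
class Ctx (M : Set ZFSet.{0}) (Γ : Type 1) where
  vars : Γ → ℕ → M

instance : Ctx M M where
  vars a _ := a

instance instProdCtx {Γ : Type 1} [Ctx M Γ] : Ctx M (Γ × M) where
  vars p := scons p.2 (Ctx.vars p.1)

variable {Γ Δ : Type 1} [Ctx M Γ] [Ctx M Δ]

/-- value of a term (variable or constant) -/
def ev (M : Set ZFSet.{0}) {Γ : Type 1} [Ctx M Γ] (γ : Γ) : ℕ ⊕ M → M
  | .inl i => Ctx.vars γ i
  | .inr a => a

/-- `P` is definable over `(M, ∈)` with parameters. -/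
def D (M : Set ZFSet.{0}) {Γ : Type 1} [Ctx M Γ] (P : Γ → Prop) : Prop :=
  ∃ (φ : Fml) (e : ℕ → ℕ ⊕ M), ∀ γ, P γ ↔ Sat M (fun i => ev M γ (e i)) φ

theorem D.congr {P Q : Γ → Prop} (h : D M P) (h' : ∀ γ, Q γ ↔ P γ) : D M Q := by
  obtain ⟨φ, e, he⟩ := h
  exact ⟨φ, e, fun γ => (h' γ).trans (he γ)⟩

theorem D.not {P : Γ → Prop} (h : D M P) : D M (fun γ => ¬ P γ) := by
  obtain ⟨φ, e, he⟩ := h
  exact ⟨.neg φ, e, fun γ => not_congr (he γ)⟩

theorem D.and {P Q : Γ → Prop} (h : D M P) (h' : D M Q) : D M (fun γ => P γ ∧ Q γ) := by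
  obtain ⟨φ, e, he⟩ := h
  obtain ⟨ψ, e', he'⟩ := h'
  refine ⟨.and (ren (fun i => 2 * i) φ) (ren (fun i => 2 * i + 1) ψ),
    fun i => if i % 2 = 0 then e (i / 2) else e' (i / 2), fun γ => ?_⟩
  show (P γ ∧ Q γ) ↔ (Sat M _ _ ∧ Sat M _ _)
  rw [sat_ren, sat_ren, he γ, he' γ]
  have h1 : ∀ i, (2 * i) % 2 = 0 := by intro i; omega
  have h2 : ∀ i, (2 * i) / 2 = i := by intro i; omega
  have h3 : ∀ i, ¬ (2 * i + 1) % 2 = 0 := by intro i; omega
  have h4 : ∀ i, (2 * i + 1) / 2 = i := by intro i; omega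
  simp only [h1, h2, h3, h4, if_true, if_false]

theorem D.ex {P : Γ → M → Prop} (h : D M (fun p : Γ × M => P p.1 p.2)) :
    D M (fun γ => ∃ a, P γ a) := by
  obtain ⟨φ, e, he⟩ := h
  classical
  refine ⟨.ex (ren (fun i => if e i = .inl 0 then 0 else i + 1) φ),
    fun i => match e i with
      | .inl (k + 1) => .inl k
      | .inl 0 => .inl 0
      | .inr c => .inr c, fun γ => ?_⟩
  refine exists_congr fun a => (he (γ, a)).trans ?_
  rw [sat_ren]
  have : (fun i => ev M (γ, a) (e i)) = (fun i => scons a (fun i => ev M γ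
      (match e i with
      | .inl (k + 1) => .inl k
      | .inl 0 => .inl 0
      | .inr c => .inr c)) (if e i = .inl 0 then 0 else i + 1)) := by
    funext i
    rcases hi : e i with k | c
    · cases k with
      | zero => simp; rfl
      | succ k =>
        simp only [Sum.inl.injEq, Nat.add_eq_zero_iff, one_ne_zero, and_false, if_false]
        simp only [scons, hi]
        rfl
    · simp only [reduceCtorEq, if_false, scons, hi]
      rfl
  rw [this]

theorem D.atom_mem (s t : ℕ ⊕ M) :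
    D M (fun γ : Γ => (ev M γ s : ZFSet.{0}) ∈ (ev M γ t : ZFSet.{0})) :=
  ⟨.mem 0 1, fun i => if i = 0 then s else t, fun γ => by simp [Sat]⟩

theorem D.atom_eq (s t : ℕ ⊕ M) :
    D M (fun γ : Γ => ev M γ s = ev M γ t) :=
  ⟨.eq 0 1, fun i => if i = 0 then s else t, fun γ => by simp [Sat]⟩

theorem D.reindex {P : Δ → Prop} (h : D M P) (m : Γ → Δ) (ρ : ℕ → ℕ ⊕ M)
    (hm : ∀ γ i, Ctx.vars (m γ) i = ev M γ (ρ i)) : D M (fun γ => P (m γ)) := by
  obtain ⟨φ, e, he⟩ := h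
  refine ⟨φ, fun i => match e i with
    | .inl k => ρ k
    | .inr c => .inr c, fun γ => (he (m γ)).trans ?_⟩
  have : (fun i => ev M (m γ) (e i)) = (fun i => ev M γ (match e i with
    | .inl k => ρ k
    | .inr c => .inr c)) := by
    funext i
    rcases hi : e i with k | c
    · exact hm γ k
    · rfl
  rw [this]

/-- definable functions -/
def F (M : Set ZFSet.{0}) {Γ : Type 1} [Ctx M Γ] (f : Γ → M) : Prop :=
  D M (fun p : Γ × M => p.2 = f p.1)

theorem F.const (a : M) : F M (fun _ : Γ => a) :=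
  D.atom_eq (Γ := Γ × M) (.inl 0) (.inr a)

theorem F.var (i : ℕ) : F M (fun γ : Γ => Ctx.vars γ i) :=
  D.atom_eq (Γ := Γ × M) (.inl 0) (.inl (i + 1))

theorem D.weak {P : Γ → M → Prop} (h : D M (fun p : Γ × M => P p.1 p.2)) :
    D M (fun p : (Γ × M) × M => P p.1.1 p.2) := by
  refine D.reindex (Γ := (Γ × M) × M) (Δ := Γ × M) h (fun p : (Γ × M) × M => (p.1.1, p.2))
    (fun i => match i with | 0 => .inl 0 | k + 1 => .inl (k + 2)) ?_
  intro γ i
  cases i <;> rfl

theorem D.w {P : Γ → Prop} (h : D M P) : D M (fun p : Γ × M => P p.1) := by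
  refine D.reindex (Γ := Γ × M) (Δ := Γ) h (fun p : Γ × M => p.1) (fun i => .inl (i + 1)) ?_
  intro γ i
  rfl

theorem D.sub {P : Γ → M → Prop} (h : D M (fun p : Γ × M => P p.1 p.2)) {f : Γ → M}
    (hf : F M f) : D M (fun γ => P γ (f γ)) := by
  refine (D.ex (P := fun γ a => a = f γ ∧ P γ a) (hf.and h)).congr fun γ => ?_
  simp

theorem F.w {f : Γ → M} (hf : F M f) : F M (fun p : Γ × M => f p.1) :=
  D.weak (P := fun γ a => a = f γ) hf

theorem D.eq {f g : Γ → M} (hf : F M f) (hg : F M g) : D M (fun γ => f γ = g γ) := by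
  refine (D.sub (P := fun γ a => a = g γ) hg hf)

theorem D.mem {f g : Γ → M} (hf : F M f) (hg : F M g) :
    D M (fun γ => (f γ : ZFSet.{0}) ∈ (g γ : ZFSet.{0})) := by
  have h1 : D M (fun p : (Γ × M) × M => (p.1.2 : ZFSet.{0}) ∈ (p.2 : ZFSet.{0})) :=
    D.atom_mem (.inl 1) (.inl 0)
  have h2 : D M (fun p : Γ × M => (p.2 : ZFSet.{0}) ∈ (g p.1 : ZFSet.{0})) :=
    D.sub (P := fun (q : Γ × M) a => (q.2 : ZFSet.{0}) ∈ (a : ZFSet.{0})) h1 hg.w
  exact D.sub (P := fun γ a => (a : ZFSet.{0}) ∈ (g γ : ZFSet.{0})) h2 hf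

theorem D.or {P Q : Γ → Prop} (h : D M P) (h' : D M Q) : D M (fun γ => P γ ∨ Q γ) :=
  (D.not (D.and h.not h'.not)).congr fun γ => by tauto

theorem D.imp {P Q : Γ → Prop} (h : D M P) (h' : D M Q) : D M (fun γ => P γ → Q γ) :=
  (D.or h.not h').congr fun γ => by tauto

theorem D.iff {P Q : Γ → Prop} (h : D M P) (h' : D M Q) : D M (fun γ => P γ ↔ Q γ) :=
  (D.and (D.imp h h') (D.imp h' h)).congr fun γ => by tauto

theorem D.all {P : Γ → M → Prop} (h : D M (fun p : Γ × M => P p.1 p.2)) :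
    D M (fun γ => ∀ a, P γ a) :=
  (D.not (D.ex (P := fun γ a => ¬ P γ a) h.not)).congr fun γ => by simp

theorem D.true : D M (fun _ : Γ => True) :=
  (D.atom_eq (.inl 0) (.inl 0)).congr fun γ => by simp

theorem D.prop (p : Prop) : D M (fun _ : Γ => p) := by
  by_cases h : p
  · exact D.true.congr fun γ => by simp [h]
  · exact D.true.not.congr fun γ => by simp [h]

theorem D.sat (φ : Fml) : ∀ {Γ : Type 1} [Ctx M Γ] (e : ℕ → Γ → M), (∀ i, F M (e i)) →
    D M (fun γ => Sat M (fun i => e i γ) φ) := by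
  induction φ with
  | mem i j => intro Γ _ e he; exact D.mem (he i) (he j)
  | eq i j => intro Γ _ e he; exact D.eq (he i) (he j)
  | neg φ ih => intro Γ _ e he; exact (ih e he).not
  | and φ ψ ih ih' => intro Γ _ e he; exact (ih e he).and (ih' e he)
  | ex φ ih =>
    intro Γ _ e he
    refine D.ex (P := fun γ a => Sat M (scons a fun i => e i γ) φ) ?_
    refine (ih (Γ := Γ × M) (fun i p => scons p.2 (fun j => e j p.1) i) ?_)
    intro i
    cases i with
    | zero => exact F.var (Γ := Γ × M) 0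
    | succ k => exact (he k).w

/-- definable maps of contexts -/
def CM (M : Set ZFSet.{0}) {Γ Δ : Type 1} [Ctx M Γ] [Ctx M Δ] (m : Γ → Δ) : Prop :=
  ∀ i, F M (fun γ => Ctx.vars (m γ) i)

theorem D.comp {P : Δ → Prop} (h : D M P) {m : Γ → Δ} (hm : CM M m) :
    D M (fun γ => P (m γ)) := by
  obtain ⟨φ, e, he⟩ := h
  refine (D.sat φ (fun i γ => ev M (m γ) (e i)) ?_).congr fun γ => he (m γ)
  intro i
  rcases e i with k | c
  · exact hm k
  · exact F.const c

theorem CM.pair {m : Γ → Δ} (hm : CM M m) {f : Γ → M} (hf : F M f) :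
    CM M (fun γ => (m γ, f γ)) := by
  intro i
  cases i with
  | zero => exact hf
  | succ k => exact hm k

theorem CM.of {f : Γ → M} (hf : F M f) : CM M (Δ := M) f := fun _ => hf

theorem CM.id : CM M (fun γ : Γ => γ) := fun i => F.var i

theorem CM.w {m : Γ → Δ} (hm : CM M m) : CM M (fun p : Γ × M => m p.1) := fun i => (hm i).w

theorem F.comp {f : Δ → M} (h : F M f) {m : Γ → Δ} (hm : CM M m) : F M (fun γ => f (m γ)) :=
  D.comp (P := fun p : Δ × M => p.2 = f p.1) h (m := fun p : Γ × M => (m p.1, p.2))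
    (CM.pair hm.w (F.var (Γ := Γ × M) 0))

theorem F.snd : F M (fun p : Γ × M => p.2) := F.var (Γ := Γ × M) 0

theorem F.fst {f : Γ → M} (hf : F M f) : F M (fun p : Γ × M => f p.1) := hf.w

theorem F.of {f : Γ → M} (h : D M (fun p : Γ × M => p.2 = f p.1)) : F M f := h

end CohenE
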