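import Mathlib

/-!
Countable transitive models of ZFC, Cohen reals over them, generic extensions by evaluation of
names, and hyperfinite equivalence relations.
-/

namespace CohenE

/-- Formulas of the language of set theory, with de Bruijn variables. -/
inductive Fml : Type
  | mem (i j : ℕ) : Fml
  | eq (i j : ℕ) : Fml
  | neg (φ : Fml) : Fml
  | and (φ ψ : Fml) : Fml
  | ex (φ : Fml) : Fml

/-- Put `a` in front of the assignment `v`. -/
def scons {A : Type*} (a : A) (v : ℕ → A) : ℕ → A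
  | 0 => a
  | n + 1 => v n

/-- `Sat M v φ`: the structure `(M, ∈)` satisfies `φ` under the assignment `v`. -/
def Sat (M : Set ZFSet.{0}) : (ℕ → M) → Fml → Prop
  | v, .mem i j => (v i : ZFSet.{0}) ∈ (v j : ZFSet.{0})
  | v, .eq i j => v i = v j
  | v, .neg φ => ¬ Sat M v φ
  | v, .and φ ψ => Sat M v φ ∧ Sat M v ψ
  | v, .ex φ => ∃ a : M, Sat M (scons a v) φ

/-- `M` is a countable transitive model of ZFC. (Extensionality and foundation hold in every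
transitive class of sets.) -/
structure CTM (M : Set ZFSet.{0}) : Prop where
  countable : M.Countable
  trans : ∀ x ∈ M, ∀ y ∈ x, y ∈ M
  pairing : ∀ x ∈ M, ∀ y ∈ M, ({x, y} : ZFSet.{0}) ∈ M
  union : ∀ x ∈ M, ZFSet.sUnion x ∈ M
  power : ∀ x ∈ M, ∃ p ∈ M, ∀ y ∈ M, y ∈ p ↔ y ⊆ x
  infinity : ∃ w ∈ M, (∅ : ZFSet.{0}) ∈ w ∧ ∀ x ∈ w, insert x x ∈ w
  separation : ∀ (φ : Fml) (v : ℕ → M) (a : M), ∃ b : M, ∀ z : M,
    (z : ZFSet.{0}) ∈ (b : ZFSet.{0}) ↔ (z : ZFSet.{0}) ∈ (a : ZFSet.{0}) ∧ Sat M (scons z v) φ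
  replacement : ∀ (φ : Fml) (v : ℕ → M) (a : M),
    (∀ z : M, (z : ZFSet.{0}) ∈ (a : ZFSet.{0}) → ∃! w : M, Sat M (scons z (scons w v)) φ) →
    ∃ b : M, ∀ w : M, (w : ZFSet.{0}) ∈ (b : ZFSet.{0}) ↔
      ∃ z : M, (z : ZFSet.{0}) ∈ (a : ZFSet.{0}) ∧ Sat M (scons z (scons w v)) φ
  choice : ∀ a ∈ M, (∀ b ∈ a, b ≠ ∅) → ∃ f ∈ M, ∀ b ∈ a, ∃! c, c ∈ b ∧ ZFSet.pair b c ∈ f

/-- The von Neumann natural numbers. -/
noncomputable def nat : ℕ → ZFSet.{0}
  | 0 => ∅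
  | n + 1 => insert (nat n) (nat n)

/-- The bits `0` and `1` as sets. -/
noncomputable def bit (b : Bool) : ZFSet.{0} := if b then nat 1 else nat 0

/-- The initial segment `x | n` of the real `x`, as the set-theoretic function
`{(i, x i) : i < n}`. -/
noncomputable def seg (x : ℕ → Bool) : ℕ → ZFSet.{0}
  | 0 => ∅
  | n + 1 => insert (ZFSet.pair (nat n) (bit (x n))) (seg x n)

/-- Conditions of Cohen forcing: finite binary strings. -/
def IsCond (s : ZFSet.{0}) : Prop := ∃ x n, s = seg x n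

/-- `A` is a dense subset of the Cohen forcing (ordered by extension). -/
def IsDense (A : ZFSet.{0}) : Prop :=
  (∀ s ∈ A, IsCond s) ∧ ∀ s, IsCond s → ∃ t ∈ A, s ⊆ t

/-- `x` is Cohen generic over `M`. -/
def Generic (M : Set ZFSet.{0}) (x : ℕ → Bool) : Prop :=
  ∀ A ∈ M, IsDense A → ∃ n, seg x n ∈ A

/-- `NameRel ρ τ`: some `(ρ, s)` is an element of `τ`. -/
def NameRel (ρ τ : ZFSet.{0}) : Prop := ∃ s, ZFSet.pair ρ s ∈ τ

theorem nameRel_wf : WellFounded NameRel := by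
  have h : Subrelation NameRel (Relation.TransGen (fun a b : ZFSet.{0} => a ∈ b)) := by
    rintro ρ τ ⟨s, hs⟩
    refine Relation.TransGen.head (b := ({ρ} : ZFSet.{0})) (by simp) ?_
    refine Relation.TransGen.head (b := ZFSet.pair ρ s) (by simp [ZFSet.pair]) ?_
    exact Relation.TransGen.single hs
  exact h.wf ZFSet.mem_wf.transGen

instance (τ : ZFSet.{0}) (x : ℕ → Bool) :
    Small.{0} {p : ZFSet.{0} × ZFSet.{0} // ZFSet.pair p.1 p.2 ∈ τ ∧ ∃ n, p.2 = seg x n} := by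
  refine small_of_injective (β := {z // z ∈ τ})
    (f := fun p => ⟨ZFSet.pair p.1.1 p.1.2, p.2.1⟩) ?_
  rintro ⟨⟨a, b⟩, h⟩ ⟨⟨c, d⟩, h'⟩ hh
  simp only [Subtype.mk.injEq, ZFSet.pair_inj] at hh
  simp [hh.1, hh.2]

/-- The value of the name `τ` under the generic filter `{x | n : n ∈ ℕ}`:
`val x τ = {val x ρ : (ρ, x | n) ∈ τ for some n}`. -/
noncomputable def val (x : ℕ → Bool) : ZFSet.{0} → ZFSet.{0} :=
  nameRel_wf.fix fun τ ih => ZFSet.range
    (fun p : {p : ZFSet.{0} × ZFSet.{0} // ZFSet.pair p.1 p.2 ∈ τ ∧ ∃ n, p.2 = seg x n} =>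
      ih p.1.1 ⟨p.1.2, p.2.1⟩)

theorem mem_val (x : ℕ → Bool) (τ z : ZFSet.{0}) :
    z ∈ val x τ ↔ ∃ ρ n, ZFSet.pair ρ (seg x n) ∈ τ ∧ z = val x ρ := by
  rw [val, nameRel_wf.fix_eq]
  simp only [ZFSet.mem_range]
  constructor
  · rintro ⟨⟨⟨a, b⟩, h, n, hn⟩, rfl⟩
    exact ⟨a, n, by simpa [← hn] using h, rfl⟩
  · rintro ⟨ρ, n, h, rfl⟩
    exact ⟨⟨(ρ, seg x n), h, n, rfl⟩, rfl⟩

/-- The generic extension `M[x]`. -/
def Ext (M : Set ZFSet.{0}) (x : ℕ → Bool) : Set ZFSet.{0} := {z | ∃ τ ∈ M, z = val x τ}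

/-- The equivalence relation `E_M`: `x` and `y` generate the same extension of `M`. -/
def EM (M : Set ZFSet.{0}) : Setoid {x : ℕ → Bool // Generic M x} where
  r x y := Ext M x.1 = Ext M y.1
  iseqv := ⟨fun _ => rfl, fun h => h.symm, fun h h' => h.trans h'⟩

/-- `E` is an increasing union of finite Borel equivalence relations. -/
def Hyperfinite {X : Type*} [MeasurableSpace X] (E : Setoid X) : Prop :=
  ∃ F : ℕ → Setoid X, (∀ n, MeasurableSet {p : X × X | F n p.1 p.2}) ∧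
    (∀ n x, {y | F n x y}.Finite) ∧ (∀ n x y, F n x y → F (n + 1) x y) ∧
    ∀ x y, E x y ↔ ∃ n, F n x y

end CohenE
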