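import Pool.Agent.Helper212.CohenE.Sets

set_option linter.unusedSectionVars false

-- ===== TARGETS =====
namespace CohenE

variable {M : Set ZFSet.{0}} [hM : Fact (CTM M)]
variable {Γ Δ : Type 1} [Ctx M Γ] [Ctx M Δ]

/-- a definable choice function for nonempty sets of conditions -/
theorem exists_choice : ∃ ch : M → M, F M (fun a : M => ch a) ∧
    ∀ a : M, (∀ s : M, (s : ZFSet.{0}) ∈ (a : ZFSet.{0}) → IsCond (s : ZFSet.{0})) →
      (∃ s : M, (s : ZFSet.{0}) ∈ (a : ZFSet.{0})) → (ch a : ZFSet.{0}) ∈ (a : ZFSet.{0}) := by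
  classical
  obtain ⟨p, hp, hp'⟩ := hM.out.power _ ((cnd : M)).2
  obtain ⟨A, hA⟩ := exists_sep (Γ := M) (Q := fun _ x => ∃ s : M, (s : ZFSet.{0}) ∈ (x : ZFSet.{0}))
    (D.ex (D.mem (F.var 0) (F.var 1))) memp ⟨p, hp⟩
  obtain ⟨f, hf, hf'⟩ := hM.out.choice _ A.2 (by
    intro b hb hb0
    have hbM : b ∈ M := hM.out.trans _ A.2 _ hb
    have h1 := (hA ⟨b, hbM⟩).1 hb
    obtain ⟨s, hs⟩ := h1.2
    change (s : ZFSet.{0}) ∈ b at hs
    rw [hb0] at hs
    exact ZFSet.notMem_empty _ hs)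
  have hex : ∀ a : M, (a : ZFSet.{0}) ∈ (A : ZFSet.{0}) → ∃ c : M,
      ((c : ZFSet.{0}) ∈ (a : ZFSet.{0}) ∧ (mpair a c : ZFSet.{0}) ∈ f) ∧
      ∀ c' : M, ((c' : ZFSet.{0}) ∈ (a : ZFSet.{0}) ∧ (mpair a c' : ZFSet.{0}) ∈ f) → c' = c := by
    intro a ha
    obtain ⟨c, hc, hu⟩ := hf' a ha
    refine ⟨⟨c, hM.out.trans _ a.2 _ hc.1⟩, hc, ?_⟩
    intro c' hc'
    exact Subtype.ext (hu c' hc')
  let ch : M → M := fun a => if h : (a : ZFSet.{0}) ∈ (A : ZFSet.{0}) then (hex a h).choose else memp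
  refine ⟨ch, ?_, ?_⟩
  · have key : ∀ q : M × M, q.2 = ch q.1 ↔
        (((q.1 : ZFSet.{0}) ∈ (A : ZFSet.{0}) ∧ ((q.2 : ZFSet.{0}) ∈ (q.1 : ZFSet.{0}) ∧
          (mpair q.1 q.2 : ZFSet.{0}) ∈ ((⟨f, hf⟩ : M) : ZFSet.{0}))) ∨
        (¬ (q.1 : ZFSet.{0}) ∈ (A : ZFSet.{0}) ∧ q.2 = memp)) := by
      rintro ⟨a, c⟩
      simp only [ch]
      by_cases h : (a : ZFSet.{0}) ∈ (A : ZFSet.{0})
      · rw [dif_pos h]
        have hs := (hex a h).choose_spec
        constructor
        · intro hc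
          left
          refine ⟨h, ?_⟩
          rw [hc]
          exact hs.1
        · rintro (⟨_, hc⟩ | ⟨hn, _⟩)
          · exact hs.2 c hc
          · exact absurd h hn
      · rw [dif_neg h]
        constructor
        · intro hc
          exact Or.inr ⟨h, hc⟩
        · rintro (⟨hn, _⟩ | ⟨_, hc⟩)
          · exact absurd hn h
          · exact hc
    have hD : D M (fun q : M × M => q.2 = ch q.1) := by
      refine D.congr ?_ key
      exact D.or (D.and (D.mem (F.var 1) (F.const A)) (D.and (D.mem (F.var 0) (F.var 1))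
        (D.mem (F.pair (F.var 1) (F.var 0)) (F.const _))))
        (D.and (D.not (D.mem (F.var 1) (F.const A))) (D.eq (F.var 0) (F.const memp)))
    exact hD
  · intro a ha hne
    have haA : (a : ZFSet.{0}) ∈ (A : ZFSet.{0}) := by
      rw [hA]
      refine ⟨?_, hne⟩
      change (a : ZFSet.{0}) ∈ p
      rw [hp' _ a.2]
      intro z hz
      exact (mem_cnd ⟨z, hM.out.trans _ a.2 _ hz⟩).2 (ha ⟨z, hM.out.trans _ a.2 _ hz⟩ hz)
    simp only [ch]
    rw [dif_pos haA]
    exact (hex a haA).choose_spec.1.1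

/-- a definable enumeration of the conditions -/
theorem exists_enum : ∃ e : M → M, F M (fun n : M => e n) ∧
    (∀ n, IsCond (e (mnat n) : ZFSet.{0})) ∧
    ∀ s : M, IsCond (s : ZFSet.{0}) → ∃ n, e (mnat n) = s := by
  classical
  obtain ⟨ch, hch, hch'⟩ := exists_choice (M := M)
  let Q : M → M → Prop := fun h t => ¬ (t : ZFSet.{0}) ∈ (h : ZFSet.{0}) ∧
    ∀ t' : M, (t' : ZFSet.{0}) ∈ ((cnd : M) : ZFSet.{0}) → ¬ (t' : ZFSet.{0}) ∈ (h : ZFSet.{0}) →
      ∀ i b : M, (mpair i b : ZFSet.{0}) ∈ (t : ZFSet.{0}) →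
        ∃ b' : M, (mpair i b' : ZFSet.{0}) ∈ (t' : ZFSet.{0})
  have hQ : D M (fun p : M × M => Q p.1 p.2) := by
    refine D.and (D.not (D.mem (F.var 0) (F.var 1))) ?_
    refine D.all (D.imp (D.mem (F.var 0) (F.const _)) (D.imp (D.not (D.mem (F.var 0) (F.var 2)))
      (D.all (D.all (D.imp (D.mem (F.pair (F.var 1) (F.var 0)) (F.var 3))
        (D.ex (D.mem (F.pair (F.var 2) (F.var 0)) (F.var 3))))))))
  let m : M → M := fun h => msep cnd (Q h)
  have hmF : F M m := F.sep hQ (F.const _)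
  have hmm : ∀ h t : M, (t : ZFSet.{0}) ∈ (m h : ZFSet.{0}) ↔
      (t : ZFSet.{0}) ∈ ((cnd : M) : ZFSet.{0}) ∧ Q h t := fun h t => mem_msep hQ h cnd t
  have hcmF : F M (fun h : M => ch (m h)) := F.comp hch (CM.of hmF)
  let Q' : M → M → Prop := fun h t => (t : ZFSet.{0}) ∈ (h : ZFSet.{0}) ∨ t = ch (m h)
  have hQ' : D M (fun p : M × M => Q' p.1 p.2) :=
    D.or (D.mem (F.var 0) (F.var 1)) (D.eq (F.var 0) hcmF.w)
  let Φ : M → M := fun h => msep cnd (Q' h)
  have hΦF : F M Φ := F.sep hQ' (F.const _)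
  have hΦm : ∀ h t : M, (t : ZFSet.{0}) ∈ (Φ h : ZFSet.{0}) ↔
      (t : ZFSet.{0}) ∈ ((cnd : M) : ZFSet.{0}) ∧ ((t : ZFSet.{0}) ∈ (h : ZFSet.{0}) ∨ t = ch (m h)) :=
    fun h t => mem_msep hQ' h cnd t
  let hh : ℕ → M := fun n => Φ^[n] memp
  have hh0 : hh 0 = memp := rfl
  have hhs : ∀ n, hh (n + 1) = Φ (hh n) := fun n => Function.iterate_succ_apply' Φ n memp
  let c : ℕ → M := fun n => ch (m (hh n))
  -- elements of `hh n`
  have hmemp : ∀ t : M, ¬ (t : ZFSet.{0}) ∈ ((memp : M) : ZFSet.{0}) := fun t =>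
    ZFSet.notMem_empty _
  have hfin : ∀ n, {t : M | (t : ZFSet.{0}) ∈ (hh n : ZFSet.{0})}.Finite := by
    intro n
    induction n with
    | zero =>
      have : {t : M | (t : ZFSet.{0}) ∈ (hh 0 : ZFSet.{0})} = ∅ := by
        ext t
        simp only [Set.mem_ofPred_eq, Set.mem_empty_iff_false, iff_false]
        exact hmemp t
      rw [this]
      exact Set.finite_empty
    | succ n ih =>
      refine (ih.union (Set.finite_singleton (c n))).subset ?_
      intro t ht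
      have ht' : (t : ZFSet.{0}) ∈ (hh (n + 1) : ZFSet.{0}) := ht
      rw [hhs, hΦm] at ht'
      exact ht'.2
  have hcnd : ∀ n, ∀ t : M, (t : ZFSet.{0}) ∈ (hh n : ZFSet.{0}) → IsCond (t : ZFSet.{0}) := by
    intro n t ht
    cases n with
    | zero => exact absurd ht (hmemp t)
    | succ n =>
      rw [hhs, hΦm] at ht
      exact (mem_cnd t).1 ht.1
  have hne : ∀ n, ∃ t : M, (t : ZFSet.{0}) ∈ (m (hh n) : ZFSet.{0}) := by
    intro n
    have hex : ∃ l : ℕ, ∃ x : ℕ → Bool, ¬ ((mseg x l : M) : ZFSet.{0}) ∈ (hh n : ZFSet.{0}) := by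
      by_contra hcon
      push Not at hcon
      have hinf : Set.Infinite {t : M | (t : ZFSet.{0}) ∈ (hh n : ZFSet.{0})} := by
        refine Set.infinite_of_injective_forall_mem (f := fun l : ℕ => mseg (M := M) (fun _ => false) l)
          ?_ (fun l => hcon l _)
        intro a b hab
        have h1 : seg (fun _ => false) a = seg (fun _ => false) b := Subtype.ext_iff.1 hab
        exact ((seg_eq _ _ _ _).1 h1).1
      exact hinf (hfin n)
    obtain ⟨x, hx⟩ := Nat.find_spec hex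
    refine ⟨mseg x (Nat.find hex), ?_⟩
    rw [hmm]
    refine ⟨(mem_cnd _).2 ⟨x, _, rfl⟩, hx, ?_⟩
    intro t' ht' ht'h i b hib
    obtain ⟨x', l', hl'⟩ := (mem_cnd t').1 ht'
    have hle : Nat.find hex ≤ l' := by
      apply Nat.find_min' hex
      refine ⟨x', ?_⟩
      change ¬ seg x' l' ∈ (hh n : ZFSet.{0})
      rw [← hl']
      exact ht'h
    change ZFSet.pair (i : ZFSet.{0}) (b : ZFSet.{0}) ∈ seg x (Nat.find hex) at hib
    obtain ⟨j, hj, e⟩ := (mem_seg _ _ _).1 hib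
    rw [ZFSet.pair_inj] at e
    refine ⟨mbit (x' j), ?_⟩
    change ZFSet.pair (i : ZFSet.{0}) (bit (x' j)) ∈ (t' : ZFSet.{0})
    rw [hl', e.1, mem_seg]
    exact ⟨j, by omega, rfl⟩
  have hcm : ∀ n, (c n : ZFSet.{0}) ∈ (m (hh n) : ZFSet.{0}) := by
    intro n
    apply hch' (m (hh n)) _ (hne n)
    intro s hs
    exact (mem_cnd s).1 ((hmm _ _).1 hs).1
  have hcc : ∀ n, (c n : ZFSet.{0}) ∈ ((cnd : M) : ZFSet.{0}) := fun n =>
    ((hmm _ _).1 (hcm n)).1
  have hcQ : ∀ n, Q (hh n) (c n) := fun n => ((hmm _ _).1 (hcm n)).2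
  have hmono1 : ∀ n, ∀ t : M, (t : ZFSet.{0}) ∈ (hh n : ZFSet.{0}) →
      (t : ZFSet.{0}) ∈ (hh (n + 1) : ZFSet.{0}) := by
    intro n t ht
    rw [hhs, hΦm]
    exact ⟨(mem_cnd t).2 (hcnd n t ht), Or.inl ht⟩
  have hcin : ∀ n k, k < n → (c k : ZFSet.{0}) ∈ (hh n : ZFSet.{0}) := by
    intro n
    induction n with
    | zero => intro k hk; omega
    | succ n ih =>
      intro k hk
      rcases Nat.lt_succ_iff_lt_or_eq.1 hk with h | h
      · exact hmono1 n _ (ih k h)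
      · subst h
        rw [hhs, hΦm]
        exact ⟨hcc k, Or.inr rfl⟩
  have hcinj : Function.Injective c := by
    intro a b hab
    rcases lt_trichotomy a b with h | h | h
    · exfalso
      have h1 := hcin b a h
      rw [hab] at h1
      exact (hcQ b).1 h1
    · exact h
    · exfalso
      have h1 := hcin a b h
      rw [← hab] at h1
      exact (hcQ a).1 h1
  have hsurj : ∀ s : M, IsCond (s : ZFSet.{0}) → ∃ n, c n = s := by
    intro s hs
    by_contra hcon
    push Not at hcon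
    have hnot : ∀ n, ¬ (s : ZFSet.{0}) ∈ (hh n : ZFSet.{0}) := by
      intro n
      induction n with
      | zero => exact hmemp s
      | succ n ih =>
        rw [hhs, hΦm]
        rintro ⟨_, h | h⟩
        · exact ih h
        · exact hcon n h.symm
    have hfb := finite_below _ hs
    have hinj2 : Function.Injective (fun n => (c n : ZFSet.{0})) := fun a b hab =>
      hcinj (Subtype.ext hab)
    refine Set.infinite_of_injective_forall_mem hinj2 (s := {s' : ZFSet.{0} | IsCond s' ∧ ∀ i b,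
      ZFSet.pair i b ∈ s' → ∃ b', ZFSet.pair i b' ∈ (s : ZFSet.{0})}) ?_ hfb
    intro n
    refine ⟨(mem_cnd _).1 (hcc n), ?_⟩
    intro i b hib
    have hpM : ZFSet.pair i b ∈ M := hM.out.trans _ (c n).2 _ hib
    obtain ⟨b', hb'⟩ := (hcQ n).2 s ((mem_cnd s).2 hs) (hnot n) ⟨i, fst_memM hpM⟩
      ⟨b, snd_memM hpM⟩ hib
    exact ⟨b', hb'⟩
  let e : M → M := fun i => if h : ∃ n, i = mnat n then c h.choose else memp
  have he : ∀ n, e (mnat n) = c n := by
    intro n
    have h : ∃ k, (mnat n : M) = mnat k := ⟨n, rfl⟩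
    simp only [e]
    rw [dif_pos h]
    have := mnat_inj (M := M) h.choose_spec
    rw [← this]
  refine ⟨e, ?_, ?_, ?_⟩
  · have key : ∀ q : M × M, q.2 = e q.1 ↔
        ((∃ h : M, (∃ n, q.1 = mnat n ∧ h = Φ^[n] memp) ∧ q.2 = ch (m h)) ∨
        (¬ (q.1 : ZFSet.{0}) ∈ ((om : M) : ZFSet.{0}) ∧ q.2 = memp)) := by
      rintro ⟨i, x⟩
      simp only
      rw [mem_om]
      by_cases h : ∃ n, i = mnat n
      · obtain ⟨n, rfl⟩ := h
        rw [he n]
        constructor
        · intro hx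
          exact Or.inl ⟨hh n, ⟨n, rfl, rfl⟩, hx⟩
        · rintro (⟨h, ⟨k, hk, hk'⟩, hx⟩ | ⟨h, _⟩)
          · have := mnat_inj (M := M) hk
            subst this
            rw [hx, hk']
          · exact absurd ⟨n, rfl⟩ h
      · have : e i = memp := by simp only [e]; rw [dif_neg h]
        rw [this]
        constructor
        · intro hx
          exact Or.inr ⟨h, hx⟩
        · rintro (⟨_, ⟨k, hk, _⟩, _⟩ | ⟨_, hx⟩)
          · exact absurd ⟨k, hk⟩ h
          · exact hx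
    have hit : D M (fun p : (M × M) × M => ∃ n, p.1.2 = mnat n ∧
        p.2 = ((fun (_ : M) (x : M) => Φ x) p.1.1)^[n] ((fun (_ : M) => memp) p.1.1)) :=
      D.iter (Γ := M) (Φ := fun _ x => Φ x) (a := fun _ => memp)
        (F.comp hΦF (m := fun p : M × M => p.2) (CM.of F.snd)) (F.const memp)
    have hD : D M (fun q : M × M => q.2 = e q.1) := by
      refine D.congr ?_ key
      refine D.or (D.ex (D.and ?_ (D.eq (F.var 1) (F.comp hcmF (m := fun p : (M × M) × M => p.2)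
        (CM.of F.snd))))) (D.and (D.not (D.mem (F.var 1) (F.const om))) (D.eq (F.var 0) (F.const memp)))
      exact D.comp hit (m := fun q : (M × M) × M => ((q.1.1, q.1.1), q.2))
        (CM.pair (CM.pair (CM.of (F.var (Γ := (M × M) × M) 2)) (F.var (Γ := (M × M) × M) 2))
          (F.var (Γ := (M × M) × M) 0))
    exact hD
  · intro n
    rw [he n]
    exact (mem_cnd _).1 (hcc n)
  · intro s hs
    obtain ⟨n, hn⟩ := hsurj s hs
    exact ⟨n, by rw [he n, hn]⟩

end CohenE
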