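import Mathlib
namespace CohenE

theorem index2 {X : Type*} [MeasurableSpace X] (E : X → X → Prop) (hEq : Equivalence E)
    (hE : MeasurableSet {p : X × X | E p.1 p.2})
    (g : ℕ → X → X) (hg : ∀ i, Measurable (g i)) (hgE : ∀ x y, E x y → ∃ i, g i x = y)
    (F : ℕ → X → X → Prop) (hFeq : ∀ n, Equivalence (F n))
    (hFm : ∀ n, MeasurableSet {p : X × X | F n p.1 p.2})
    (hfin : ∀ n x, {y | F n x y}.Finite)
    (hmono : ∀ n x y, F n x y → F (n + 1) x y)
    (h3 : ∀ x y z, E x y → E y z → ∃ n, F n x y ∨ F n y z ∨ F n x z) :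
    ∃ F' : ℕ → Setoid X, (∀ n, MeasurableSet {p : X × X | F' n p.1 p.2}) ∧
      (∀ n x, {y | F' n x y}.Finite) ∧ (∀ n x y, F' n x y → F' (n + 1) x y) ∧
      ∀ x y, E x y ↔ ∃ n, F' n x y := by
  classical
  obtain ⟨G, hG⟩ : ∃ G : ℕ → X → X → Prop, G = fun n x y => F n x y ∧ E x y := ⟨_, rfl⟩
  have hGi : ∀ n x y, G n x y ↔ F n x y ∧ E x y := fun n x y => by rw [hG]
  have hrefl : ∀ n x, G n x x := fun n x => (hGi n x x).2 ⟨(hFeq n).refl x, hEq.refl x⟩
  have hsymm : ∀ n x y, G n x y → G n y x := fun n x y h =>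
    (hGi n y x).2 ⟨(hFeq n).symm ((hGi n x y).1 h).1, hEq.symm ((hGi n x y).1 h).2⟩
  have htrans : ∀ n x y z, G n x y → G n y z → G n x z := fun n x y z h h' =>
    (hGi n x z).2 ⟨(hFeq n).trans ((hGi n x y).1 h).1 ((hGi n y z).1 h').1,
      hEq.trans ((hGi n x y).1 h).2 ((hGi n y z).1 h').2⟩
  have hGE : ∀ n x y, G n x y → E x y := fun n x y h => ((hGi n x y).1 h).2
  have hGmono : ∀ n x y, G n x y → G (n + 1) x y := fun n x y h =>
    (hGi _ x y).2 ⟨hmono n x y ((hGi n x y).1 h).1, ((hGi n x y).1 h).2⟩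
  have hGle : ∀ m n, m ≤ n → ∀ x y, G m x y → G n x y := by
    intro m n hmn x y h
    induction hmn with
    | refl => exact h
    | step _ ih => exact hGmono _ _ _ ih
  have hGm : ∀ n, MeasurableSet {p : X × X | G n p.1 p.2} := by
    intro n
    have : {p : X × X | G n p.1 p.2} = {p : X × X | F n p.1 p.2} ∩ {p : X × X | E p.1 p.2} := by
      ext p
      exact hGi n p.1 p.2
    rw [this]
    exact (hFm n).inter hE
  obtain ⟨I, hI⟩ : ∃ I : X → X → Prop, I = fun x y => ∃ n, G n x y := ⟨_, rfl⟩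
  have hIi : ∀ x y, I x y ↔ ∃ n, G n x y := fun x y => by rw [hI]
  have Isymm : ∀ x y, I x y → I y x := by
    intro x y h
    obtain ⟨n, hn⟩ := (hIi x y).1 h
    exact (hIi y x).2 ⟨n, hsymm n x y hn⟩
  have Itrans : ∀ x y z, I x y → I y z → I x z := by
    intro x y z h h'
    obtain ⟨n, hn⟩ := (hIi x y).1 h
    obtain ⟨m, hm⟩ := (hIi y z).1 h'
    exact (hIi x z).2 ⟨max n m, htrans _ x y z (hGle n _ (le_max_left _ _) x y hn)
      (hGle m _ (le_max_right _ _) y z hm)⟩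
  have I3 : ∀ x y z, E x y → E y z → I x y ∨ I y z ∨ I x z := by
    intro x y z hxy hyz
    obtain ⟨n, hn⟩ := h3 x y z hxy hyz
    rcases hn with h | h | h
    · exact Or.inl ((hIi _ _).2 ⟨n, (hGi _ _ _).2 ⟨h, hxy⟩⟩)
    · exact Or.inr (Or.inl ((hIi _ _).2 ⟨n, (hGi _ _ _).2 ⟨h, hyz⟩⟩))
    · exact Or.inr (Or.inr ((hIi _ _).2 ⟨n, (hGi _ _ _).2 ⟨h, hEq.trans hxy hyz⟩⟩))
  obtain ⟨A, hA⟩ : ∃ A : ℕ → X → Prop, A = fun i x => E x (g i x) ∧ ¬ I x (g i x) := ⟨_, rfl⟩
  have hAi : ∀ i x, A i x ↔ E x (g i x) ∧ ¬ I x (g i x) := fun i x => by rw [hA]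
  have hAm : ∀ i, MeasurableSet {x | A i x} := by
    intro i
    have h1 : MeasurableSet {x | E x (g i x)} := (measurable_id.prodMk (hg i)) hE
    have h2 : MeasurableSet {x | I x (g i x)} := by
      have : {x | I x (g i x)} = ⋃ n, {x | G n x (g i x)} := by
        ext x
        rw [Set.mem_iUnion]
        exact hIi x (g i x)
      rw [this]
      exact MeasurableSet.iUnion fun n => (measurable_id.prodMk (hg i)) (hGm n)
    have : {x | A i x} = {x | E x (g i x)} ∩ {x | I x (g i x)}ᶜ := by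
      ext x
      exact hAi i x
    rw [this]
    exact h1.inter h2.compl
  have hUm : MeasurableSet {x | ∃ i, A i x} := by
    have : {x | ∃ i, A i x} = ⋃ i, {x | A i x} := by
      ext x
      rw [Set.mem_iUnion]
      rfl
    rw [this]
    exact MeasurableSet.iUnion hAm
  have hex : ∀ x, ∃ n, A n x ∨ ¬ ∃ i, A i x := by
    intro x
    by_cases h : ∃ i, A i x
    · obtain ⟨i, hi⟩ := h
      exact ⟨i, Or.inl hi⟩
    · exact ⟨0, Or.inr h⟩
  obtain ⟨f, hf⟩ : ∃ f : X → X, f = fun x => if ∃ i, A i x then g (Nat.find (hex x)) x else x :=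
    ⟨_, rfl⟩
  have hfm : Measurable f := by
    have h := Measurable.find (f := fun n x => if ∃ i, A i x then g n x else x)
      (p := fun n x => A n x ∨ ¬ ∃ i, A i x)
      (fun n => Measurable.ite hUm (hg n) measurable_id)
      (fun n => (hAm n).union hUm.compl) hex
    rw [hf]
    exact h
  have hf1 : ∀ x, (∃ z, E x z ∧ ¬ I x z) → E x (f x) ∧ ¬ I x (f x) := by
    intro x hx
    obtain ⟨z, hz1, hz2⟩ := hx
    obtain ⟨i, hi⟩ := hgE x z hz1
    have hAx : ∃ i, A i x := ⟨i, (hAi i x).2 (by rw [hi]; exact ⟨hz1, hz2⟩)⟩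
    have h1 := (Nat.find_spec (hex x)).resolve_right (not_not_intro hAx)
    have h2 : f x = g (Nat.find (hex x)) x := by
      rw [hf]
      simp only [if_pos hAx]
    rw [h2]
    exact (hAi _ x).1 h1
  have hf2 : ∀ x, (¬ ∃ z, E x z ∧ ¬ I x z) → f x = x := by
    intro x hx
    have hAx : ¬ ∃ i, A i x := by
      rintro ⟨i, hi⟩
      exact hx ⟨g i x, (hAi i x).1 hi⟩
    rw [hf]
    simp only [if_neg hAx]
  have hfE : ∀ x, E x (f x) := by
    intro x
    by_cases h : ∃ z, E x z ∧ ¬ I x z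
    · exact (hf1 x h).1
    · rw [hf2 x h]; exact hEq.refl x
  refine ⟨fun n => ⟨fun x y => (G n x y ∧ G n (f x) (f y)) ∨ (G n x (f y) ∧ G n (f x) y),
    ⟨?_, ?_, ?_⟩⟩, ?_, ?_, ?_, ?_⟩
  · exact fun x => Or.inl ⟨hrefl n x, hrefl n _⟩
  · rintro x y (⟨h1, h2⟩ | ⟨h1, h2⟩)
    · exact Or.inl ⟨hsymm _ _ _ h1, hsymm _ _ _ h2⟩
    · exact Or.inr ⟨hsymm _ _ _ h2, hsymm _ _ _ h1⟩
  · rintro x y z (⟨h1, h2⟩ | ⟨h1, h2⟩) (⟨h4, h5⟩ | ⟨h4, h5⟩)
    · exact Or.inl ⟨htrans _ _ _ _ h1 h4, htrans _ _ _ _ h2 h5⟩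
    · exact Or.inr ⟨htrans _ _ _ _ h1 h4, htrans _ _ _ _ h2 h5⟩
    · exact Or.inr ⟨htrans _ _ _ _ h1 h5, htrans _ _ _ _ h2 h4⟩
    · exact Or.inl ⟨htrans _ _ _ _ h1 h5, htrans _ _ _ _ h2 h4⟩
  · intro n
    have hm : ∀ u v : X × X → X, Measurable u → Measurable v →
        MeasurableSet {p : X × X | G n (u p) (v p)} := fun u v hu hv => (hu.prodMk hv) (hGm n)
    have h1 := ((hm _ _ measurable_fst measurable_snd).inter
      (hm _ _ (hfm.comp measurable_fst) (hfm.comp measurable_snd))).union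
      ((hm _ _ measurable_fst (hfm.comp measurable_snd)).inter
      (hm _ _ (hfm.comp measurable_fst) measurable_snd))
    exact h1
  · intro n x
    have hfinG : ∀ x, {y | G n x y}.Finite := fun x =>
      (hfin n x).subset fun y hy => ((hGi n x y).1 hy).1
    refine ((hfinG x).union (hfinG (f x))).subset ?_
    rintro y (⟨h1, _⟩ | ⟨_, h2⟩)
    · exact Or.inl h1
    · exact Or.inr h2
  · rintro n x y (⟨h1, h2⟩ | ⟨h1, h2⟩)
    · exact Or.inl ⟨hGmono _ _ _ h1, hGmono _ _ _ h2⟩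
    · exact Or.inr ⟨hGmono _ _ _ h1, hGmono _ _ _ h2⟩
  · intro x y
    constructor
    · intro hxy
      show ∃ n, (G n x y ∧ G n (f x) (f y)) ∨ (G n x (f y) ∧ G n (f x) y)
      have hcomb : ∀ a b c d : X, I a b → I c d → ∃ n, G n a b ∧ G n c d := by
        intro a b c d h h'
        obtain ⟨n, hn⟩ := (hIi a b).1 h
        obtain ⟨m, hm⟩ := (hIi c d).1 h'
        exact ⟨max n m, hGle n _ (le_max_left _ _) _ _ hn, hGle m _ (le_max_right _ _) _ _ hm⟩
      by_cases hx : ∃ z, E x z ∧ ¬ I x z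
      · obtain ⟨e1, e2⟩ := hf1 x hx
        have hy : ∃ z, E y z ∧ ¬ I y z := by
          obtain ⟨z, hz1, hz2⟩ := hx
          by_cases hI1 : I x y
          · exact ⟨z, hEq.trans (hEq.symm hxy) hz1, fun h => hz2 (Itrans _ _ _ hI1 h)⟩
          · exact ⟨x, hEq.symm hxy, fun h => hI1 (Isymm _ _ h)⟩
        obtain ⟨e3, e4⟩ := hf1 y hy
        by_cases hI1 : I x y
        · have h5 : I (f x) (f y) := by
            rcases I3 x (f x) (f y) e1
              (hEq.trans (hEq.symm e1) (hEq.trans hxy e3)) with h | h | h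
            · exact absurd h e2
            · exact h
            · exact absurd (Itrans _ _ _ (Isymm _ _ hI1) h) e4
          obtain ⟨n, hn⟩ := hcomb _ _ _ _ hI1 h5
          exact ⟨n, Or.inl hn⟩
        · have h5 : I (f x) y := by
            rcases I3 x (f x) y e1 (hEq.trans (hEq.symm e1) hxy) with h | h | h
            · exact absurd h e2
            · exact h
            · exact absurd h hI1
          have h6 : I x (f y) := by
            rcases I3 x y (f y) hxy e3 with h | h | h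
            · exact absurd h hI1
            · exact absurd h e4
            · exact h
          obtain ⟨n, hn⟩ := hcomb _ _ _ _ h6 h5
          exact ⟨n, Or.inr hn⟩
      · have hxI : ∀ z, E x z → I x z := by
          intro z hz
          by_contra h
          exact hx ⟨z, hz, h⟩
        have hy : ¬ ∃ z, E y z ∧ ¬ I y z := by
          rintro ⟨z, hz1, hz2⟩
          exact hz2 (Itrans _ _ _ (Isymm _ _ (hxI y hxy)) (hxI z (hEq.trans hxy hz1)))
        obtain ⟨n, hn⟩ := (hIi x y).1 (hxI y hxy)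
        refine ⟨n, Or.inl ⟨hn, ?_⟩⟩
        rw [hf2 x hx, hf2 y hy]
        exact hn
    · rintro ⟨n, ⟨h1, _⟩ | ⟨_, h2⟩⟩
      · exact hGE _ _ _ h1
      · exact hEq.trans (hfE x) (hGE _ _ _ h2)

end CohenE
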