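import Mathlib
namespace CohenE.Toast
open Relation

variable {X : Type*}

/-- `k`-step neighbourhood relation of `H` -/
def B (H : X → X → Prop) : ℕ → X → X → Prop
  | 0 => fun x y => x = y
  | k + 1 => fun x y => ∃ z, B H k x z ∧ H z y

/-- being in the same 5-component of `R` -/
def K (H : X → X → Prop) (R : X → Prop) : X → X → Prop :=
  TransGen (fun x y => R x ∧ R y ∧ B H 5 x y)

def T (H : X → X → Prop) (R : X → Prop) (x y : X) : Prop := x = y ∨ ∃ u, B H 5 x u ∧ K H R u y

def Dd (H : X → X → Prop) (R : X → Prop) (c y : X) : Prop := ∃ z, T H R c z ∧ B H 2 z y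

def Q (H : X → X → Prop) (R : X → Prop) (c y : X) : Prop := ∃ z, Dd H R c z ∧ T H R z y

def Conf (H : X → X → Prop) (R : X → Prop) (c c' : X) : Prop :=
  ∃ y z, Q H R c y ∧ B H 5 y z ∧ Q H R c' z

def U (H : X → X → Prop) (R C : X → Prop) (x : X) : Prop := ∃ c, C c ∧ Dd H R c x


theorem B_add_14178 {H : X → X → Prop} {j : ℕ} (k : ℕ) {x y z : X} (h : B H j x y)
    (h' : B H k y z) : B H (j + k) x z := by
  induction k generalizing z with
  | zero =>
    have : y = z := h'
    subst this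
    exact h
  | succ k ih =>
    obtain ⟨w, hw, hwz⟩ := h'
    exact ⟨w, ih hw, hwz⟩

theorem B_one_14178 {H : X → X → Prop} {x y : X} (h : H x y) : B H 1 x y := ⟨x, rfl, h⟩

theorem B_refl_14178 {H : X → X → Prop} (hr : ∀ x, H x x) (k : ℕ) (x : X) : B H k x x := by
  induction k with
  | zero => rfl
  | succ k ih => exact ⟨x, ih, hr x⟩

theorem B_mono_14178 {H : X → X → Prop} (hr : ∀ x, H x x) {j k : ℕ} (hjk : j ≤ k) {x y : X}
    (h : B H j x y) : B H k x y := by
  obtain ⟨l, rfl⟩ := Nat.exists_eq_add_of_le hjk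
  exact B_add_14178 l h (B_refl_14178 hr l y)

theorem B_symm {H : X → X → Prop} (hs : ∀ x y, H x y → H y x) (k : ℕ) (x y : X) (h : B H k x y) :
    B H k y x := by
  induction k generalizing y with
  | zero =>
    have : x = y := h
    exact this.symm
  | succ k ih =>
    obtain ⟨z, hz, hzy⟩ := h
    have h1 := B_add_14178 k (B_one_14178 (hs z y hzy)) (ih z hz)
    rwa [Nat.add_comm] at h1

theorem K_symm {H : X → X → Prop} (hs : ∀ x y, H x y → H y x) (R : X → Prop) (x y : X)
    (h : K H R x y) : K H R y x := by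
  unfold K at *
  induction h with
  | single h => exact TransGen.single ⟨h.2.1, h.1, B_symm hs 5 _ _ h.2.2⟩
  | tail _ h ih => exact TransGen.head ⟨h.2.1, h.1, B_symm hs 5 _ _ h.2.2⟩ ih

theorem K_trans_14178 {H : X → X → Prop} {R : X → Prop} {x y z : X}
    (h : K H R x y) (h' : K H R y z) : K H R x z := TransGen.trans h h'

theorem K_single_14178 {H : X → X → Prop} {R : X → Prop} {x y : X}
    (hx : R x) (hy : R y) (h : B H 5 x y) : K H R x y := TransGen.single ⟨hx, hy, h⟩

theorem K_mono_14178 {H : X → X → Prop} {R R' : X → Prop} (hRR : ∀ x, R x → R' x) {x y : X}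
    (h : K H R x y) : K H R' x y := by
  unfold K at *
  induction h with
  | single h => exact TransGen.single ⟨hRR _ h.1, hRR _ h.2.1, h.2.2⟩
  | tail _ h ih => exact TransGen.tail ih ⟨hRR _ h.1, hRR _ h.2.1, h.2.2⟩

theorem K_left_14178 {H : X → X → Prop} {R : X → Prop} {x y : X} (h : K H R x y) : R x := by
  unfold K at h
  induction h with
  | single h => exact h.1
  | tail _ _ ih => exact ih

theorem K_right_14178 {H : X → X → Prop} {R : X → Prop} {x y : X} (h : K H R x y) : R y := by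
  unfold K at h
  induction h with
  | single h => exact h.2.1
  | tail _ h _ => exact h.2.1

theorem comp_finite_14178 {r s : X → X → Prop} (hr : ∀ x, {y | r x y}.Finite)
    (hs : ∀ x, {y | s x y}.Finite) (x : X) : {y | ∃ z, r x z ∧ s z y}.Finite := by
  have : {y | ∃ z, r x z ∧ s z y} = ⋃ z ∈ {z | r x z}, {y | s z y} := by
    ext y; simp
  rw [this]
  exact (hr x).biUnion fun z _ => hs z

theorem B_finite {H : X → X → Prop} (hf : ∀ x, {y | H x y}.Finite) (k : ℕ) (x : X) :
    {y | B H k x y}.Finite := by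
  induction k with
  | zero =>
    have : {y | B H 0 x y} = {x} := by
      ext y
      constructor
      · intro h
        have : x = y := h
        exact this.symm
      · intro h
        have : y = x := h
        exact this.symm
    rw [this]
    exact Set.finite_singleton x
  | succ k ih =>
    have : {y | B H (k + 1) x y} = ⋃ z ∈ {z | B H k x z}, {y | H z y} := by
      ext y
      simp [B]
    rw [this]
    exact ih.biUnion fun z _ => hf z

theorem T_finite_14178 {H : X → X → Prop}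
    (hf : ∀ x, {y | H x y}.Finite) {R : X → Prop} (hR : ∀ x, {y | K H R x y}.Finite) (x : X) :
    {y | T H R x y}.Finite := by
  have h1 : {y | T H R x y} ⊆ {x} ∪ {y | ∃ u, B H 5 x u ∧ K H R u y} := by
    rintro y (h | h)
    · exact Or.inl h.symm
    · exact Or.inr h
  exact ((Set.finite_singleton x).union (comp_finite_14178 (B_finite hf 5) hR x)).subset h1

theorem Tinv_finite_14178 {H : X → X → Prop} (hs : ∀ x y, H x y → H y x)
    (hf : ∀ x, {y | H x y}.Finite) {R : X → Prop} (hR : ∀ x, {y | K H R x y}.Finite) (x : X) :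
    {y | T H R y x}.Finite := by
  have h1 : {y | T H R y x} ⊆ {x} ∪ {y | ∃ u, K H R x u ∧ B H 5 u y} := by
    rintro y (h | ⟨u, h1, h2⟩)
    · exact Or.inl h
    · exact Or.inr ⟨u, K_symm hs R _ _ h2, B_symm hs 5 _ _ h1⟩
  exact ((Set.finite_singleton x).union (comp_finite_14178 hR (B_finite hf 5) x)).subset h1

theorem Dd_finite_14178 {H : X → X → Prop}
    (hf : ∀ x, {y | H x y}.Finite) {R : X → Prop} (hR : ∀ x, {y | K H R x y}.Finite) (x : X) :
    {y | Dd H R x y}.Finite :=
  comp_finite_14178 (T_finite_14178 hf hR) (B_finite hf 2) x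

theorem Ddinv_finite_14178 {H : X → X → Prop} (hs : ∀ x y, H x y → H y x)
    (hf : ∀ x, {y | H x y}.Finite) {R : X → Prop} (hR : ∀ x, {y | K H R x y}.Finite) (x : X) :
    {y | Dd H R y x}.Finite := by
  apply (comp_finite_14178 (r := B H 2) (s := fun z y => T H R y z) (B_finite hf 2)
    (Tinv_finite_14178 hs hf hR) x).subset
  rintro y ⟨z, h1, h2⟩
  exact ⟨z, B_symm hs 2 _ _ h2, h1⟩

theorem Q_finite_14178 {H : X → X → Prop}
    (hf : ∀ x, {y | H x y}.Finite) {R : X → Prop} (hR : ∀ x, {y | K H R x y}.Finite) (x : X) :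
    {y | Q H R x y}.Finite :=
  comp_finite_14178 (Dd_finite_14178 hf hR) (T_finite_14178 hf hR) x

theorem Qinv_finite_14178 {H : X → X → Prop} (hs : ∀ x y, H x y → H y x)
    (hf : ∀ x, {y | H x y}.Finite) {R : X → Prop} (hR : ∀ x, {y | K H R x y}.Finite) (x : X) :
    {y | Q H R y x}.Finite := by
  apply (comp_finite_14178 (r := fun x z => T H R z x) (s := fun z y => Dd H R y z)
    (Tinv_finite_14178 hs hf hR) (Ddinv_finite_14178 hs hf hR) x).subset
  rintro y ⟨z, h1, h2⟩
  exact ⟨z, h2, h1⟩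

/-- only finitely many conflicts -/
theorem conf_finite {H : X → X → Prop} (hs : ∀ x y, H x y → H y x) (hr : ∀ x, H x x)
    (hf : ∀ x, {y | H x y}.Finite) (R : X → Prop) (hR : ∀ x, {y | K H R x y}.Finite) (x : X) :
    {y | Conf H R x y}.Finite := by
  apply (comp_finite_14178 (r := Q H R) (s := fun y c' => ∃ z, B H 5 y z ∧ Q H R c' z)
    (Q_finite_14178 hf hR)
    (comp_finite_14178 (r := B H 5) (s := fun z c' => Q H R c' z) (B_finite hf 5)
      (Qinv_finite_14178 hs hf hR)) x).subset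
  rintro y ⟨a, b, h1, h2, h3⟩
  exact ⟨a, h1, b, h2, h3⟩

theorem Dd_Q_14178 {H : X → X → Prop} {R : X → Prop} {c y : X} (h : Dd H R c y) : Q H R c y :=
  ⟨y, h, Or.inl rfl⟩

theorem step_claim_14178 {H : X → X → Prop} (hr : ∀ x, H x x)
    (R : X → Prop)
    (C : X → Prop) (hC : ∀ c c', C c → C c' → c ≠ c' → ¬ Conf H R c c')
    {c a b : X} (hc : C c) (ha : Q H R c a) (hb : R b ∨ U H R C b) (hab : B H 5 a b) :
    Q H R c b := by
  rcases hb with hb | ⟨c', hc', hb⟩
  · obtain ⟨z, hz, hza⟩ := ha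
    rcases hza with h | ⟨u, h1, h2⟩
    · subst h
      exact ⟨z, hz, Or.inr ⟨b, hab, K_single_14178 hb hb (B_refl_14178 hr 5 b)⟩⟩
    · exact ⟨z, hz, Or.inr ⟨u, h1, K_trans_14178 h2 (K_single_14178 (K_right_14178 h2) hb hab)⟩⟩
  · by_cases hcc : c = c'
    · subst hcc
      exact Dd_Q_14178 hb
    · exact absurd ⟨a, b, ha, hab, Dd_Q_14178 hb⟩ (hC c c' hc hc' hcc)

/-- one step keeps the components finite -/
theorem step_finite {H : X → X → Prop} (hs : ∀ x y, H x y → H y x) (hr : ∀ x, H x x)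
    (hf : ∀ x, {y | H x y}.Finite) (R : X → Prop) (hR : ∀ x, {y | K H R x y}.Finite)
    (C : X → Prop) (hC : ∀ c c', C c → C c' → c ≠ c' → ¬ Conf H R c c') (x : X) :
    {y | K H (fun z => R z ∨ U H R C z) x y}.Finite := by
  by_cases hx : ∃ c, C c ∧ Q H R c x
  · obtain ⟨c, hc, hcx⟩ := hx
    apply (Q_finite_14178 hf hR c).subset
    intro y hy
    have hy' : TransGen (fun x y => (R x ∨ U H R C x) ∧ (R y ∨ U H R C y) ∧ B H 5 x y) x y := hy
    change Q H R c y
    induction hy' with
    | single h => exact step_claim_14178 hr R C hC hc hcx h.2.1 h.2.2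
    | tail hh h ih => exact step_claim_14178 hr R C hC hc (ih hh) h.2.1 h.2.2
  · have hno : ∀ a b, (¬ ∃ c, C c ∧ Q H R c a) → (R a ∨ U H R C a) → (R b ∨ U H R C b) →
        B H 5 a b → (¬ ∃ c, C c ∧ Q H R c b) ∧ R a ∧ R b := by
      intro a b hna hRa hRb hab
      have h1 : ¬ ∃ c, C c ∧ Q H R c b := by
        rintro ⟨c, hc, hcb⟩
        exact hna ⟨c, hc, step_claim_14178 hr R C hC hc hcb hRa (B_symm hs 5 _ _ hab)⟩
      refine ⟨h1, ?_, ?_⟩
      · rcases hRa with h | ⟨c, hc, h⟩
        · exact h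
        · exact absurd ⟨c, hc, Dd_Q_14178 h⟩ hna
      · rcases hRb with h | ⟨c, hc, h⟩
        · exact h
        · exact absurd ⟨c, hc, Dd_Q_14178 h⟩ h1
    apply (hR x).subset
    intro y hy
    have hy' : TransGen (fun x y => (R x ∨ U H R C x) ∧ (R y ∨ U H R C y) ∧ B H 5 x y) x y := hy
    have key : (¬ ∃ c, C c ∧ Q H R c y) ∧ K H R x y := by
      clear hy
      induction hy' with
      | single h =>
        obtain ⟨h1, h2, h3⟩ := hno _ _ hx h.1 h.2.1 h.2.2
        exact ⟨h1, K_single_14178 h2 h3 h.2.2⟩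
      | tail hh h ih =>
        obtain ⟨h1, h2, h3⟩ := hno _ _ ih.1 h.1 h.2.1 h.2.2
        exact ⟨h1, K_trans_14178 ih.2 (K_single_14178 h2 h3 h.2.2)⟩
    exact key.2

/-- the toast: both sides of `S` have finite components -/
theorem toast {H : X → X → Prop} (hs : ∀ x y, H x y → H y x) (hr : ∀ x, H x x)
    (hf : ∀ x, {y | H x y}.Finite) (R C : ℕ → X → Prop) (h0 : ∀ x, ¬ R 0 x)
    (hstep : ∀ n x, R (n + 1) x ↔ R n x ∨ U H (R n) (C n) x)
    (hC : ∀ n c c', C n c → C n c' → c ≠ c' → ¬ Conf H (R n) c c')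
    (cov : ∀ x, ∃ n, C n x) (x : X) :
    {y | TransGen (fun a b => H a b ∧
      ((∃ n, ¬ U H (R n) (C n) a ∧ ∃ z, H a z ∧ U H (R n) (C n) z) ↔
       (∃ n, ¬ U H (R n) (C n) b ∧ ∃ z, H b z ∧ U H (R n) (C n) z))) x y}.Finite := by
  have hfin : ∀ n x, {y | K H (R n) x y}.Finite := by
    intro n
    induction n with
    | zero =>
      intro x
      have : {y | K H (R 0) x y} = ∅ := by
        ext y
        constructor
        · intro h
          exact absurd (K_left_14178 h) (h0 x)
        · intro h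
          exact absurd h (Set.notMem_empty y)
      rw [this]
      exact Set.finite_empty
    | succ n ih =>
      intro x
      have : R (n + 1) = fun z => R n z ∨ U H (R n) (C n) z := by
        funext z
        exact propext (hstep n z)
      rw [this]
      exact step_finite hs hr hf (R n) ih (C n) (hC n) x
  have hmono : ∀ n m, n ≤ m → ∀ x, R n x → R m x := by
    intro n m hnm
    induction m, hnm using Nat.le_induction with
    | base => exact fun x h => h
    | succ m _ ih => exact fun x h => (hstep m x).2 (Or.inl (ih x h))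
  have hUR : ∀ n m, n < m → ∀ x, U H (R n) (C n) x → R m x := by
    intro n m hnm x hx
    exact hmono (n + 1) m hnm x ((hstep n x).2 (Or.inr hx))
  have h5 : ∀ {a b : X}, H a b → B H 5 a b := fun h =>
    B_mono_14178 hr (by norm_num) (B_one_14178 h)
  -- (c)
  have hc : ∀ n m, n < m → ∀ c c' y y', C n c → C m c' → Dd H (R n) c y → Dd H (R m) c' y' →
      B H 3 y y' → ∀ w, Dd H (R n) c w → T H (R m) c' w := by
    intro n m hnm c c' y y' hCc hCc' hy hy' hyy w hw
    have hTR : ∀ z, T H (R n) c z → R m z := by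
      intro z hz
      exact hUR n m hnm z ⟨c, hCc, z, hz, B_refl_14178 hr 2 z⟩
    have hcR : R m c := hTR c (Or.inl rfl)
    have hTK : ∀ z, T H (R n) c z → K H (R m) c z := by
      intro z hz
      rcases hz with h | ⟨u, h1, h2⟩
      · subst h
        exact K_single_14178 hcR hcR (B_refl_14178 hr 5 c)
      · have hu : R m u := hmono n m hnm.le u (K_left_14178 h2)
        exact K_trans_14178 (K_single_14178 hcR hu h1) (K_mono_14178 (hmono n m hnm.le) h2)
    have hDK : ∀ w, Dd H (R n) c w → K H (R m) c w := by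
      intro w hw
      have hwR : R m w := hUR n m hnm w ⟨c, hCc, hw⟩
      obtain ⟨z, hz, hzw⟩ := hw
      exact K_trans_14178 (hTK z hz) (K_single_14178 (hTR z hz) hwR
        (B_mono_14178 hr (by norm_num) hzw))
    have hyw : K H (R m) y w := K_trans_14178 (K_symm hs _ _ _ (hDK y hy)) (hDK w hw)
    have hyR : R m y := K_left_14178 hyw
    obtain ⟨z', hz', hzy'⟩ := hy'
    have hz5 : B H 5 z' y := B_add_14178 (j := 2) 3 hzy' (B_symm hs 3 _ _ hyy)
    rcases hz' with h | ⟨u, h1, h2⟩
    · subst h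
      exact Or.inr ⟨y, hz5, hyw⟩
    · exact Or.inr ⟨u, h1, K_trans_14178 h2 (K_trans_14178
        (K_single_14178 (K_right_14178 h2) hyR hz5) hyw)⟩
  set S : X → Prop := fun a => ∃ n, ¬ U H (R n) (C n) a ∧ ∃ z, H a z ∧ U H (R n) (C n) z with hS
  change {y | TransGen (fun a b => H a b ∧ (S a ↔ S b)) x y}.Finite
  by_cases hx : S x
  · obtain ⟨n, hnx, y0, hxy0, c, hCc, hcy0⟩ := id hx
    have hclaim : ∀ a b, (¬ U H (R n) (C n) a ∧ ∃ y, H a y ∧ Dd H (R n) c y) → H a b → S b →
        (¬ U H (R n) (C n) b ∧ ∃ y, H b y ∧ Dd H (R n) c y) := by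
      rintro a b ⟨hna, y, hay, hcy⟩ hab ⟨m, hmb, y', hby', c', hCc', hcy'⟩
      have hyy : B H 3 y y' := ⟨b, ⟨a, B_one_14178 (hs _ _ hay), hab⟩, hby'⟩
      rcases lt_trichotomy n m with hnm | hnm | hnm
      · exfalso
        apply hmb
        refine ⟨c', hCc', y, hc n m hnm c c' y y' hCc hCc' hcy hcy' hyy y hcy, ?_⟩
        exact ⟨a, B_one_14178 (hs _ _ hay), hab⟩
      · subst hnm
        have hcc : c = c' := by
          by_contra hne
          exact hC n c c' hCc hCc' hne ⟨y, y', Dd_Q_14178 hcy,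
            B_mono_14178 hr (by norm_num) hyy, Dd_Q_14178 hcy'⟩
        subst hcc
        exact ⟨hmb, y', hby', hcy'⟩
      · exfalso
        apply hna
        refine ⟨c, hCc, y', hc m n hnm c' c y' y hCc' hCc hcy' hcy (B_symm hs 3 _ _ hyy) y' hcy', ?_⟩
        exact ⟨b, B_one_14178 (hs _ _ hby'), hs _ _ hab⟩
    have hall : ∀ y, TransGen (fun a b => H a b ∧ (S a ↔ S b)) x y → S y ∧
        (¬ U H (R n) (C n) y ∧ ∃ z, H y z ∧ Dd H (R n) c z) := by
      intro y hy
      induction hy with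
      | single h =>
        have hSb := h.2.1 hx
        exact ⟨hSb, hclaim _ _ ⟨hnx, y0, hxy0, hcy0⟩ h.1 hSb⟩
      | tail _ h ih =>
        have hSb := h.2.1 ih.1
        exact ⟨hSb, hclaim _ _ ih.2 h.1 hSb⟩
    apply (comp_finite_14178 (r := Dd H (R n)) (s := H) (Dd_finite_14178 hf (hfin n)) hf c).subset
    intro y hy
    obtain ⟨_, _, z, hyz, hz⟩ := hall y hy
    exact ⟨z, hz, hs _ _ hyz⟩
  · obtain ⟨n, hn⟩ := cov x
    have hclaim : ∀ a b, Dd H (R n) x a → H a b → ¬ S b → Dd H (R n) x b := by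
      intro a b ha hab hSb
      by_cases hUb : U H (R n) (C n) b
      · obtain ⟨c', hCc', hcb⟩ := hUb
        by_cases hcc : x = c'
        · subst hcc
          exact hcb
        · exact absurd ⟨a, b, Dd_Q_14178 ha, h5 hab, Dd_Q_14178 hcb⟩ (hC n x c' hn hCc' hcc)
      · exact absurd ⟨n, hUb, a, hs _ _ hab, x, hn, ha⟩ hSb
    have hxx : Dd H (R n) x x := ⟨x, Or.inl rfl, B_refl_14178 hr 2 x⟩
    have hall : ∀ y, TransGen (fun a b => H a b ∧ (S a ↔ S b)) x y → ¬ S y ∧
        Dd H (R n) x y := by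
      intro y hy
      induction hy with
      | single h =>
        have hSb := fun hb => hx (h.2.2 hb)
        exact ⟨hSb, hclaim _ _ hxx h.1 hSb⟩
      | tail _ h ih =>
        have hSb := fun hb => ih.1 (h.2.2 hb)
        exact ⟨hSb, hclaim _ _ ih.2 h.1 hSb⟩
    exact (Dd_finite_14178 hf (hfin n) x).subset fun y hy => (hall y hy).2

end CohenE.Toast
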