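import Pool.Agent.Helper212.CohenE.Machine
import Pool.Agent.Helper212.CohenE.Enum
import Pool.Agent.Helper212.CohenE.Toast

/-! The splitting of a coded locally finite relation into two sets with finite components. -/

namespace CohenE

open ZFSet

set_option linter.unusedSectionVars false

variable {M : Set ZFSet.{0}} [hM : Fact (CTM M)]
variable {Γ Δ : Type 1} [Ctx M Γ] [Ctx M Δ]

/-- the sequence defined by recursion -/
noncomputable def rseq (Φ : M → M → M) (a : M) : ℕ → M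
  | 0 => a
  | n + 1 => Φ (mnat n) (rseq Φ a n)

/-- definable recursion -/
theorem D.rec {Φ : Γ → M → M → M} (hΦ : F M (fun p : (Γ × M) × M => Φ p.1.1 p.1.2 p.2))
    {a : Γ → M} (ha : F M a) :
    D M (fun p : (Γ × M) × M => ∃ n, p.1.2 = mnat n ∧ p.2 = rseq (Φ p.1.1) (a p.1.1) n) := by
  have key : ∀ p : (Γ × M) × M, (∃ n, p.1.2 = mnat n ∧ p.2 = rseq (Φ p.1.1) (a p.1.1) n) ↔
      ((p.1.2 : ZFSet.{0}) ∈ ((om : M) : ZFSet.{0}) ∧ ∃ f : M,
        (mpair p.1.2 p.2 : ZFSet.{0}) ∈ (f : ZFSet.{0}) ∧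
        ∀ k b : M, (mpair k b : ZFSet.{0}) ∈ (f : ZFSet.{0}) →
          ((k = memp ∧ b = a p.1.1) ∨ ∃ k' b' : M, k = msucc k' ∧
            (mpair k' b' : ZFSet.{0}) ∈ (f : ZFSet.{0}) ∧ b = Φ p.1.1 k' b')) := by
    rintro ⟨⟨γ, i⟩, b⟩
    constructor
    · rintro ⟨n, hn, hb⟩
      simp only at hn hb
      subst hn hb
      refine ⟨(mem_om _).2 ⟨n, rfl⟩, ?_⟩
      have : ∀ n : ℕ, ∃ f : M, ∀ k b : M, (mpair k b : ZFSet.{0}) ∈ (f : ZFSet.{0}) ↔
          ∃ j, j ≤ n ∧ k = mnat j ∧ b = rseq (Φ γ) (a γ) j := by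
        intro n
        induction n with
        | zero =>
          refine ⟨⟨{((mpair memp (a γ) : M) : ZFSet.{0})}, single_memM (mpair memp (a γ)).2⟩, ?_⟩
          intro k b
          rw [ZFSet.mem_singleton, ← Subtype.ext_iff, mpair_inj]
          constructor
          · rintro ⟨rfl, rfl⟩
            exact ⟨0, le_rfl, rfl, rfl⟩
          · rintro ⟨j, hj, h1, h2⟩
            obtain rfl : j = 0 := by omega
            exact ⟨h1, h2⟩
        | succ n ih =>
          obtain ⟨f, hf⟩ := ih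
          refine ⟨⟨insert ((mpair (mnat (n + 1)) (rseq (Φ γ) (a γ) (n + 1)) : M) : ZFSet.{0})
            (f : ZFSet.{0}), insert_memM (mpair (mnat (n + 1)) (rseq (Φ γ) (a γ) (n + 1)) : M).2
              f.2⟩, ?_⟩
          intro k b
          rw [ZFSet.mem_insert_iff, ← Subtype.ext_iff, mpair_inj, hf]
          constructor
          · rintro (⟨h1, h2⟩ | ⟨j, hj, h1, h2⟩)
            · exact ⟨n + 1, le_rfl, h1, h2⟩
            · exact ⟨j, by omega, h1, h2⟩
          · rintro ⟨j, hj, h1, h2⟩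
            rcases Nat.lt_or_ge n j with h | h
            · obtain rfl : j = n + 1 := by omega
              exact Or.inl ⟨h1, h2⟩
            · exact Or.inr ⟨j, h, h1, h2⟩
      obtain ⟨f, hf⟩ := this n
      refine ⟨f, (hf _ _).2 ⟨n, le_rfl, rfl, rfl⟩, ?_⟩
      intro k b hkb
      obtain ⟨j, hj, h1, h2⟩ := (hf _ _).1 hkb
      cases j with
      | zero => exact Or.inl ⟨h1, h2⟩
      | succ j =>
        exact Or.inr ⟨mnat j, rseq (Φ γ) (a γ) j, h1, (hf _ _).2 ⟨j, by omega, rfl, rfl⟩, h2⟩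
    · rintro ⟨hi, f, hf, hf'⟩
      obtain ⟨n, hn⟩ := (mem_om _).1 hi
      simp only at hn
      subst hn
      refine ⟨n, rfl, ?_⟩
      have : ∀ n : ℕ, ∀ b : M, (mpair (mnat n) b : ZFSet.{0}) ∈ (f : ZFSet.{0}) →
          b = rseq (Φ γ) (a γ) n := by
        intro n
        induction n with
        | zero =>
          intro b hb
          rcases hf' _ _ hb with ⟨-, h⟩ | ⟨k', b', h, -, -⟩
          · exact h
          · exfalso
            have h1 := Subtype.ext_iff.1 h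
            change (∅ : ZFSet.{0}) = insert (k' : ZFSet.{0}) (k' : ZFSet.{0}) at h1
            exact ZFSet.notMem_empty (k' : ZFSet.{0}) (h1 ▸ ZFSet.mem_insert _ _)
        | succ n ih =>
          intro b hb
          rcases hf' _ _ hb with ⟨h, -⟩ | ⟨k', b', h, h1, h2⟩
          · exact absurd (mnat_inj (M := M) (h.trans rfl : mnat (n + 1) = mnat 0)) (by omega)
          · have hk : k' = mnat n := by
              have hk1 : isN k' := by
                have h3 := (isN_iff (mnat (n + 1) : M)).2 ⟨n + 1, rfl⟩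
                have hmem : (k' : ZFSet.{0}) ∈ ((mnat (n + 1) : M) : ZFSet.{0}) := by
                  rw [h]; exact ZFSet.mem_insert _ _
                obtain ⟨m, hm, e⟩ := (mem_nat (n + 1) _).1 hmem
                exact (isN_iff _).2 ⟨m, Subtype.ext e⟩
              obtain ⟨m, rfl⟩ := (isN_iff _).1 hk1
              have := mnat_inj (M := M) (h.trans (mnat_succ m).symm)
              rw [Nat.succ_injective this]
            subst hk
            rw [h2, ih b' h1]
            rfl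
      exact this n _ hf
  refine D.congr ?_ key
  refine D.and (D.mem (F.var 1) (F.const _)) (D.ex (D.and (D.mem (F.pair (F.var 2) (F.var 1))
    (F.var 0)) (D.all (D.all (D.imp (D.mem (F.pair (F.var 1) (F.var 0)) (F.var 2)) (D.or
      (D.and (D.eq (F.var 1) (F.const _)) (D.eq (F.var 0) ha.w.w.w.w.w))
      (D.ex (D.ex (D.and (D.eq (F.var 3) (F.succ (F.var 1))) (D.and
        (D.mem (F.pair (F.var 1) (F.var 0)) (F.var 4)) (D.eq (F.var 2) ?_)))))))))))
  exact F.comp hΦ (m := fun p : (((((((Γ × M) × M) × M) × M) × M) × M) × M) =>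
    ((p.1.1.1.1.1.1.1, p.1.2), p.2)) (CM.pair (CM.pair (CM.id.w.w.w.w.w.w.w) F.snd.w) F.snd)

section Level

open Toast

variable {H : XM M → XM M → Prop} (hH : CR M (fun _ : M => H))

include hH

theorem cr_H : CR M (fun _ : Γ => H) :=
  CR.cm hH (m := fun _ : Γ => (memp : M)) (CM.of (F.const _))

theorem cr_B (k : ℕ) : CR M (fun _ : Γ => B H k) := by
  induction k with
  | zero => exact CR.eq
  | succ k ih => exact CR.comp ih (cr_H hH)

variable {f : Γ → M} (hf : F M f)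

include hf

theorem cr_K : CR M (fun γ => K H (opn (f γ))) := by
  refine CR.transGen (R := fun γ x y => opn (f γ) x ∧ opn (f γ) y ∧ Toast.B H 5 x y) ?_
  refine (CR.andL (CR.andR (cr_B hH 5) (FF.opn hf)) (FF.opn hf)).congr fun γ x y => ?_
  tauto

theorem cr_T : CR M (fun γ => T H (opn (f γ))) :=
  CR.or CR.eq (CR.comp (cr_B hH 5) (cr_K hH hf))

variable (hs : ∀ x y, H x y → H y x)

include hs

theorem cr_Tinv : CR M (fun γ x y => T H (opn (f γ)) y x) := by
  refine (CR.or CR.eq (CR.comp (cr_K hH hf) (cr_B hH 5))).congr fun γ x y => ?_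
  constructor
  · rintro (rfl | ⟨u, h1, h2⟩)
    · exact Or.inl rfl
    · exact Or.inr ⟨u, K_symm hs _ _ _ h2, B_symm hs _ _ _ h1⟩
  · rintro (rfl | ⟨u, h1, h2⟩)
    · exact Or.inl rfl
    · exact Or.inr ⟨u, B_symm hs _ _ _ h2, K_symm hs _ _ _ h1⟩

theorem cr_Dd : CR M (fun γ => Dd H (opn (f γ))) :=
  CR.comp (cr_T hH hf) (cr_B hH 2)

theorem cr_Ddinv : CR M (fun γ x y => Toast.Dd H (opn (f γ)) y x) := by
  refine (CR.comp (cr_B hH 2) (cr_Tinv hH hf hs)).congr fun γ x y => ?_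
  constructor
  · rintro ⟨z, h1, h2⟩
    exact ⟨z, B_symm hs _ _ _ h2, h1⟩
  · rintro ⟨z, h1, h2⟩
    exact ⟨z, h2, B_symm hs _ _ _ h1⟩

theorem cr_Q : CR M (fun γ => Q H (opn (f γ))) :=
  CR.comp (cr_Dd hH hf hs) (cr_T hH hf)

theorem cr_Qinv : CR M (fun γ x y => Toast.Q H (opn (f γ)) y x) := by
  refine (CR.comp (cr_Tinv hH hf hs) (cr_Ddinv hH hf hs)).congr fun γ x y => ?_
  constructor
  · rintro ⟨z, h1, h2⟩
    exact ⟨z, h2, h1⟩
  · rintro ⟨z, h1, h2⟩
    exact ⟨z, h2, h1⟩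

theorem cr_Conf : CR M (fun γ => Conf H (opn (f γ))) := by
  refine (CR.comp (CR.comp (cr_Q hH hf hs) (cr_B hH 5)) (cr_Qinv hH hf hs)).congr fun γ x y => ?_
  constructor
  · rintro ⟨p, q, h1, h2, h3⟩
    exact ⟨q, ⟨p, h1, h2⟩, h3⟩
  · rintro ⟨q, ⟨p, h1, h2⟩, h3⟩
    exact ⟨p, q, h1, h2, h3⟩

variable {g : Γ → M} (hg : F M g)

include hg

theorem ff_U : FF M (fun γ x => U H (opn (f γ)) (Seg (g γ)) x) := by
  refine (FF.exY (cr_Ddinv hH hf hs) (P := fun γ c => Seg (g γ) c) (FF.seg hg)).congr fun γ x => ?_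
  constructor
  · rintro ⟨c, h1, h2⟩; exact ⟨c, h2, h1⟩
  · rintro ⟨c, h1, h2⟩; exact ⟨c, h2, h1⟩

/-- `x` has a conflict inside `[s]` -/
theorem ff_bad : FF M (fun γ x => ∃ y, Seg (g γ) y ∧ Toast.Conf H (opn (f γ)) x y ∧ x ≠ y) := by
  refine (FF.ex (P := fun γ u x => ¬ Seg u x ∧ ∃ y, Toast.Conf H (opn (f γ)) x y ∧
    (Seg (g γ) y ∧ Seg u y)) (FF.and (FF.not (FF.seg F.snd))
      (FF.exY (R := fun p : Γ × M => Toast.Conf H (opn (f p.1))) (cr_Conf hH hf hs).w
        (FF.and (FF.seg hg.w) (FF.seg F.snd))))).congr fun γ x => ?_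
  constructor
  · rintro ⟨y, h1, h2, h3⟩
    have : ∃ n, x.1 n ≠ y.1 n := by
      by_contra hc
      push Not at hc
      exact h3 (Subtype.ext (funext hc))
    obtain ⟨n, hn⟩ := this
    refine ⟨sg y (n + 1), ?_, y, h2, h1, seg_sg _ _⟩
    rintro ⟨m, hm⟩
    change seg y.1 (n + 1) = seg x.1 m at hm
    rw [seg_eq] at hm
    exact hn (hm.2 n (by omega)).symm
  · rintro ⟨u, h1, y, h2, h3, h4⟩
    refine ⟨y, h3, h2, ?_⟩
    rintro rfl
    exact h1 h4

end Level

end CohenE
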