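import Pool.Agent.Helper212.CohenE.Split
import Pool.Agent.Helper212.CohenE.BorelE
import Pool.Agent.Helper212.CohenE.Index2

/-! Coded relations between mutually constructible reals; the increasing sequence of finite
equivalence relations. -/

namespace CohenE

open ZFSet

set_option linter.unusedSectionVars false

variable {M : Set ZFSet.{0}} [hM : Fact (CTM M)]
variable {Γ Δ : Type 1} [Ctx M Γ] [Ctx M Δ]

/-- `y` is coded from `x` by `c` and `x` from `y` by `d`. -/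
def J (c d : M) (x y : XM M) : Prop :=
  (∀ t : M, Seg t y ↔ ∃ s : M, Seg s x ∧ (mpair s t : ZFSet.{0}) ∈ (c : ZFSet.{0})) ∧
  (∀ s : M, Seg s x ↔ ∃ t : M, Seg t y ∧ (mpair t s : ZFSet.{0}) ∈ (d : ZFSet.{0}))

theorem J_symm (c d : M) (x y : XM M) : J c d x y ↔ J d c y x := by
  constructor
  · rintro ⟨h1, h2⟩; exact ⟨h2, h1⟩
  · rintro ⟨h1, h2⟩; exact ⟨h2, h1⟩

theorem seg_ext {x y : XM M} (h : ∀ t : M, Seg t x ↔ Seg t y) : x = y := by
  apply Subtype.ext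
  funext n
  obtain ⟨m, hm⟩ := (h (sg x (n + 1))).1 (seg_sg _ _)
  change seg x.1 (n + 1) = seg y.1 m at hm
  rw [seg_eq] at hm
  exact hm.2 n (by omega)

theorem J_unique {c d : M} {x y z : XM M} (h : J c d x y) (h' : J c d x z) : y = z :=
  seg_ext fun t => (h.1 t).trans (h'.1 t).symm

/-- `t` belongs to the filter computed from `x` by `c` -/
def Ac (c : M) (x : XM M) (t : M) : Prop := ∃ s : M, Seg s x ∧ (mpair s t : ZFSet.{0}) ∈ (c : ZFSet.{0})

/-- the filter computed from `x` by `c` is generic -/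
def Gc (c : M) (x : XM M) : Prop :=
  (∀ t : M, Ac c x t → (t : ZFSet.{0}) ∈ ((cnd : M) : ZFSet.{0})) ∧
  (∀ t t' : M, (t : ZFSet.{0}) ∈ ((cnd : M) : ZFSet.{0}) → (t : ZFSet.{0}) ⊆ (t' : ZFSet.{0}) →
    Ac c x t' → Ac c x t) ∧
  (∀ t t' : M, Ac c x t → Ac c x t' → ∃ u : M, Ac c x u ∧ (t : ZFSet.{0}) ⊆ (u : ZFSet.{0}) ∧
    (t' : ZFSet.{0}) ⊆ (u : ZFSet.{0})) ∧
  (∀ A : M, ((∀ s : M, (s : ZFSet.{0}) ∈ (A : ZFSet.{0}) →
      (s : ZFSet.{0}) ∈ ((cnd : M) : ZFSet.{0})) ∧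
    (∀ s : M, (s : ZFSet.{0}) ∈ ((cnd : M) : ZFSet.{0}) → ∃ t : M,
      (t : ZFSet.{0}) ∈ (A : ZFSet.{0}) ∧ (s : ZFSet.{0}) ⊆ (t : ZFSet.{0}))) →
    ∃ t : M, (t : ZFSet.{0}) ∈ (A : ZFSet.{0}) ∧ Ac c x t)

theorem ff_Ac (c : M) {f : Γ → M} (hf : F M f) : FF M (fun γ x => Ac c x (f γ)) :=
  FF.ex (FF.and (FF.seg F.snd) (FF.const (D.mem (F.pair F.snd hf.w) (F.const _))))

theorem ff_Gc (c : M) : FF M (fun (_ : Γ) x => Gc c x) := by
  refine FF.and (FF.all (FF.imp (ff_Ac c F.snd) (FF.const (D.mem F.snd (F.const _))))) (FF.and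
    (FF.all (FF.all (FF.imp (FF.const (D.mem F.snd.w (F.const _))) (FF.imp
      (FF.const (D.subset F.snd.w F.snd)) (FF.imp (ff_Ac c F.snd) (ff_Ac c F.snd.w)))))) (FF.and
    (FF.all (FF.all (FF.imp (ff_Ac c F.snd.w) (FF.imp (ff_Ac c F.snd) (FF.ex (FF.and
      (ff_Ac c F.snd) (FF.and (FF.const (D.subset F.snd.w.w F.snd))
        (FF.const (D.subset F.snd.w F.snd)))))))))
    (FF.all (FF.imp (FF.const ?_) (FF.ex (FF.and (FF.const (D.mem F.snd F.snd.w))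
      (ff_Ac c F.snd)))))))
  exact D.and (D.all (D.imp (D.mem F.snd F.snd.w) (D.mem F.snd (F.const _))))
    (D.all (D.imp (D.mem F.snd (F.const _)) (D.ex (D.and (D.mem F.snd F.snd.w.w)
      (D.subset F.snd.w F.snd)))))

theorem Gc_real {c : M} {x : XM M} (h : Gc c x) : ∃ y : XM M, ∀ t : M, Seg t y ↔ Ac c x t := by
  obtain ⟨h1, h2, h3, h4⟩ := h
  obtain ⟨y, hy, hyt⟩ := filter_real M (fun s hs => by
      have hD : D M (fun p : M × M => ¬ (p.2 : ZFSet.{0}) ⊆ (p.1 : ZFSet.{0})) :=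
        D.not (D.subset (F.var 0) (F.var 1))
      obtain ⟨A, hA⟩ := exists_sep (Q := fun (s : M) t => ¬ (t : ZFSet.{0}) ⊆ (s : ZFSet.{0}))
        hD ⟨s, hs.memM⟩ cnd
      refine ⟨A, A.2, ⟨fun t ht => ?_, fun t ht => ?_⟩, fun t ht => ?_⟩
      · have ht' : t ∈ M := hM.out.trans _ A.2 _ ht
        exact (mem_cnd _).1 ((hA ⟨t, ht'⟩).1 ht).1
      · obtain ⟨z, n, rfl⟩ := ht
        obtain ⟨u, m, rfl⟩ := hs
        refine ⟨seg z (n + m + 1), (hA (mseg z (n + m + 1))).2 ⟨(mem_cnd _).2 ⟨z, _, rfl⟩, ?_⟩, ?_⟩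
        · show ¬ seg z (n + m + 1) ⊆ seg u m
          rw [seg_subset]
          rintro ⟨h, -⟩
          omega
        · rw [seg_subset]
          exact ⟨by omega, fun _ _ => rfl⟩
      · have ht' : t ∈ M := hM.out.trans _ A.2 _ ht
        exact ((hA ⟨t, ht'⟩).1 ht).2)
    (fun t => ∃ h : t ∈ M, Ac c x ⟨t, h⟩)
    (by
      rintro s ⟨hs, hs'⟩
      exact (mem_cnd _).1 (h1 _ hs'))
    (by
      rintro s t hs ⟨ht, ht'⟩ hst
      exact ⟨hs.memM, h2 ⟨s, hs.memM⟩ ⟨t, ht⟩ ((mem_cnd _).2 hs) hst ht'⟩)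
    (by
      rintro s t ⟨hs, hs'⟩ ⟨ht, ht'⟩
      obtain ⟨u, hu, h5, h6⟩ := h3 _ _ hs' ht'
      exact ⟨u, ⟨u.2, hu⟩, h5, h6⟩)
    (by
      rintro A hA ⟨hd1, hd2⟩
      obtain ⟨t, ht, ht'⟩ := h4 ⟨A, hA⟩ ⟨fun s hs => (mem_cnd _).2 (hd1 s hs), fun s hs => by
        obtain ⟨t, ht, hst⟩ := hd2 s ((mem_cnd _).1 hs)
        exact ⟨⟨t, hM.out.trans _ hA _ ht⟩, ht, hst⟩⟩
      exact ⟨t, ht, t.2, ht'⟩)
  refine ⟨⟨y, hy⟩, fun t => ?_⟩
  constructor
  · rintro ⟨n, hn⟩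
    obtain ⟨_, h'⟩ := (hyt t).2 ⟨n, hn⟩
    exact h'
  · intro h'
    obtain ⟨n, hn⟩ := (hyt t).1 ⟨t.2, h'⟩
    exact ⟨n, hn⟩

theorem cr_J (c d : M) : CR M (fun _ : Γ => J c d) := by
  have h1 : FF M (fun (p : Γ × M) x => Gc c x ∧ (∀ s : M, Seg s x ↔ ∃ t' : M, Ac c x t' ∧
      (mpair t' s : ZFSet.{0}) ∈ (d : ZFSet.{0})) ∧ Ac c x p.2) :=
    FF.and (ff_Gc c) (FF.and (FF.all (FF.iff (FF.seg F.snd) (FF.ex (FF.and (ff_Ac c F.snd)
      (FF.const (D.mem (F.pair F.snd F.snd.w) (F.const _))))))) (ff_Ac c F.snd))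
  refine h1.congr fun p x => ?_
  constructor
  · rintro ⟨y, ⟨hy, hy'⟩, hty⟩
    have hA : ∀ t, Ac c x t ↔ Seg t y := fun t => (hy t).symm
    refine ⟨⟨?_, ?_, ?_, ?_⟩, ?_, ?_⟩
    · intro t ht
      exact ((hA t).1 ht).mem_cnd
    · intro t t' ht htt' ht'
      rw [hA] at ht' ⊢
      exact ht'.mono ((mem_cnd _).1 ht) htt'
    · intro t t' ht ht'
      rw [hA] at ht ht'
      obtain ⟨u, hu, h5, h6⟩ := ht.common ht'
      exact ⟨u, (hA u).2 hu, h5, h6⟩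
    · rintro A ⟨hA1, hA2⟩
      obtain ⟨s, hs, hsy⟩ := meet (A := A) (fun s hs => (mem_cnd _).1 (hA1 s hs))
        (fun s hs => hA2 s ((mem_cnd _).2 hs)) y
      exact ⟨s, hs, (hA s).2 hsy⟩
    · intro s
      rw [hy']
      exact exists_congr fun t => and_congr (hA t).symm Iff.rfl
    · exact (hA _).2 hty
  · rintro ⟨hG, hs, ht⟩
    obtain ⟨y, hy⟩ := Gc_real hG
    refine ⟨y, ⟨fun t => hy t, fun s => ?_⟩, (hy _).2 ht⟩
    rw [hs]
    exact exists_congr fun t => and_congr (hy t).symm Iff.rfl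

/-- the finitely many relations coded by the first `n` pairs -/
def N (q : ℕ → M × M) : ℕ → XM M → XM M → Prop
  | 0 => fun x y => x = y
  | n + 1 => fun x y => N q n x y ∨ (J (q n).1 (q n).2 x y ∨ J (q n).2 (q n).1 x y)

theorem cr_N (q : ℕ → M × M) (n : ℕ) : CR M (fun _ : Γ => N q n) := by
  induction n with
  | zero => exact CR.eq
  | succ n ih => exact CR.or ih (CR.or (cr_J _ _) (cr_J _ _))

theorem N_refl (q : ℕ → M × M) (n : ℕ) (x : XM M) : N q n x x := by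
  induction n with
  | zero => rfl
  | succ n ih => exact Or.inl ih

theorem N_symm (q : ℕ → M × M) (n : ℕ) : ∀ x y : XM M, N q n x y → N q n y x := by
  induction n with
  | zero => intro x y h; exact h.symm
  | succ n ih =>
    rintro x y (h | h | h)
    · exact Or.inl (ih _ _ h)
    · exact Or.inr (Or.inr ((J_symm _ _ _ _).1 h))
    · exact Or.inr (Or.inl ((J_symm _ _ _ _).1 h))

theorem N_finite (q : ℕ → M × M) (n : ℕ) (x : XM M) : {y | N q n x y}.Finite := by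
  induction n with
  | zero => exact (Set.finite_singleton x).subset fun y hy => hy.symm
  | succ n ih =>
    have h1 : ∀ c d : M, {y | J c d x y}.Finite := by
      intro c d
      apply Set.Subsingleton.finite
      intro y hy z hz
      exact J_unique hy hz
    exact (ih.union ((h1 _ _).union (h1 _ _))).subset fun y hy => hy

theorem N_mono (q : ℕ → M × M) {n m : ℕ} (h : n ≤ m) {x y : XM M} (hxy : N q n x y) :
    N q m x y := by
  induction h with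
  | refl => exact hxy
  | step _ ih => exact Or.inl ih

/-- one level -/
theorem level_step {F0 N0 : XM M → XM M → Prop} (hF : CR M (fun _ : M => F0))
    (hFe : Equivalence F0) (hFf : ∀ x, {y | F0 x y}.Finite)
    (hN : CR M (fun _ : M => N0)) (hNr : ∀ x, N0 x x) (hNs : ∀ x y, N0 x y → N0 y x)
    (hNf : ∀ x, {y | N0 x y}.Finite) :
    ∃ F1 : XM M → XM M → Prop, CR M (fun _ : M => F1) ∧ Equivalence F1 ∧
      (∀ x, {y | F1 x y}.Finite) ∧ (∀ x y, F0 x y → F1 x y) ∧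
      ∀ x y z, N0 x y → N0 y z → N0 x z → F1 x y ∨ F1 y z ∨ F1 x z := by
  set H : XM M → XM M → Prop := fun x y => ∃ a, F0 x a ∧ ∃ b, N0 a b ∧ F0 b y with hHdef
  have hH : CR M (fun _ : M => H) := CR.comp hF (CR.comp hN hF)
  have hs : ∀ x y, H x y → H y x := by
    rintro x y ⟨a, h1, b, h2, h3⟩
    exact ⟨b, hFe.symm h3, a, hNs _ _ h2, hFe.symm h1⟩
  have hr : ∀ x, H x x := fun x => ⟨x, hFe.refl x, x, hNr x, hFe.refl x⟩
  have hf : ∀ x, {y | H x y}.Finite := by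
    intro x
    refine ((hFf x).biUnion fun a _ => (hNf a).biUnion fun b _ => hFf b).subset ?_
    rintro y ⟨a, h1, b, h2, h3⟩
    simp only [Set.mem_iUnion]
    exact ⟨a, h1, b, h2, h3⟩
  obtain ⟨S, hS, hSinv, hSf⟩ := exists_split hH hs hr hf
  set R : XM M → XM M → Prop := fun a b => H a b ∧ (S a ↔ S b) with hR
  have hRs : ∀ x y, R x y → R y x := fun x y h => ⟨hs _ _ h.1, h.2.symm⟩
  refine ⟨Relation.TransGen R, ?_, ⟨?_, ?_, ?_⟩, hSf, ?_, ?_⟩
  · refine CR.transGen (R := fun _ : M => R) ?_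
    refine (CR.or (CR.andL (CR.andR hH hS) hS) (CR.andL (CR.andR hH hS.not) hS.not)).congr
      fun _ x y => ?_
    simp only [hR]
    by_cases h1 : S x <;> by_cases h2 : S y <;> simp [h1, h2]
  · exact fun x => .single ⟨hr x, Iff.rfl⟩
  · intro x y h
    induction h with
    | single h => exact .single (hRs _ _ h)
    | tail _ h ih => exact .head (hRs _ _ h) ih
  · intro x y z h h'
    exact h.trans h'
  · intro x y h
    refine .single ⟨⟨x, hFe.refl x, x, hNr x, h⟩, hSinv F0 ?_ (fun _ _ h => hFe.symm h) x y h⟩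
    rintro x y z ⟨a, h1, b, h2, h3⟩ h4
    exact ⟨a, h1, b, h2, hFe.trans h3 h4⟩
  · intro x y z h1 h2 h3
    have hn : ∀ a b, N0 a b → (S a ↔ S b) → Relation.TransGen R a b := fun a b h h' =>
      .single ⟨⟨a, hFe.refl a, b, h, hFe.refl b⟩, h'⟩
    by_cases hx : S x <;> by_cases hy : S y <;> by_cases hz : S z
    · exact Or.inl (hn _ _ h1 (by tauto))
    · exact Or.inl (hn _ _ h1 (by tauto))
    · exact Or.inr (Or.inr (hn _ _ h3 (by tauto)))
    · exact Or.inr (Or.inl (hn _ _ h2 (by tauto)))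
    · exact Or.inr (Or.inl (hn _ _ h2 (by tauto)))
    · exact Or.inr (Or.inr (hn _ _ h3 (by tauto)))
    · exact Or.inl (hn _ _ h1 (by tauto))
    · exact Or.inl (hn _ _ h1 (by tauto))

/-- the increasing sequence -/
theorem exists_levels (q : ℕ → M × M) :
    ∃ F : ℕ → XM M → XM M → Prop, (∀ n, CR M (fun _ : M => F n)) ∧ (∀ n, Equivalence (F n)) ∧
      (∀ n x, {y | F n x y}.Finite) ∧ (∀ n x y, F n x y → F (n + 1) x y) ∧
      ∀ n x y z, N q n x y → N q n y z → N q n x z →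
        F (n + 1) x y ∨ F (n + 1) y z ∨ F (n + 1) x z := by
  let St := {F0 : XM M → XM M → Prop // CR M (fun _ : M => F0) ∧ Equivalence F0 ∧
    ∀ x, {y | F0 x y}.Finite}
  have hst : ∀ (n : ℕ) (F0 : St), ∃ F1 : St, (∀ x y, F0.1 x y → F1.1 x y) ∧
      ∀ x y z, N q n x y → N q n y z → N q n x z → F1.1 x y ∨ F1.1 y z ∨ F1.1 x z := by
    rintro n ⟨F0, h1, h2, h3⟩
    obtain ⟨F1, k1, k2, k3, k4, k5⟩ := level_step h1 h2 h3 (cr_N q n) (N_refl q n) (N_symm q n)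
      (N_finite q n)
    exact ⟨⟨F1, k1, k2, k3⟩, k4, k5⟩
  choose nx hnx1 hnx2 using hst
  let F0 : St := ⟨fun x y => x = y, CR.eq, ⟨fun _ => rfl, fun h => h.symm, fun h h' => h.trans h'⟩,
    fun x => (Set.finite_singleton x).subset fun y hy => hy.symm⟩
  let F : ℕ → St := fun n => Nat.rec F0 (fun n G => nx n G) n
  exact ⟨fun n => (F n).1, fun n => (F n).2.1, fun n => (F n).2.2.1, fun n => (F n).2.2.2,
    fun n x y h => hnx1 n (F n) x y h, fun n x y z h1 h2 h3 => hnx2 n (F n) x y z h1 h2 h3⟩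

end CohenE
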