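import Pool.Agent.Helper212.CohenE.Sets

/-! The forcing machine: predicates of Cohen reals with definable forcing relation. -/

namespace CohenE

open ZFSet

set_option linter.unusedSectionVars false

variable {M : Set ZFSet.{0}} [hM : Fact (CTM M)]
variable {Γ Δ : Type 1} [Ctx M Γ] [Ctx M Δ]

/-- The Cohen reals over `M`. -/
abbrev XM (M : Set ZFSet.{0}) : Type := {x : ℕ → Bool // Generic M x}

/-- `s` is an initial segment of `x`. -/
def Seg (s : M) (x : XM M) : Prop := ∃ n, (s : ZFSet.{0}) = seg x.1 n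

theorem Seg.isCond {s : M} {x : XM M} (h : Seg s x) : IsCond (s : ZFSet.{0}) := by
  obtain ⟨n, h⟩ := h
  exact ⟨x.1, n, h⟩

theorem Seg.mem_cnd {s : M} {x : XM M} (h : Seg s x) : (s : ZFSet.{0}) ∈ ((cnd : M) : ZFSet.{0}) :=
  (CohenE.mem_cnd s).2 h.isCond

theorem Seg.compat {s t : M} {x : XM M} (h : Seg s x) (h' : Seg t x) :
    (s : ZFSet.{0}) ⊆ (t : ZFSet.{0}) ∨ (t : ZFSet.{0}) ⊆ (s : ZFSet.{0}) := by
  obtain ⟨n, h⟩ := h
  obtain ⟨m, h'⟩ := h'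
  rw [h, h', seg_subset, seg_subset]
  rcases le_total n m with hnm | hnm
  · exact Or.inl ⟨hnm, fun _ _ => rfl⟩
  · exact Or.inr ⟨hnm, fun _ _ => rfl⟩

theorem Seg.mono {s t : M} {x : XM M} (hs : IsCond (s : ZFSet.{0}))
    (hst : (s : ZFSet.{0}) ⊆ (t : ZFSet.{0})) (h : Seg t x) : Seg s x := by
  obtain ⟨m, h⟩ := h
  obtain ⟨z, n, hs⟩ := hs
  rw [h, hs, seg_subset] at hst
  exact ⟨n, by rw [hs, seg_eq]; exact ⟨rfl, hst.2⟩⟩

theorem exists_seg {s : M} (hs : IsCond (s : ZFSet.{0})) : ∃ x : XM M, Seg s x := by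
  obtain ⟨y, n, hy, h⟩ := exists_generic M hM.out.countable s hs
  exact ⟨⟨y, hy⟩, n, h⟩

/-- the `n`-th initial segment -/
noncomputable def sg (x : XM M) (n : ℕ) : M := mseg x.1 n

theorem seg_sg (x : XM M) (n : ℕ) : Seg (sg x n) x := ⟨n, rfl⟩

/-- common extension of two initial segments -/
theorem Seg.common {s t : M} {x : XM M} (h : Seg s x) (h' : Seg t x) :
    ∃ u : M, Seg u x ∧ (s : ZFSet.{0}) ⊆ (u : ZFSet.{0}) ∧ (t : ZFSet.{0}) ⊆ (u : ZFSet.{0}) := by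
  rcases h.compat h' with h1 | h1
  · exact ⟨t, h', h1, fun _ h => h⟩
  · exact ⟨s, h, fun _ h => h, h1⟩

theorem meet {A : M} (h1 : ∀ s : M, (s : ZFSet.{0}) ∈ (A : ZFSet.{0}) → IsCond (s : ZFSet.{0}))
    (h2 : ∀ s : M, IsCond (s : ZFSet.{0}) → ∃ t : M, (t : ZFSet.{0}) ∈ (A : ZFSet.{0}) ∧
      (s : ZFSet.{0}) ⊆ (t : ZFSet.{0})) (x : XM M) :
    ∃ s : M, (s : ZFSet.{0}) ∈ (A : ZFSet.{0}) ∧ Seg s x := by
  obtain ⟨n, hn⟩ := x.2 A A.2 ⟨fun s hs => h1 ⟨s, hM.out.trans _ A.2 _ hs⟩ hs, fun s hs => by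
    obtain ⟨t, ht, hst⟩ := h2 ⟨s, hs.memM⟩ hs
    exact ⟨t, ht, hst⟩⟩
  exact ⟨sg x n, hn, seg_sg x n⟩

/-- `s` forces `P` -/
def Frc (P : XM M → Prop) (s : M) : Prop := ∀ x, Seg s x → P x

/-- `P` is open -/
def Op (P : XM M → Prop) : Prop := ∀ x, P x → ∃ s : M, Seg s x ∧ Frc P s

theorem Op.ext {P : XM M → Prop} (h : Op P) {x : XM M} (hx : P x) {t : M} (ht : Seg t x) :
    ∃ s : M, Seg s x ∧ (t : ZFSet.{0}) ⊆ (s : ZFSet.{0}) ∧ Frc P s := by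
  obtain ⟨s, hs, hP⟩ := h x hx
  obtain ⟨u, hu, h1, h2⟩ := hs.common ht
  exact ⟨u, hu, h2, fun y hy => hP y (hy.mono hs.isCond h1)⟩

/-- Predicates of Cohen reals, with parameters in a context, that are decided by initial segments
and whose forcing relation is definable over `M`. -/
structure FF (M : Set ZFSet.{0}) {Γ : Type 1} [Ctx M Γ] (P : Γ → XM M → Prop) : Prop where
  op : ∀ γ, Op (P γ)
  cl : ∀ γ, Op (fun x => ¬ P γ x)
  df : D M (fun p : Γ × M => Frc (P p.1) p.2)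

theorem FF.congr {P Q : Γ → XM M → Prop} (h : FF M P) (h' : ∀ γ x, Q γ x ↔ P γ x) : FF M Q := by
  have : Q = P := by
    funext γ x
    exact propext (h' γ x)
  rw [this]; exact h

theorem FF.comp {P : Δ → XM M → Prop} (h : FF M P) {m : Γ → Δ} (hm : CM M m) :
    FF M (fun γ x => P (m γ) x) :=
  ⟨fun γ => h.op (m γ), fun γ => h.cl (m γ),
    D.comp h.df (m := fun p : Γ × M => (m p.1, p.2)) (CM.pair hm.w F.snd)⟩

theorem frc_not {P : XM M → Prop} (hP : Op P) (s : M) : Frc (fun x => ¬ P x) s ↔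
    ((s : ZFSet.{0}) ∈ ((cnd : M) : ZFSet.{0}) → ∀ t : M, (t : ZFSet.{0}) ∈ ((cnd : M) : ZFSet.{0}) →
      (s : ZFSet.{0}) ⊆ (t : ZFSet.{0}) → ¬ Frc P t) := by
  constructor
  · intro h hs t ht hst hf
    rw [mem_cnd] at hs ht
    obtain ⟨x, hx⟩ := exists_seg ht
    exact h x (hx.mono hs hst) (hf x hx)
  · intro h x hx hPx
    obtain ⟨t, ht, hst, hf⟩ := hP.ext hPx hx
    exact h hx.mem_cnd t ht.mem_cnd hst hf

theorem FF.not {P : Γ → XM M → Prop} (h : FF M P) : FF M (fun γ x => ¬ P γ x) := by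
  refine ⟨h.cl, fun γ => ?_, ?_⟩
  · have : (fun x => ¬ ¬ P γ x) = P γ := by funext x; simp
    rw [this]; exact h.op γ
  · refine D.congr ?_ (fun p => frc_not (h.op p.1) p.2)
    exact D.imp (D.mem F.snd (F.const _)) (D.all (D.imp (D.mem F.snd (F.const _)) (D.imp
      (D.subset F.snd.w F.snd) (D.not (D.weak (P := fun γ s => Frc (P γ) s) h.df)))))

theorem FF.and {P Q : Γ → XM M → Prop} (h : FF M P) (h' : FF M Q) :
    FF M (fun γ x => P γ x ∧ Q γ x) := by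
  refine ⟨fun γ x hx => ?_, fun γ x hx => ?_, ?_⟩
  · obtain ⟨s, hs, hP⟩ := h.op γ x hx.1
    obtain ⟨t, ht, hst, hQ⟩ := (h'.op γ).ext hx.2 hs
    exact ⟨t, ht, fun y hy => ⟨hP y (hy.mono hs.isCond hst), hQ y hy⟩⟩
  · by_cases hx' : P γ x
    · obtain ⟨s, hs, hQ⟩ := h'.cl γ x (fun hq => hx ⟨hx', hq⟩)
      exact ⟨s, hs, fun y hy h => hQ y hy h.2⟩
    · obtain ⟨s, hs, hQ⟩ := h.cl γ x hx'
      exact ⟨s, hs, fun y hy h => hQ y hy h.1⟩
  · refine (h.df.and h'.df).congr fun p => ?_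
    exact ⟨fun h => ⟨fun x hx => (h x hx).1, fun x hx => (h x hx).2⟩,
      fun h x hx => ⟨h.1 x hx, h.2 x hx⟩⟩

theorem FF.or {P Q : Γ → XM M → Prop} (h : FF M P) (h' : FF M Q) :
    FF M (fun γ x => P γ x ∨ Q γ x) :=
  (FF.not (FF.and h.not h'.not)).congr fun γ x => by tauto

theorem FF.imp {P Q : Γ → XM M → Prop} (h : FF M P) (h' : FF M Q) :
    FF M (fun γ x => P γ x → Q γ x) :=
  (FF.or h.not h').congr fun γ x => by tauto

theorem FF.iff {P Q : Γ → XM M → Prop} (h : FF M P) (h' : FF M Q) :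
    FF M (fun γ x => P γ x ↔ Q γ x) :=
  (FF.and (FF.imp h h') (FF.imp h' h)).congr fun γ x => by tauto

theorem FF.ex {P : Γ → M → XM M → Prop} (h : FF M (fun (p : Γ × M) x => P p.1 p.2 x)) :
    FF M (fun γ x => ∃ a, P γ a x) := by
  have hop : ∀ γ, Op (fun x => ∃ a, P γ a x) := by
    rintro γ x ⟨a, ha⟩
    obtain ⟨s, hs, hP⟩ := h.op (γ, a) x ha
    exact ⟨s, hs, fun y hy => ⟨a, hP y hy⟩⟩
  have hdf : D M (fun p : (Γ × M) × M => Frc (P p.1.1 p.1.2) p.2) := h.df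
  -- the dense set
  have hdense : ∀ γ (x : XM M), ∃ s : M, Seg s x ∧ ((∃ a, Frc (P γ a) s) ∨
      ∀ t : M, (t : ZFSet.{0}) ∈ ((cnd : M) : ZFSet.{0}) → (s : ZFSet.{0}) ⊆ (t : ZFSet.{0}) →
        ∀ a, ¬ Frc (P γ a) t) := by
    intro γ x
    have hD : D M (fun p : Γ × M => ((∃ a, Frc (P p.1 a) p.2) ∨
      ∀ t : M, (t : ZFSet.{0}) ∈ ((cnd : M) : ZFSet.{0}) → (p.2 : ZFSet.{0}) ⊆ (t : ZFSet.{0}) →
        ∀ a, ¬ Frc (P p.1 a) t)) := by
      refine D.or (D.ex ?_) (D.all (D.imp (D.mem F.snd (F.const _)) (D.imp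
        (D.subset F.snd.w F.snd) (D.all (D.not ?_)))))
      · exact D.comp hdf (m := fun q : (Γ × M) × M => ((q.1.1, q.2), q.1.2))
          (CM.pair (CM.pair CM.id.w.w F.snd) F.snd.w)
      · exact D.comp hdf (m := fun q : ((Γ × M) × M) × M => ((q.1.1.1, q.2), q.1.2))
          (CM.pair (CM.pair CM.id.w.w.w F.snd) F.snd.w)
    obtain ⟨A, hA⟩ := exists_sep (Q := fun γ s => ((∃ a, Frc (P γ a) s) ∨
      ∀ t : M, (t : ZFSet.{0}) ∈ ((cnd : M) : ZFSet.{0}) → (s : ZFSet.{0}) ⊆ (t : ZFSet.{0}) →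
        ∀ a, ¬ Frc (P γ a) t)) hD γ cnd
    obtain ⟨s, hs, hsx⟩ := meet (A := A) (fun s hs => (mem_cnd s).1 ((hA s).1 hs).1) (fun s hs => by
      by_cases hc : ∀ t : M, (t : ZFSet.{0}) ∈ ((cnd : M) : ZFSet.{0}) →
        (s : ZFSet.{0}) ⊆ (t : ZFSet.{0}) → ∀ a, ¬ Frc (P γ a) t
      · exact ⟨s, (hA s).2 ⟨(mem_cnd s).2 hs, Or.inr hc⟩, fun _ h => h⟩
      · push Not at hc
        obtain ⟨t, ht, hst, a, ha⟩ := hc
        exact ⟨t, (hA t).2 ⟨ht, Or.inl ⟨a, ha⟩⟩, hst⟩) x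
    exact ⟨s, hsx, ((hA s).1 hs).2⟩
  refine ⟨hop, fun γ x hx => ?_, ?_⟩
  · obtain ⟨s, hs, hs' | hs'⟩ := hdense γ x
    · obtain ⟨a, ha⟩ := hs'
      exact absurd ⟨a, ha x hs⟩ hx
    · refine ⟨s, hs, fun y hy ⟨a, ha⟩ => ?_⟩
      obtain ⟨t, ht, hst, hf⟩ := Op.ext (h.op (γ, a)) ha hy
      exact hs' t ht.mem_cnd hst a hf
  · have key : ∀ p : Γ × M, Frc (fun x => ∃ a, P p.1 a x) p.2 ↔
        ((p.2 : ZFSet.{0}) ∈ ((cnd : M) : ZFSet.{0}) → ∀ t : M,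
          (t : ZFSet.{0}) ∈ ((cnd : M) : ZFSet.{0}) → (p.2 : ZFSet.{0}) ⊆ (t : ZFSet.{0}) →
          ∃ u : M, (u : ZFSet.{0}) ∈ ((cnd : M) : ZFSet.{0}) ∧ (t : ZFSet.{0}) ⊆ (u : ZFSet.{0}) ∧
            ∃ a, Frc (P p.1 a) u) := by
      rintro ⟨γ, s⟩
      constructor
      · intro hf hs t ht hst
        rw [mem_cnd] at hs ht
        obtain ⟨x, hx⟩ := exists_seg ht
        obtain ⟨a, ha⟩ := hf x (hx.mono hs hst)
        obtain ⟨u, hu, htu, hf'⟩ := Op.ext (h.op (γ, a)) ha hx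
        exact ⟨u, hu.mem_cnd, htu, a, hf'⟩
      · intro hf x hx
        obtain ⟨r, hr, hr' | hr'⟩ := hdense γ x
        · obtain ⟨a, ha⟩ := hr'
          exact ⟨a, ha x hr⟩
        · obtain ⟨t, ht, hst, hrt⟩ := hx.common hr
          obtain ⟨u, hu, htu, a, ha⟩ := hf hx.mem_cnd t ht.mem_cnd hst
          exact absurd ha (hr' u hu (fun _ h => htu (hrt h)) a)
    refine D.congr ?_ key
    refine D.imp (D.mem F.snd (F.const _)) (D.all (D.imp (D.mem F.snd (F.const _)) (D.imp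
      (D.subset F.snd.w F.snd) (D.ex (D.and (D.mem F.snd (F.const _)) (D.and
        (D.subset F.snd.w F.snd) (D.ex ?_)))))))
    exact D.comp hdf (m := fun q : (((Γ × M) × M) × M) × M => ((q.1.1.1.1, q.2), q.1.2))
      (CM.pair (CM.pair CM.id.w.w.w.w F.snd) F.snd.w)

theorem FF.all {P : Γ → M → XM M → Prop} (h : FF M (fun (p : Γ × M) x => P p.1 p.2 x)) :
    FF M (fun γ x => ∀ a, P γ a x) :=
  (FF.not (FF.ex (P := fun γ a x => ¬ P γ a x) h.not)).congr fun γ x => by simp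

theorem FF.const {Q : Γ → Prop} (h : D M Q) : FF M (fun γ (_ : XM M) => Q γ) := by
  refine ⟨fun γ x hx => ⟨sg x 0, seg_sg x 0, fun _ _ => hx⟩,
    fun γ x hx => ⟨sg x 0, seg_sg x 0, fun _ _ => hx⟩, ?_⟩
  refine (D.imp (D.mem (f := fun p : Γ × M => p.2) (g := fun _ => cnd) F.snd (F.const _))
    h.w).congr fun p => ?_
  constructor
  · intro hf hs
    obtain ⟨x, hx⟩ := exists_seg ((mem_cnd _).1 hs)
    exact hf x hx
  · intro hf x hx
    exact hf hx.mem_cnd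

theorem frc_seg (s t : M) : Frc (fun x => Seg s x) t ↔ ((t : ZFSet.{0}) ∈ ((cnd : M) : ZFSet.{0}) →
    ((s : ZFSet.{0}) ∈ ((cnd : M) : ZFSet.{0}) ∧ (s : ZFSet.{0}) ⊆ (t : ZFSet.{0}))) := by
  constructor
  · intro hf ht
    rw [mem_cnd] at ht
    obtain ⟨x, hx⟩ := exists_seg ht
    have hsx := hf x hx
    refine ⟨hsx.mem_cnd, ?_⟩
    obtain ⟨k, hk⟩ := hsx
    obtain ⟨n, hn⟩ := hx
    rw [hk, hn, seg_subset]
    refine ⟨?_, fun _ _ => rfl⟩
    by_contra hkn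
    push Not at hkn
    -- flip the bit at `n`
    set z : ℕ → Bool := fun i => if i = n then !x.1 n else x.1 i with hz
    obtain ⟨y, hy⟩ := exists_seg (s := mseg z (n + 1)) (M := M) ⟨z, n + 1, rfl⟩
    have hty : Seg t y := by
      refine hy.mono ht ?_
      show (t : ZFSet.{0}) ⊆ seg z (n + 1)
      rw [hn, seg_subset]
      refine ⟨by omega, fun i hi => ?_⟩
      simp [hz, show i ≠ n by omega]
    obtain ⟨k', hk'⟩ := hf y hty
    rw [hk, seg_eq] at hk'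
    obtain ⟨m, hm⟩ := hy
    change seg z (n + 1) = seg y.1 m at hm
    rw [seg_eq] at hm
    have h1 := hk'.2 n hkn
    have h2 := hm.2 n (by omega)
    simp [hz] at h2
    rw [← h1] at h2
    cases hx : x.1 n <;> simp [hx] at h2
  · intro h x hx
    obtain ⟨h1, h2⟩ := h hx.mem_cnd
    exact hx.mono ((mem_cnd _).1 h1) h2

theorem FF.seg {f : Γ → M} (hf : F M f) : FF M (fun γ x => Seg (f γ) x) := by
  refine ⟨fun γ x hx => ⟨f γ, hx, fun y hy => hy⟩, fun γ x hx => ?_, ?_⟩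
  · by_cases hc : IsCond (f γ : ZFSet.{0})
    · obtain ⟨z, n, hz⟩ := hc
      refine ⟨sg x n, seg_sg x n, fun y hy hy' => hx ?_⟩
      obtain ⟨m, hm⟩ := hy
      change CohenE.seg x.1 n = CohenE.seg y.1 m at hm
      obtain ⟨k, hk⟩ := hy'
      rw [seg_eq] at hm
      rw [hz, seg_eq] at hk
      refine ⟨n, ?_⟩
      rw [hz, seg_eq]
      refine ⟨rfl, fun i hi => ?_⟩
      rw [hk.2 i hi, hm.2 i hi]
    · exact ⟨sg x 0, seg_sg x 0, fun y _ hy => hc hy.isCond⟩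
  · refine D.congr ?_ (fun p => frc_seg (f p.1) p.2)
    exact D.imp (D.mem F.snd (F.const _)) (D.and (D.mem hf.w (F.const _)) (D.subset hf.w F.snd))

/-- the code of an open set -/
noncomputable def code (P : XM M → Prop) : M := msep cnd (fun s => Frc P s)

/-- the open set coded by `w` -/
def opn (w : M) (x : XM M) : Prop := ∃ s : M, (s : ZFSet.{0}) ∈ (w : ZFSet.{0}) ∧ Seg s x

theorem opn_code {P : Γ → XM M → Prop} (h : FF M P) (γ : Γ) (x : XM M) :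
    opn (code (P γ)) x ↔ P γ x := by
  have hm : ∀ s : M, (s : ZFSet.{0}) ∈ (code (P γ) : ZFSet.{0}) ↔
      (s : ZFSet.{0}) ∈ ((cnd : M) : ZFSet.{0}) ∧ Frc (P γ) s := fun s =>
    mem_msep (Q := fun γ s => Frc (P γ) s) h.df γ cnd s
  constructor
  · rintro ⟨s, hs, hx⟩
    exact ((hm s).1 hs).2 x hx
  · intro hx
    obtain ⟨s, hs, hf⟩ := h.op γ x hx
    exact ⟨s, (hm s).2 ⟨hs.mem_cnd, hf⟩, hs⟩

theorem F.code {P : Γ → XM M → Prop} (h : FF M P) : F M (fun γ => code (P γ)) :=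
  F.sep (Q := fun γ s => Frc (P γ) s) h.df (F.const _)

theorem FF.opn {f : Γ → M} (hf : F M f) : FF M (fun γ x => opn (f γ) x) :=
  FF.ex (FF.and (FF.const (D.mem F.snd hf.w)) (FF.seg F.snd))

/-! relations -/

/-- coded relations -/
def CR (M : Set ZFSet.{0}) [Fact (CTM M)] {Γ : Type 1} [Ctx M Γ] (R : Γ → XM M → XM M → Prop) : Prop :=
  FF M (fun (p : Γ × M) x => ∃ y, R p.1 x y ∧ Seg p.2 y)

theorem FF.exY {R : Γ → XM M → XM M → Prop} (hR : CR M R) {P : Γ → XM M → Prop} (hP : FF M P) :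
    FF M (fun γ x => ∃ y, R γ x y ∧ P γ y) := by
  refine (FF.ex (P := fun γ t x => (∃ y, R γ x y ∧ Seg t y) ∧ Frc (P γ) t)
    (FF.and hR (FF.const hP.df))).congr fun γ x => ?_
  constructor
  · rintro ⟨y, hy, hP'⟩
    obtain ⟨t, ht, hf⟩ := hP.op γ y hP'
    exact ⟨t, ⟨y, hy, ht⟩, hf⟩
  · rintro ⟨t, ⟨y, hy, ht⟩, hf⟩
    exact ⟨y, hy, hf y ht⟩

theorem CR.congr {R S : Γ → XM M → XM M → Prop} (h : CR M R) (h' : ∀ γ x y, S γ x y ↔ R γ x y) :
    CR M S := by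
  have : S = R := by
    funext γ x y
    exact propext (h' γ x y)
  rw [this]; exact h

theorem CR.cm {R : Δ → XM M → XM M → Prop} (h : CR M R) {m : Γ → Δ} (hm : CM M m) :
    CR M (fun γ => R (m γ)) :=
  FF.comp h (m := fun p : Γ × M => (m p.1, p.2)) (CM.pair hm.w F.snd)

theorem CR.w {R : Γ → XM M → XM M → Prop} (h : CR M R) : CR M (fun p : Γ × M => R p.1) :=
  h.cm CM.id.w

theorem FF.w {P : Γ → XM M → Prop} (h : FF M P) : FF M (fun p : Γ × M => P p.1) :=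
  h.comp CM.id.w

theorem CR.comp {R S : Γ → XM M → XM M → Prop} (hR : CR M R) (hS : CR M S) :
    CR M (fun γ x y => ∃ z, R γ x z ∧ S γ z y) := by
  refine (FF.exY (P := fun p z => ∃ y, S p.1 z y ∧ Seg p.2 y) hR.w hS).congr fun p x => ?_
  constructor
  · rintro ⟨y, ⟨z, h1, h2⟩, h3⟩
    exact ⟨z, h1, y, h2, h3⟩
  · rintro ⟨z, h1, y, h2, h3⟩
    exact ⟨y, ⟨z, h1, h2⟩, h3⟩

theorem CR.or {R S : Γ → XM M → XM M → Prop} (hR : CR M R) (hS : CR M S) :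
    CR M (fun γ x y => R γ x y ∨ S γ x y) := by
  refine (FF.or hR hS).congr fun p x => ?_
  constructor
  · rintro ⟨y, h1 | h1, h3⟩
    · exact Or.inl ⟨y, h1, h3⟩
    · exact Or.inr ⟨y, h1, h3⟩
  · rintro (⟨y, h1, h3⟩ | ⟨y, h1, h3⟩)
    · exact ⟨y, Or.inl h1, h3⟩
    · exact ⟨y, Or.inr h1, h3⟩

theorem CR.eq : CR M (fun (_ : Γ) x y => x = y) :=
  (FF.seg (f := fun p : Γ × M => p.2) F.snd).congr fun p x => by simp

theorem CR.andL {R : Γ → XM M → XM M → Prop} (hR : CR M R) {P : Γ → XM M → Prop} (hP : FF M P) :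
    CR M (fun γ x y => P γ x ∧ R γ x y) := by
  refine (FF.and hP.w hR).congr fun p x => ?_
  constructor
  · rintro ⟨y, ⟨h1, h2⟩, h3⟩
    exact ⟨h1, y, h2, h3⟩
  · rintro ⟨h1, y, h2, h3⟩
    exact ⟨y, ⟨h1, h2⟩, h3⟩

theorem CR.andR {R : Γ → XM M → XM M → Prop} (hR : CR M R) {P : Γ → XM M → Prop} (hP : FF M P) :
    CR M (fun γ x y => R γ x y ∧ P γ y) := by
  refine (FF.exY (P := fun p y => P p.1 y ∧ Seg p.2 y) hR.w
    (FF.and hP.w (FF.seg F.snd))).congr fun p x => ?_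
  constructor
  · rintro ⟨y, ⟨h1, h2⟩, h3⟩
    exact ⟨y, h1, h2, h3⟩
  · rintro ⟨y, h1, h2, h3⟩
    exact ⟨y, ⟨h1, h2⟩, h3⟩

/-- transitive closures of coded relations are coded -/
theorem CR.transGen {R : Γ → XM M → XM M → Prop} (hR : CR M R) :
    CR M (fun γ => Relation.TransGen (R γ)) := by
  -- one step, in context `(Γ × M) × M ∋ ((γ, t), w)`
  have hstep : FF M (fun (p : (Γ × M) × M) x =>
      ∃ y, R p.1.1 x y ∧ (Seg p.1.2 y ∨ CohenE.opn p.2 y)) :=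
    FF.exY (R := fun p : (Γ × M) × M => R p.1.1) hR.w.w
      (FF.or (FF.seg F.snd.w) (FF.opn F.snd))
  have hΦ := F.code hstep
  have hit := D.iter (Γ := Γ × M)
    (Φ := fun q w => CohenE.code (fun x => ∃ y, R q.1 x y ∧ (Seg q.2 y ∨ CohenE.opn w y)))
    hΦ (a := fun _ => memp) (F.const _)
  have hfin : FF M (fun (p : Γ × M) x => ∃ i w : M,
      (∃ n, i = mnat n ∧ w = (fun w => CohenE.code (fun x => ∃ y, R p.1 x y ∧
        (Seg p.2 y ∨ CohenE.opn w y)))^[n] memp) ∧ CohenE.opn w x) :=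
    FF.ex (FF.ex (FF.and (FF.const hit) (FF.opn F.snd)))
  refine hfin.congr fun p x => ?_
  obtain ⟨γ, t⟩ := p
  simp only
  set Ψ : M → M := fun w => CohenE.code (fun x => ∃ y, R γ x y ∧ (Seg t y ∨ CohenE.opn w y)) with hΨ
  have hop : ∀ w x, CohenE.opn (Ψ w) x ↔ ∃ y, R γ x y ∧ (Seg t y ∨ CohenE.opn w y) := fun w x =>
    opn_code hstep ((γ, t), w) x
  have h0 : ∀ x, ¬ CohenE.opn (memp : M) x := by
    rintro x ⟨s, hs, -⟩
    exact ZFSet.notMem_empty _ hs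
  constructor
  · rintro ⟨y, hy, hty⟩
    induction hy using Relation.TransGen.head_induction_on with
    | single h =>
      exact ⟨mnat 1, Ψ memp, ⟨1, rfl, rfl⟩, (hop _ _).2 ⟨y, h, Or.inl hty⟩⟩
    | head h _ ih =>
      obtain ⟨i, w, ⟨n, -, hw⟩, hx⟩ := ih
      refine ⟨mnat (n + 1), Ψ w, ⟨n + 1, rfl, ?_⟩, (hop _ _).2 ⟨_, h, Or.inr hx⟩⟩
      rw [hw, Function.iterate_succ_apply']
  · rintro ⟨i, w, ⟨n, -, rfl⟩, hx⟩
    clear i
    induction n generalizing x with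
    | zero => exact absurd hx (h0 x)
    | succ n ih =>
      rw [Function.iterate_succ_apply', hop] at hx
      obtain ⟨y, hy, h | h⟩ := hx
      · exact ⟨y, .single hy, h⟩
      · obtain ⟨z, hz, hz'⟩ := ih y h
        exact ⟨z, .head hy hz, hz'⟩

end CohenE
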