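import Pool.Agent.Helper212.CohenE.Machine

set_option linter.unusedSectionVars false

-- ===== TARGETS =====
namespace CohenE

variable {M : Set ZFSet.{0}} [hM : Fact (CTM M)]
variable {Γ Δ : Type 1} [Ctx M Γ] [Ctx M Δ]

/-! auxiliary -/

/-- union -/
noncomputable def ecU (a : M) : M := ⟨ZFSet.sUnion (a : ZFSet.{0}), hM.out.union _ a.2⟩

theorem mem_ecU (a z : M) : (z : ZFSet.{0}) ∈ (ecU a : ZFSet.{0}) ↔
    ∃ w : M, (z : ZFSet.{0}) ∈ (w : ZFSet.{0}) ∧ (w : ZFSet.{0}) ∈ (a : ZFSet.{0}) := by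
  show (z : ZFSet.{0}) ∈ ZFSet.sUnion (a : ZFSet.{0}) ↔ _
  rw [ZFSet.mem_sUnion]
  constructor
  · rintro ⟨w, hw, hz⟩
    exact ⟨⟨w, hM.out.trans _ a.2 _ hw⟩, hz, hw⟩
  · rintro ⟨w, hz, hw⟩
    exact ⟨w, hw, hz⟩

theorem F.ecU0 : F M (fun a : M => ecU a) := by
  have h : D M (fun p : M × M => ∀ z : M, (z : ZFSet.{0}) ∈ (p.2 : ZFSet.{0}) ↔
      ∃ w : M, (z : ZFSet.{0}) ∈ (w : ZFSet.{0}) ∧ (w : ZFSet.{0}) ∈ (p.1 : ZFSet.{0})) :=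
    D.all (D.iff (D.mem (F.var 0) (F.var 1)) (D.ex (D.and (D.mem (F.var 1) (F.var 0))
      (D.mem (F.var 0) (F.var 3)))))
  refine D.congr h fun p => ?_
  rw [M_ext]
  exact forall_congr' fun z => iff_congr Iff.rfl (mem_ecU p.1 z)

/-- singleton -/
def ecSing (a : M) : M := ⟨{(a : ZFSet.{0})}, single_memM a.2⟩

theorem mem_ecSing (a z : M) : (z : ZFSet.{0}) ∈ (ecSing a : ZFSet.{0}) ↔ z = a := by
  show (z : ZFSet.{0}) ∈ ({(a : ZFSet.{0})} : ZFSet.{0}) ↔ _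
  rw [ZFSet.mem_singleton, Subtype.ext_iff]

theorem F.ecSing0 : F M (fun a : M => ecSing a) := by
  have h : D M (fun p : M × M => ∀ z : M, (z : ZFSet.{0}) ∈ (p.2 : ZFSet.{0}) ↔ z = p.1) :=
    D.all (D.iff (D.mem (F.var 0) (F.var 1)) (D.eq (F.var 0) (F.var 2)))
  refine D.congr h fun p => ?_
  rw [M_ext]
  exact forall_congr' fun z => iff_congr Iff.rfl (mem_ecSing p.1 z)

/-- definable iteration, in the base context -/
theorem D.ecIter0 {Φ : M → M} (hΦ : F M Φ) (a : M) :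
    D M (fun p : M × M => ∃ n, p.1 = mnat n ∧ p.2 = Φ^[n] a) := by
  have h1 : F M (fun p : M × M => Φ p.2) := F.comp hΦ (m := fun p : M × M => p.2) (CM.of F.snd)
  have h2 := D.iter (Γ := M) (Φ := fun _ w => Φ w) h1 (a := fun _ => a) (F.const a)
  exact D.comp h2 (m := fun p : M × M => ((memp, p.1), p.2))
    (CM.pair (CM.pair (CM.of (F.const memp)) (F.var 1)) F.snd)

/-- the set of all iterates -/
theorem ec_exists_iterates {Φ : M → M} (hΦ : F M Φ) (a : M) :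
    ∃ b : M, ∀ w : M, (w : ZFSet.{0}) ∈ (b : ZFSet.{0}) ↔ ∃ n, w = Φ^[n] a := by
  obtain ⟨b, hb⟩ := exists_repl (G := fun z w => ∃ n, z = mnat n ∧ w = Φ^[n] a)
    (D.ecIter0 hΦ a) om (fun z hz => by
      obtain ⟨n, rfl⟩ := (mem_om z).1 hz
      refine ⟨Φ^[n] a, ⟨n, rfl, rfl⟩, ?_⟩
      rintro w ⟨m, hm, hw⟩
      rw [hw, mnat_inj hm])
  refine ⟨b, fun w => ?_⟩
  rw [hb]
  constructor
  · rintro ⟨z, -, n, -, hw⟩
    exact ⟨n, hw⟩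
  · rintro ⟨n, hw⟩
    exact ⟨mnat n, (mem_om _).2 ⟨n, rfl⟩, n, rfl, hw⟩

/-- every element of `M` belongs to a transitive element of `M` -/
theorem exists_tc (a : M) : ∃ T : M, (a : ZFSet.{0}) ∈ (T : ZFSet.{0}) ∧
    ∀ b ∈ (T : ZFSet.{0}), ∀ c ∈ b, c ∈ (T : ZFSet.{0}) := by
  obtain ⟨B, hB⟩ := ec_exists_iterates (M := M) F.ecU0 (ecSing a)
  refine ⟨ecU B, ?_, ?_⟩
  · rw [mem_ecU]
    exact ⟨ecSing a, (mem_ecSing a a).2 rfl, (hB _).2 ⟨0, rfl⟩⟩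
  · intro b hb c hc
    have hbM : b ∈ M := hM.out.trans _ (ecU B).2 _ hb
    have hcM : c ∈ M := hM.out.trans _ hbM _ hc
    obtain ⟨w, hw, hwB⟩ := (mem_ecU B ⟨b, hbM⟩).1 hb
    obtain ⟨n, hn⟩ := (hB w).1 hwB
    refine (mem_ecU B ⟨c, hcM⟩).2 ⟨ecU w, ?_, (hB _).2 ⟨n + 1, ?_⟩⟩
    · exact (mem_ecU w ⟨c, hcM⟩).2 ⟨⟨b, hbM⟩, hc, hw⟩
    · rw [Function.iterate_succ_apply', hn]

/-! names for the Zermelo numerals -/

noncomputable def ecZ : ℕ → ZFSet.{0}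
  | 0 => ∅
  | n + 1 => {ecZ n}

theorem ecZ_inj : ∀ m n, ecZ m = ecZ n → m = n := by
  intro m
  induction m with
  | zero =>
    intro n h
    cases n with
    | zero => rfl
    | succ n =>
      exfalso
      have : ecZ n ∈ ecZ (n + 1) := ZFSet.mem_singleton.2 rfl
      rw [← h] at this
      exact ZFSet.notMem_empty _ this
  | succ m ih =>
    intro n h
    cases n with
    | zero =>
      exfalso
      have : ecZ m ∈ ecZ (m + 1) := ZFSet.mem_singleton.2 rfl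
      rw [h] at this
      exact ZFSet.notMem_empty _ this
    | succ n =>
      have h1 : ecZ m ∈ ecZ (n + 1) := by
        rw [← h]; exact ZFSet.mem_singleton.2 rfl
      rw [ih n (ZFSet.mem_singleton.1 h1)]

def ecNmS (ρ : M) : M := ecSing (mpair ρ memp)

theorem F.ecNmS0 : F M (fun ρ : M => ecNmS ρ) :=
  F.comp F.ecSing0 (m := fun ρ : M => mpair ρ memp) (CM.of (F.pair (F.var 0) (F.const memp)))

theorem ec_val_nm (x : ℕ → Bool) (n : ℕ) : val x ((ecNmS^[n] (memp : M) : M) : ZFSet.{0}) = ecZ n := by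
  induction n with
  | zero =>
    apply ZFSet.ext
    intro z
    rw [mem_val]
    constructor
    · rintro ⟨ρ, k, h, -⟩
      exact absurd h (ZFSet.notMem_empty _)
    · intro h
      exact absurd h (ZFSet.notMem_empty _)
  | succ n ih =>
    rw [Function.iterate_succ_apply']
    apply ZFSet.ext
    intro z
    rw [mem_val, ecZ, ZFSet.mem_singleton]
    set ρ₀ : M := ecNmS^[n] (memp : M) with hρ₀
    constructor
    · rintro ⟨ρ, k, h, hz⟩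
      have h1 : ZFSet.pair ρ (seg x k) = ZFSet.pair (ρ₀ : ZFSet.{0}) ∅ := ZFSet.mem_singleton.1 h
      rw [ZFSet.pair_inj] at h1
      rw [hz, h1.1, ih]
    · intro hz
      refine ⟨ρ₀, 0, ?_, by rw [hz, ih]⟩
      exact ZFSet.mem_singleton.2 rfl

/-- a name for `{ecZ n : y n = true}` -/
theorem ec_exists_Y : ∃ Y : M, ∀ (y : ℕ → Bool) (z : ZFSet.{0}), z ∈ val y (Y : ZFSet.{0}) ↔
    ∃ n, y n = true ∧ z = ecZ n := by
  obtain ⟨B, hB⟩ := ec_exists_iterates (M := M) F.ecNmS0 memp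
  have hD : D M (fun q : M × M => ∃ ρ s i : M, q.2 = mpair ρ s ∧
      (∃ n, i = mnat n ∧ ρ = ecNmS^[n] memp) ∧
      (mpair i (mbit true) : ZFSet.{0}) ∈ (s : ZFSet.{0})) := by
    refine D.ex (D.ex (D.ex (D.and (D.eq (F.var 3) (F.pair (F.var 2) (F.var 1)))
      (D.and ?_ (D.mem (F.pair (F.var 0) (F.const _)) (F.var 1))))))
    exact D.comp (D.ecIter0 F.ecNmS0 memp) (m := fun q : (((M × M) × M) × M) × M => (q.2, q.1.1.2))
      (CM.pair (CM.of F.snd) (F.var 2))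
  obtain ⟨Y, hY⟩ := exists_sep (Γ := M) (Q := fun _ p => ∃ ρ s i : M, p = mpair ρ s ∧
      (∃ n, i = mnat n ∧ ρ = ecNmS^[n] memp) ∧
      (mpair i (mbit true) : ZFSet.{0}) ∈ (s : ZFSet.{0})) hD memp (mprod B cnd)
  refine ⟨Y, fun y z => ?_⟩
  rw [mem_val]
  constructor
  · rintro ⟨ρ, k, h, hz⟩
    have hp : ZFSet.pair ρ (seg y k) ∈ M := hM.out.trans _ Y.2 _ h
    have hρ : ρ ∈ M := fst_memM hp
    obtain ⟨-, ρ', s, i, h1, ⟨n, hi, hn⟩, h2⟩ := (hY (mpair ⟨ρ, hρ⟩ (mseg y k))).1 h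
    rw [mpair_inj] at h1
    obtain ⟨h3, h4⟩ := h1
    rw [hi, ← h4] at h2
    have h2' : ZFSet.pair (nat n) (bit true) ∈ seg y k := h2
    rw [mem_seg] at h2'
    obtain ⟨j, hj, e⟩ := h2'
    rw [ZFSet.pair_inj] at e
    have e1 := nat_inj e.1
    have e2 := bit_inj e.2
    refine ⟨n, ?_, ?_⟩
    · rw [e1, ← e2]
    · rw [hz, ← ec_val_nm (M := M) y n, ← hn, ← h3]
  · rintro ⟨n, hn, hz⟩
    refine ⟨((ecNmS^[n] (memp : M) : M) : ZFSet.{0}), n + 1, ?_, by rw [hz, ec_val_nm]⟩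
    refine (hY (mpair (ecNmS^[n] (memp : M)) (mseg y (n + 1)))).2 ⟨?_, _, _, mnat n, rfl, ⟨n, rfl, rfl⟩, ?_⟩
    · refine (pair_mem_mprod _ _ _ _).2 ⟨(hB _).2 ⟨n, rfl⟩, (mem_cnd _).2 ⟨y, n + 1, rfl⟩⟩
    · show ZFSet.pair (nat n) (bit true) ∈ seg y (n + 1)
      rw [mem_seg]
      exact ⟨n, Nat.lt_succ_self n, by rw [hn]⟩

/-! evaluation of names inside `M` -/

/-- `(ρ, s) ∈ w` for an initial segment `s` of `x` -/
def ecSetW (w ρ : M) (x : XM M) : Prop :=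
  ∃ s : M, (mpair ρ s : ZFSet.{0}) ∈ (w : ZFSet.{0}) ∧ Seg s x

theorem FF.ec_setW {f g : Γ → M} (hf : F M f) (hg : F M g) :
    FF M (fun γ x => ecSetW (f γ) (g γ) x) :=
  FF.ex (P := fun γ s x => (mpair (g γ) s : ZFSet.{0}) ∈ (f γ : ZFSet.{0}) ∧ Seg s x)
    (FF.and (FF.const (D.mem (F.pair hg.w F.snd) hf.w)) (FF.seg F.snd))

def ecB0 (ρ : M) (x : XM M) : Prop :=
  ∀ ρ' s' : M, (mpair ρ' s' : ZFSet.{0}) ∈ (ρ : ZFSet.{0}) → ¬ Seg s' x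

theorem FF.ec_b0 {g : Γ → M} (hg : F M g) : FF M (fun γ x => ecB0 (g γ) x) :=
  FF.all (P := fun γ ρ' x => ∀ s' : M, (mpair ρ' s' : ZFSet.{0}) ∈ (g γ : ZFSet.{0}) → ¬ Seg s' x)
    (FF.all (P := fun (p : Γ × M) s' x =>
      (mpair p.2 s' : ZFSet.{0}) ∈ (g p.1 : ZFSet.{0}) → ¬ Seg s' x)
      (FF.imp (FF.const (D.mem (F.pair F.snd.w F.snd) hg.w.w)) (FF.not (FF.seg F.snd))))

def ecSt (w ρ : M) (x : XM M) : Prop :=
  (∀ ρ' s' : M, (mpair ρ' s' : ZFSet.{0}) ∈ (ρ : ZFSet.{0}) → Seg s' x → ecSetW w ρ' x) ∧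
  (∃ ρ' s' : M, (mpair ρ' s' : ZFSet.{0}) ∈ (ρ : ZFSet.{0}) ∧ Seg s' x ∧ ecSetW w ρ' x)

theorem FF.ec_st {f g : Γ → M} (hf : F M f) (hg : F M g) : FF M (fun γ x => ecSt (f γ) (g γ) x) := by
  refine FF.and ?_ ?_
  · exact FF.all (P := fun γ ρ' x => ∀ s' : M, (mpair ρ' s' : ZFSet.{0}) ∈ (g γ : ZFSet.{0}) →
        Seg s' x → ecSetW (f γ) ρ' x)
      (FF.all (P := fun (p : Γ × M) s' x =>
        (mpair p.2 s' : ZFSet.{0}) ∈ (g p.1 : ZFSet.{0}) → Seg s' x → ecSetW (f p.1) p.2 x)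
        (FF.imp (FF.const (D.mem (F.pair F.snd.w F.snd) hg.w.w)) (FF.imp (FF.seg F.snd)
          (FF.ec_setW hf.w.w F.snd.w))))
  · exact FF.ex (P := fun γ ρ' x => ∃ s' : M, (mpair ρ' s' : ZFSet.{0}) ∈ (g γ : ZFSet.{0}) ∧
        Seg s' x ∧ ecSetW (f γ) ρ' x)
      (FF.ex (P := fun (p : Γ × M) s' x =>
        (mpair p.2 s' : ZFSet.{0}) ∈ (g p.1 : ZFSet.{0}) ∧ Seg s' x ∧ ecSetW (f p.1) p.2 x)
        (FF.and (FF.const (D.mem (F.pair F.snd.w F.snd) hg.w.w)) (FF.and (FF.seg F.snd)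
          (FF.ec_setW hf.w.w F.snd.w))))

/-- the set of `(ρ, s)` such that `s` forces `Q ρ` -/
noncomputable def ecFs (T : M) (Q : M → XM M → Prop) : M :=
  msep (mprod T cnd) (fun p => ∃ ρ s : M, p = mpair ρ s ∧ Frc (Q ρ) s)

theorem ecFs_D {Q : Γ → M → XM M → Prop} (hQ : FF M (fun (p : Γ × M) x => Q p.1 p.2 x)) :
    D M (fun q : Γ × M => ∃ ρ s : M, q.2 = mpair ρ s ∧ Frc (Q q.1 ρ) s) := by
  refine D.ex (D.ex (D.and (D.eq F.snd.w.w (F.pair F.snd.w F.snd)) ?_))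
  exact D.comp hQ.df (m := fun q : ((Γ × M) × M) × M => ((q.1.1.1, q.1.2), q.2))
    (CM.pair (CM.pair CM.id.w.w.w F.snd.w) F.snd)

theorem F.ecFs (T : M) {Q : Γ → M → XM M → Prop} (hQ : FF M (fun (p : Γ × M) x => Q p.1 p.2 x)) :
    F M (fun γ => CohenE.ecFs T (Q γ)) :=
  F.sep (Q := fun γ p => ∃ ρ s : M, p = mpair ρ s ∧ Frc (Q γ ρ) s) (ecFs_D hQ) (F.const _)

theorem ec_setW_fs (T : M) {Q : Γ → M → XM M → Prop} (hQ : FF M (fun (p : Γ × M) x => Q p.1 p.2 x))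
    (γ : Γ) (ρ : M) (x : XM M) :
    ecSetW (ecFs T (Q γ)) ρ x ↔ (ρ : ZFSet.{0}) ∈ (T : ZFSet.{0}) ∧ Q γ ρ x := by
  have hm : ∀ p : M, (p : ZFSet.{0}) ∈ (ecFs T (Q γ) : ZFSet.{0}) ↔
      (p : ZFSet.{0}) ∈ (mprod T cnd : ZFSet.{0}) ∧ ∃ ρ s : M, p = mpair ρ s ∧ Frc (Q γ ρ) s :=
    fun p => mem_msep (Q := fun γ p => ∃ ρ s : M, p = mpair ρ s ∧ Frc (Q γ ρ) s) (ecFs_D hQ) γ _ p
  constructor
  · rintro ⟨s, hs, hx⟩
    obtain ⟨h1, ρ', s', e, hf⟩ := (hm _).1 hs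
    rw [mpair_inj] at e
    refine ⟨((pair_mem_mprod _ _ _ _).1 h1).1, ?_⟩
    rw [e.1]
    rw [e.2] at hx
    exact hf x hx
  · rintro ⟨hρ, hx⟩
    obtain ⟨s, hs, hf⟩ := hQ.op (γ, ρ) x hx
    exact ⟨s, (hm _).2 ⟨(pair_mem_mprod _ _ _ _).2 ⟨hρ, hs.mem_cnd⟩, ρ, s, rfl, hf⟩, hs⟩

noncomputable def ecW0 (T : M) : M := ecFs T ecB0
noncomputable def ecWn (T : M) (n : ℕ) : M := (fun w => ecFs T (ecSt w))^[n] (ecW0 T)

theorem F.ecStep0 (T : M) : F M (fun w : M => CohenE.ecFs T (ecSt w)) :=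
  F.ecFs T (Q := fun w ρ x => ecSt w ρ x)
    (FF.ec_st (f := fun p : M × M => p.1) (g := fun p : M × M => p.2) (F.var 1) F.snd)

theorem ec_setW_W0 (T ρ : M) (x : XM M) :
    ecSetW (ecW0 T) ρ x ↔ (ρ : ZFSet.{0}) ∈ (T : ZFSet.{0}) ∧ ecB0 ρ x :=
  ec_setW_fs T (Γ := M) (Q := fun _ ρ x => ecB0 ρ x)
    (FF.ec_b0 (g := fun p : M × M => p.2) F.snd) memp ρ x

theorem ec_setW_step (T w ρ : M) (x : XM M) :
    ecSetW (ecFs T (ecSt w)) ρ x ↔ (ρ : ZFSet.{0}) ∈ (T : ZFSet.{0}) ∧ ecSt w ρ x :=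
  ec_setW_fs T (Γ := M) (Q := fun w ρ x => ecSt w ρ x)
    (FF.ec_st (f := fun p : M × M => p.1) (g := fun p : M × M => p.2) (F.var 1) F.snd) w ρ x

theorem ec_mem_trans {T ρ' s' ρ : M} (hT : ∀ b ∈ (T : ZFSet.{0}), ∀ c ∈ b, c ∈ (T : ZFSet.{0}))
    (hρ : (ρ : ZFSet.{0}) ∈ (T : ZFSet.{0})) (h : (mpair ρ' s' : ZFSet.{0}) ∈ (ρ : ZFSet.{0})) :
    (ρ' : ZFSet.{0}) ∈ (T : ZFSet.{0}) := by
  have h1 := hT _ hρ _ h
  have h2 : ({(ρ' : ZFSet.{0})} : ZFSet.{0}) ∈ (mpair ρ' s' : ZFSet.{0}) := by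
    show ({(ρ' : ZFSet.{0})} : ZFSet.{0}) ∈ ZFSet.pair (ρ' : ZFSet.{0}) s'
    simp [ZFSet.pair]
  have h3 := hT _ h1 _ h2
  exact hT _ h3 _ (ZFSet.mem_singleton.2 rfl)

/-- membership in a value, in terms of elements of `M` -/
theorem ec_mem_valM (ρ : M) (x : XM M) (z : ZFSet.{0}) : z ∈ val x.1 (ρ : ZFSet.{0}) ↔
    ∃ ρ' s' : M, (mpair ρ' s' : ZFSet.{0}) ∈ (ρ : ZFSet.{0}) ∧ Seg s' x ∧
      z = val x.1 (ρ' : ZFSet.{0}) := by
  rw [mem_val]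
  constructor
  · rintro ⟨ρ', k, h, hz⟩
    have hp : ZFSet.pair ρ' (seg x.1 k) ∈ M := hM.out.trans _ ρ.2 _ h
    exact ⟨⟨ρ', fst_memM hp⟩, mseg x.1 k, h, ⟨k, rfl⟩, hz⟩
  · rintro ⟨ρ', s', h, ⟨k, hk⟩, hz⟩
    refine ⟨ρ', k, ?_, hz⟩
    rw [← hk]
    exact h

theorem ec_setW_iter {T : M} (hT : ∀ b ∈ (T : ZFSet.{0}), ∀ c ∈ b, c ∈ (T : ZFSet.{0})) (n : ℕ) :
    ∀ (ρ : M) (x : XM M), (ρ : ZFSet.{0}) ∈ (T : ZFSet.{0}) →
      (ecSetW (ecWn T n) ρ x ↔ val x.1 (ρ : ZFSet.{0}) = ecZ n) := by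
  induction n with
  | zero =>
    intro ρ x hρ
    show ecSetW (ecW0 T) ρ x ↔ _
    rw [ec_setW_W0]
    constructor
    · rintro ⟨-, h⟩
      apply ZFSet.ext
      intro z
      rw [ec_mem_valM]
      constructor
      · rintro ⟨ρ', s', h1, h2, -⟩
        exact absurd h2 (h ρ' s' h1)
      · intro hz
        exact absurd hz (ZFSet.notMem_empty _)
    · intro h
      refine ⟨hρ, fun ρ' s' h1 h2 => ?_⟩
      have h3 : val x.1 (ρ' : ZFSet.{0}) ∈ val x.1 (ρ : ZFSet.{0}) :=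
        (ec_mem_valM ρ x _).2 ⟨ρ', s', h1, h2, rfl⟩
      rw [h] at h3
      exact ZFSet.notMem_empty _ h3
  | succ n ih =>
    intro ρ x hρ
    have e : ecWn T (n + 1) = ecFs T (ecSt (ecWn T n)) := by
      unfold ecWn
      rw [Function.iterate_succ_apply']
    rw [e, ec_setW_step]
    constructor
    · rintro ⟨-, h1, ρ', s', h2, h3, h4⟩
      have h5 := (ih ρ' x (ec_mem_trans hT hρ h2)).1 h4
      apply ZFSet.ext
      intro z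
      rw [ec_mem_valM, ecZ, ZFSet.mem_singleton]
      constructor
      · rintro ⟨ρ'', s'', h6, h7, h8⟩
        rw [h8]
        exact (ih ρ'' x (ec_mem_trans hT hρ h6)).1 (h1 ρ'' s'' h6 h7)
      · intro hz
        exact ⟨ρ', s', h2, h3, by rw [hz, h5]⟩
    · intro h
      refine ⟨hρ, fun ρ' s' h1 h2 => ?_, ?_⟩
      · have h3 : val x.1 (ρ' : ZFSet.{0}) ∈ val x.1 (ρ : ZFSet.{0}) :=
          (ec_mem_valM ρ x _).2 ⟨ρ', s', h1, h2, rfl⟩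
        rw [h, ecZ, ZFSet.mem_singleton] at h3
        exact (ih ρ' x (ec_mem_trans hT hρ h1)).2 h3
      · have h3 : ecZ n ∈ val x.1 (ρ : ZFSet.{0}) := by
          rw [h, ecZ, ZFSet.mem_singleton]
        obtain ⟨ρ', s', h1, h2, h4⟩ := (ec_mem_valM ρ x _).1 h3
        exact ⟨ρ', s', h1, h2, (ih ρ' x (ec_mem_trans hT hρ h1)).2 h4.symm⟩

/-- the digit `i` of the real named by `σ` is one -/
def ecInn (T σ i : M) (x : XM M) : Prop :=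
  ∃ w : M, (∃ n, i = mnat n ∧ w = (fun w => ecFs T (ecSt w))^[n] (ecW0 T)) ∧
    ∃ ρ s : M, (mpair ρ s : ZFSet.{0}) ∈ (σ : ZFSet.{0}) ∧ Seg s x ∧ ecSetW w ρ x

theorem FF.ec_inn (T σ : M) {g : Γ → M} (hg : F M g) : FF M (fun γ x => ecInn T σ (g γ) x) := by
  refine FF.ex (P := fun γ w x => (∃ n, g γ = mnat n ∧ w = (fun w => CohenE.ecFs T (ecSt w))^[n] (ecW0 T)) ∧
    ∃ ρ s : M, (mpair ρ s : ZFSet.{0}) ∈ (σ : ZFSet.{0}) ∧ Seg s x ∧ ecSetW w ρ x) ?_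
  refine FF.and (FF.const ?_) ?_
  · exact D.comp (D.ecIter0 (F.ecStep0 T) (ecW0 T)) (m := fun p : Γ × M => (g p.1, p.2))
      (CM.pair (CM.of hg.w) F.snd)
  · exact FF.ex (P := fun (p : Γ × M) ρ x => ∃ s : M,
        (mpair ρ s : ZFSet.{0}) ∈ (σ : ZFSet.{0}) ∧ Seg s x ∧ ecSetW p.2 ρ x)
      (FF.ex (P := fun (p : (Γ × M) × M) s x =>
        (mpair p.2 s : ZFSet.{0}) ∈ (σ : ZFSet.{0}) ∧ Seg s x ∧ ecSetW p.1.2 p.2 x)
        (FF.and (FF.const (D.mem (F.pair F.snd.w F.snd) (F.const _))) (FF.and (FF.seg F.snd)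
          (FF.ec_setW F.snd.w.w F.snd.w))))

theorem ec_inn_iff {T σ : M} (hσ : (σ : ZFSet.{0}) ∈ (T : ZFSet.{0}))
    (hT : ∀ b ∈ (T : ZFSet.{0}), ∀ c ∈ b, c ∈ (T : ZFSet.{0})) (n : ℕ) (x : XM M) :
    ecInn T σ (mnat n) x ↔ ecZ n ∈ val x.1 (σ : ZFSet.{0}) := by
  rw [ec_mem_valM]
  constructor
  · rintro ⟨w, ⟨m, hm, hw⟩, ρ, s, h1, h2, h3⟩
    have hmn := mnat_inj hm
    subst hmn
    have h4 : ecSetW (ecWn T n) ρ x := by
      unfold ecWn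
      rw [← hw]
      exact h3
    exact ⟨ρ, s, h1, h2, ((ec_setW_iter hT n ρ x (ec_mem_trans hT hσ h1)).1 h4).symm⟩
  · rintro ⟨ρ, s, h1, h2, h3⟩
    exact ⟨ecWn T n, ⟨n, rfl, rfl⟩, ρ, s, h1, h2,
      (ec_setW_iter hT n ρ x (ec_mem_trans hT hσ h1)).2 h3.symm⟩

/-- `t` is an initial segment of the real named by `σ` -/
def ecPP (T σ t : M) (x : XM M) : Prop :=
  (t : ZFSet.{0}) ∈ ((cnd : M) : ZFSet.{0}) ∧ ∀ i : M, (i : ZFSet.{0}) ∈ ((om : M) : ZFSet.{0}) →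
    (((mpair i (mbit true) : ZFSet.{0}) ∈ (t : ZFSet.{0}) → ecInn T σ i x) ∧
     ((mpair i (mbit false) : ZFSet.{0}) ∈ (t : ZFSet.{0}) → ¬ ecInn T σ i x))

theorem FF.ec_pp (T σ : M) {g : Γ → M} (hg : F M g) : FF M (fun γ x => ecPP T σ (g γ) x) := by
  refine FF.and (FF.const (D.mem hg (F.const _))) ?_
  refine FF.all (P := fun γ i x => (i : ZFSet.{0}) ∈ ((om : M) : ZFSet.{0}) →
    (((mpair i (mbit true) : ZFSet.{0}) ∈ (g γ : ZFSet.{0}) → ecInn T σ i x) ∧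
     ((mpair i (mbit false) : ZFSet.{0}) ∈ (g γ : ZFSet.{0}) → ¬ ecInn T σ i x))) ?_
  refine FF.imp (FF.const (D.mem F.snd (F.const _))) (FF.and ?_ ?_)
  · exact FF.imp (FF.const (D.mem (F.pair F.snd (F.const _)) hg.w)) (FF.ec_inn T σ F.snd)
  · exact FF.imp (FF.const (D.mem (F.pair F.snd (F.const _)) hg.w)) (FF.not (FF.ec_inn T σ F.snd))

/-- if `x` and `y` generate the same extension then `y` is coded from `x` by a set of pairs of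
conditions in `M` -/
theorem exists_code (x y : XM M) (h : Ext M x.1 = Ext M y.1) :
    ∃ c : M, ∀ t : M, Seg t y ↔ ∃ s : M, Seg s x ∧
      (mpair s t : ZFSet.{0}) ∈ (c : ZFSet.{0}) := by
  obtain ⟨Y, hY⟩ := ec_exists_Y (M := M)
  have h1 : val y.1 (Y : ZFSet.{0}) ∈ Ext M y.1 := ⟨Y, Y.2, rfl⟩
  rw [← h] at h1
  obtain ⟨σ', hσ', hval⟩ := h1
  obtain ⟨σ, rfl⟩ : ∃ σ : M, σ' = (σ : ZFSet.{0}) := ⟨⟨σ', hσ'⟩, rfl⟩
  obtain ⟨T, hσT, hT⟩ := exists_tc σ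
  have hin : ∀ n, ecInn T σ (mnat n) x ↔ y.1 n = true := by
    intro n
    rw [ec_inn_iff hσT hT, ← hval, hY]
    constructor
    · rintro ⟨m, hm, e⟩
      rw [ecZ_inj _ _ e]
      exact hm
    · intro hn
      exact ⟨n, hn, rfl⟩
  have hPP : ∀ t : M, ecPP T σ t x ↔ Seg t y := by
    intro t
    constructor
    · rintro ⟨hc, ht⟩
      obtain ⟨u, n, hu⟩ := (mem_cnd t).1 hc
      refine ⟨n, ?_⟩
      rw [hu, seg_eq]
      refine ⟨rfl, fun i hi => ?_⟩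
      have hi' := ht (mnat i) ((mem_om _).2 ⟨i, rfl⟩)
      have hmem : ZFSet.pair (nat i) (bit (u i)) ∈ (t : ZFSet.{0}) := by
        rw [hu, mem_seg]
        exact ⟨i, hi, rfl⟩
      cases hb : u i with
      | true =>
        rw [hb] at hmem
        exact ((hin i).1 (hi'.1 hmem)).symm
      | false =>
        rw [hb] at hmem
        have h2 := hi'.2 hmem
        rw [hin i] at h2
        simpa using h2
    · rintro ⟨n, hn⟩
      refine ⟨(mem_cnd t).2 ⟨y.1, n, hn⟩, fun i hi => ?_⟩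
      obtain ⟨j, rfl⟩ := (mem_om i).1 hi
      have key : ∀ b : Bool, ((mpair (mnat j) (mbit b) : M) : ZFSet.{0}) ∈ (t : ZFSet.{0}) →
          y.1 j = b := by
        intro b hb
        rw [hn] at hb
        have hb' : ZFSet.pair (nat j) (bit b) ∈ seg y.1 n := hb
        rw [mem_seg] at hb'
        obtain ⟨k, hk, e⟩ := hb'
        rw [ZFSet.pair_inj] at e
        have e1 := nat_inj e.1
        have e2 := bit_inj e.2
        rw [e1, ← e2]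
      rw [hin j]
      refine ⟨fun hb => key true hb, fun hb => ?_⟩
      rw [key false hb]
      simp
  have hD : D M (fun q : M × M => ∃ t s : M, q.2 = mpair s t ∧ Frc (ecPP T σ t) s) := by
    refine D.ex (D.ex (D.and (D.eq F.snd.w.w (F.pair F.snd F.snd.w)) ?_))
    exact (FF.ec_pp T σ (g := fun q : (M × M) × M => q.2) F.snd).df
  obtain ⟨c, hc⟩ := exists_sep (Γ := M) (Q := fun _ p => ∃ t s : M, p = mpair s t ∧
    Frc (ecPP T σ t) s) hD memp (mprod cnd cnd)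
  have hop : ∀ t : M, Op (fun x => ecPP T σ t x) := fun t =>
    (FF.ec_pp T σ (g := fun t : M => t) (F.var 0)).op t
  refine ⟨c, fun t => ?_⟩
  rw [← hPP t]
  constructor
  · intro ht
    obtain ⟨s, hs, hf⟩ := hop t x ht
    exact ⟨s, hs, (hc _).2 ⟨(pair_mem_mprod _ _ _ _).2 ⟨hs.mem_cnd, ht.1⟩, t, s, rfl, hf⟩⟩
  · rintro ⟨s, hs, hst⟩
    obtain ⟨-, t', s', e, hf⟩ := (hc _).1 hst
    rw [mpair_inj] at e
    rw [e.2]
    rw [e.1] at hs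
    exact hf x hs

end CohenE
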