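import Pool.Agent.Helper212.CohenE.Levels
import Pool.Agent.Helper212.CohenE.Val

/-! `E_M` is hyperfinite. -/

namespace CohenE

open ZFSet

set_option linter.unusedSectionVars false

variable {M : Set ZFSet.{0}} [hM : Fact (CTM M)]
variable {Γ Δ : Type 1} [Ctx M Γ] [Ctx M Δ]

instance instCountableM : Countable M := hM.out.countable.to_subtype

instance instNonemptyM : Nonempty M := ⟨memp⟩

theorem measurable_seg (t : M) : MeasurableSet {x : XM M | Seg t x} := by
  by_cases ht : IsCond (t : ZFSet.{0})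
  · obtain ⟨z, n, hz⟩ := ht
    have h1 : {x : XM M | Seg t x} = ⋂ i : ℕ, ⋂ _ : i < n, {x : XM M | x.1 i = z i} := by
      ext x
      simp only [Set.mem_ofPred_eq, Set.mem_iInter]
      constructor
      · rintro ⟨m, hm⟩
        rw [hz, seg_eq] at hm
        exact fun i hi => (hm.2 i hi).symm
      · intro h
        refine ⟨n, ?_⟩
        rw [hz, seg_eq]
        exact ⟨rfl, fun i hi => (h i hi).symm⟩
    rw [h1]
    refine MeasurableSet.iInter fun i => MeasurableSet.iInter fun _ => ?_
    have hm : Measurable (fun x : XM M => x.1 i) :=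
      (measurable_pi_apply i).comp measurable_subtype_coe
    exact hm (measurableSet_singleton (z i))
  · have : {x : XM M | Seg t x} = ∅ := by
      ext x
      simp only [Set.mem_ofPred_eq, Set.mem_empty_iff_false, iff_false]
      exact fun h => ht h.isCond
    rw [this]; exact MeasurableSet.empty

theorem measurable_op {P : XM M → Prop} (h : Op P) : MeasurableSet {x : XM M | P x} := by
  have h1 : {x : XM M | P x} = ⋃ s : M, ⋃ _ : Frc P s, {x : XM M | Seg s x} := by
    ext x
    simp only [Set.mem_ofPred_eq, Set.mem_iUnion]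
    constructor
    · intro hx
      obtain ⟨s, hs, hf⟩ := h x hx
      exact ⟨s, hf, hs⟩
    · rintro ⟨s, hf, hs⟩
      exact hf x hs
  rw [h1]
  exact MeasurableSet.iUnion fun s => MeasurableSet.iUnion fun _ => measurable_seg s

theorem measurable_CR {F : XM M → XM M → Prop} (h : CR M (fun _ : M => F))
    (hf : ∀ x, {y | F x y}.Finite) : MeasurableSet {p : XM M × XM M | F p.1 p.2} := by
  have h1 : {p : XM M × XM M | F p.1 p.2} =
      ⋂ t : M, ({p : XM M × XM M | Seg t p.2}ᶜ ∪ {p | ∃ y, F p.1 y ∧ Seg t y}) := by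
    ext ⟨x, y⟩
    simp only [Set.mem_ofPred_eq, Set.mem_iInter, Set.mem_union, Set.mem_compl_iff]
    constructor
    · intro hxy t
      by_cases ht : Seg t y
      · exact Or.inr ⟨y, hxy, ht⟩
      · exact Or.inl ht
    · intro hall
      obtain ⟨n, hn⟩ := exists_sep_fin y _ (hf x)
      rcases hall (sg y n) with h' | ⟨z, hz, hz'⟩
      · exact absurd (seg_sg y n) h'
      · rw [hn z hz hz']; exact hz
  rw [h1]
  refine MeasurableSet.iInter fun t => MeasurableSet.union ?_ ?_
  · exact ((measurable_seg t).preimage measurable_snd).compl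
  · exact (measurable_op (h.op (memp, t))).preimage measurable_fst

/-- the partial function given by `J c d`, made total -/
noncomputable def gfun (c d : M) (x : XM M) : XM M := by
  classical
  exact if h : ∃ y, J c d x y then h.choose else x

theorem gfun_eq {c d : M} {x y : XM M} (h : J c d x y) : gfun c d x = y := by
  unfold gfun
  rw [dif_pos ⟨y, h⟩]
  exact J_unique (Exists.choose_spec (⟨y, h⟩ : ∃ y, J c d x y)) h

theorem gfun_eq' {c d : M} {x : XM M} (h : ¬ ∃ y, J c d x y) : gfun c d x = x := by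
  unfold gfun
  rw [dif_neg h]

theorem measurable_J (c d t : M) : MeasurableSet {x : XM M | ∃ y, J c d x y ∧ Seg t y} :=
  measurable_op ((cr_J (Γ := M) c d).op (memp, t))

theorem measurable_gfun (c d : M) : Measurable (gfun c d) := by
  have hdom : MeasurableSet {x : XM M | ∃ y, J c d x y} := by
    have : {x : XM M | ∃ y, J c d x y} = ⋃ t : M, {x : XM M | ∃ y, J c d x y ∧ Seg t y} := by
      ext x
      simp only [Set.mem_ofPred_eq, Set.mem_iUnion]
      constructor
      · rintro ⟨y, hy⟩; exact ⟨sg y 0, y, hy, seg_sg _ _⟩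
      · rintro ⟨t, y, hy, -⟩; exact ⟨y, hy⟩
    rw [this]
    exact MeasurableSet.iUnion fun t => measurable_J c d t
  have hseg : ∀ t : M, MeasurableSet {x : XM M | Seg t (gfun c d x)} := by
    intro t
    have : {x : XM M | Seg t (gfun c d x)} = {x : XM M | ∃ y, J c d x y ∧ Seg t y} ∪
        ({x : XM M | ∃ y, J c d x y}ᶜ ∩ {x | Seg t x}) := by
      ext x
      simp only [Set.mem_ofPred_eq, Set.mem_union, Set.mem_inter_iff, Set.mem_compl_iff]
      by_cases h : ∃ y, J c d x y
      · obtain ⟨y, hy⟩ := h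
        rw [gfun_eq hy]
        constructor
        · intro h; exact Or.inl ⟨y, hy, h⟩
        · rintro (⟨z, hz, hz'⟩ | ⟨h', -⟩)
          · rw [J_unique hy hz]; exact hz'
          · exact absurd ⟨y, hy⟩ h'
      · rw [gfun_eq' h]
        constructor
        · intro h'; exact Or.inr ⟨h, h'⟩
        · rintro (⟨z, hz, -⟩ | ⟨-, h'⟩)
          · exact absurd ⟨z, hz⟩ h
          · exact h'
    rw [this]
    exact (measurable_J c d t).union (hdom.compl.inter (measurable_seg t))
  refine measurable_comap_iff.2 (measurable_pi_iff.2 fun k => ?_)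
  refine measurable_to_bool ?_
  have : ((fun x => (Subtype.val ∘ gfun c d) x k) ⁻¹' {true} : Set (XM M)) =
      ⋃ t : M, ⋃ _ : ZFSet.pair (nat k) (bit true) ∈ (t : ZFSet.{0}),
        {x : XM M | Seg t (gfun c d x)} := by
    ext x
    simp only [Set.mem_preimage, Function.comp, Set.mem_singleton_iff, Set.mem_iUnion,
      Set.mem_ofPred_eq]
    constructor
    · intro hx
      refine ⟨sg (gfun c d x) (k + 1), ?_, seg_sg _ _⟩
      show ZFSet.pair (nat k) (bit true) ∈ seg (gfun c d x).1 (k + 1)
      rw [mem_seg]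
      exact ⟨k, by omega, by rw [hx]⟩
    · rintro ⟨t, ht, n, hn⟩
      rw [hn, mem_seg] at ht
      obtain ⟨i, hi, e⟩ := ht
      rw [ZFSet.pair_inj] at e
      have h1 := nat_inj e.1
      subst h1
      exact (bit_inj e.2).symm
  rw [this]
  exact MeasurableSet.iUnion fun t => MeasurableSet.iUnion fun _ => hseg t

omit hM in
theorem hyperfinite_EM (M : Set ZFSet.{0}) (h : CTM M) : Hyperfinite (EM M) := by
  haveI : Fact (CTM M) := ⟨h⟩
  obtain ⟨q, hq⟩ := exists_surjective_nat (M × M)
  obtain ⟨F, hFc, hFe, hFf, hFm, hF3⟩ := exists_levels q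
  have hN : ∀ x y : XM M, EM M x y → ∃ i, J (q i).1 (q i).2 x y := by
    intro x y hxy
    obtain ⟨c, hc⟩ := exists_code x y hxy
    obtain ⟨d, hd⟩ := exists_code y x hxy.symm
    obtain ⟨i, hi⟩ := hq (c, d)
    refine ⟨i, ?_⟩
    rw [hi]
    exact ⟨hc, hd⟩
  have hN' : ∀ x y : XM M, EM M x y → ∃ i, ∀ n, i ≤ n → N q n x y := by
    intro x y hxy
    obtain ⟨i, hi⟩ := hN x y hxy
    exact ⟨i + 1, fun n hn => N_mono q hn (Or.inr (Or.inl hi))⟩
  exact index2 (fun x y => EM M x y) (EM M).iseqv (EM_measurable M h)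
    (fun i => gfun (q i).1 (q i).2) (fun i => measurable_gfun _ _)
    (fun x y hxy => by
      obtain ⟨i, hi⟩ := hN x y hxy
      exact ⟨i, gfun_eq hi⟩)
    F hFe (fun n => measurable_CR (hFc n) (hFf n)) hFf hFm
    (fun x y z hxy hyz => by
      obtain ⟨i, hi⟩ := hN' x y hxy
      obtain ⟨j, hj⟩ := hN' y z hyz
      obtain ⟨k, hk⟩ := hN' x z (hxy.trans hyz)
      exact ⟨i + j + k + 1, hF3 (i + j + k) x y z (hi _ (by omega)) (hj _ (by omega))
        (hk _ (by omega))⟩)

end CohenE
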