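import Pool.Agent.Helper212.CohenE.Defs

namespace CohenE



theorem mem_nat (n : ℕ) (z : ZFSet.{0}) : z ∈ nat n ↔ ∃ m, m < n ∧ z = nat m := by
  induction n with
  | zero => simp [nat]
  | succ n ih =>
    rw [nat, ZFSet.mem_insert_iff, ih]
    constructor
    · rintro (h | ⟨m, hm, h⟩)
      · exact ⟨n, Nat.lt_succ_self n, h⟩
      · exact ⟨m, Nat.lt_succ_of_lt hm, h⟩
    · rintro ⟨m, hm, h⟩
      rcases Nat.lt_succ_iff_lt_or_eq.1 hm with h1 | h1
      · exact Or.inr ⟨m, h1, h⟩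
      · subst h1; exact Or.inl h

theorem nat_inj : Function.Injective nat := by
  intro a b h
  rcases lt_trichotomy a b with h1 | h1 | h1
  · exfalso
    have : nat a ∈ nat b := (mem_nat b _).2 ⟨a, h1, rfl⟩
    rw [h] at this
    exact ZFSet.mem_irrefl _ this
  · exact h1
  · exfalso
    have : nat b ∈ nat a := (mem_nat a _).2 ⟨b, h1, rfl⟩
    rw [h] at this
    exact ZFSet.mem_irrefl _ this

theorem bit_inj : Function.Injective bit := by
  intro a b h
  cases a <;> cases b <;> simp only [bit] at h ⊢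
  · have := nat_inj h
    simp at this
  · have := nat_inj h
    simp at this

theorem mem_seg (x : ℕ → Bool) (n : ℕ) (z : ZFSet.{0}) :
    z ∈ seg x n ↔ ∃ i, i < n ∧ z = ZFSet.pair (nat i) (bit (x i)) := by
  induction n with
  | zero => simp [seg]
  | succ n ih =>
    rw [seg, ZFSet.mem_insert_iff, ih]
    constructor
    · rintro (h | ⟨m, hm, h⟩)
      · exact ⟨n, Nat.lt_succ_self n, h⟩
      · exact ⟨m, Nat.lt_succ_of_lt hm, h⟩
    · rintro ⟨m, hm, h⟩
      rcases Nat.lt_succ_iff_lt_or_eq.1 hm with h1 | h1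
      · exact Or.inr ⟨m, h1, h⟩
      · subst h1; exact Or.inl h

theorem seg_subset (x y : ℕ → Bool) (n m : ℕ) :
    seg x n ⊆ seg y m ↔ n ≤ m ∧ ∀ i, i < n → x i = y i := by
  constructor
  · intro h
    have key : ∀ i, i < n → i < m ∧ x i = y i := by
      intro i hi
      have h1 : ZFSet.pair (nat i) (bit (x i)) ∈ seg x n := (mem_seg _ _ _).2 ⟨i, hi, rfl⟩
      obtain ⟨j, hj, e⟩ := (mem_seg _ _ _).1 (h h1)
      rw [ZFSet.pair_inj] at e
      have e1 := nat_inj e.1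
      have e2 := bit_inj e.2
      subst e1
      exact ⟨hj, e2⟩
    refine ⟨?_, fun i hi => (key i hi).2⟩
    rcases Nat.eq_zero_or_pos n with h0 | h0
    · omega
    · have := (key (n-1) (by omega)).1
      omega
  · rintro ⟨h1, h2⟩ z hz
    obtain ⟨i, hi, e⟩ := (mem_seg _ _ _).1 hz
    refine (mem_seg _ _ _).2 ⟨i, by omega, ?_⟩
    rw [e, h2 i hi]

theorem seg_eq (x y : ℕ → Bool) (n m : ℕ) :
    seg x n = seg y m ↔ n = m ∧ ∀ i, i < n → x i = y i := by
  constructor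
  · intro h
    have h1 : seg x n ⊆ seg y m := by
      intro z hz; rw [← h]; exact hz
    have h2 : seg y m ⊆ seg x n := by
      intro z hz; rw [h]; exact hz
    have a := (seg_subset _ _ _ _).1 h1
    have b := (seg_subset _ _ _ _).1 h2
    exact ⟨le_antisymm a.1 b.1, a.2⟩
  · rintro ⟨rfl, h⟩
    ext z
    rw [mem_seg, mem_seg]
    constructor
    · rintro ⟨i, hi, e⟩; exact ⟨i, hi, by rw [e, h i hi]⟩
    · rintro ⟨i, hi, e⟩; exact ⟨i, hi, by rw [e, h i hi]⟩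

/-- one step of the construction -/
theorem gen_step_aux (A : ZFSet.{0}) (x : ℕ → Bool) (n : ℕ) :
    ∃ (y : ℕ → Bool) (m : ℕ), n < m ∧ (∀ i, i < n → x i = y i) ∧ (IsDense A → seg y m ∈ A) := by
  by_cases hA : IsDense A
  · obtain ⟨t, ht, hst⟩ := hA.2 (seg x (n+1)) ⟨x, n+1, rfl⟩
    obtain ⟨y, m, rfl⟩ := hA.1 t ht
    have := (seg_subset _ _ _ _).1 hst
    exact ⟨y, m, by omega, fun i hi => this.2 i (by omega), fun _ => ht⟩
  · exact ⟨x, n+1, by omega, fun _ _ => rfl, fun h => absurd h hA⟩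

/-- a subset of a condition which is an initial segment -/
theorem exists_generic (M : Set ZFSet.{0}) (hM : M.Countable) (s : ZFSet.{0}) (hs : IsCond s) :
    ∃ y n, Generic M y ∧ s = seg y n := by
  obtain ⟨x₀, n₀, rfl⟩ := hs
  rcases M.eq_empty_or_nonempty with hE | hne
  · subst hE
    exact ⟨x₀, n₀, fun A hA => absurd hA (by simp), rfl⟩
  obtain ⟨e, he⟩ := hM.exists_eq_range hne
  choose Y m h1 h2 h3 using gen_step_aux
  let S : ℕ → (ℕ → Bool) × ℕ := fun k => Nat.rec (x₀, n₀) (fun k p => (Y (e k) p.1 p.2, m (e k) p.1 p.2)) k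
  have hS : ∀ k, S (k+1) = (Y (e k) (S k).1 (S k).2, m (e k) (S k).1 (S k).2) := fun k => rfl
  have hlen : ∀ k, k ≤ (S k).2 := by
    intro k
    induction k with
    | zero => exact Nat.zero_le _
    | succ k ih =>
      rw [hS]
      have := h1 (e k) (S k).1 (S k).2
      show k + 1 ≤ m (e k) (S k).1 (S k).2
      omega
  have hmono1 : ∀ k, (S k).2 ≤ (S (k+1)).2 := by
    intro k; rw [hS]; exact (h1 (e k) (S k).1 (S k).2).le
  have hmono : Monotone fun k => (S k).2 := monotone_nat_of_le_succ hmono1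
  have hagree : ∀ k l, k ≤ l → ∀ i, i < (S k).2 → (S k).1 i = (S l).1 i := by
    intro k l hkl
    induction l, hkl using Nat.le_induction with
    | base => intro i _; rfl
    | succ l hl ih =>
      intro i hi
      rw [ih i hi, hS]
      exact h2 (e l) (S l).1 (S l).2 i (lt_of_lt_of_le hi (hmono hl))
  let y : ℕ → Bool := fun i => (S (i+1)).1 i
  have hy : ∀ k i, i < (S k).2 → (S k).1 i = y i := by
    intro k i hi
    show (S k).1 i = (S (i+1)).1 i
    rcases le_total k (i+1) with h | h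
    · exact hagree k (i+1) h i hi
    · exact (hagree (i+1) k h i (lt_of_lt_of_le (Nat.lt_succ_self i) (hlen (i+1)))).symm
  refine ⟨y, n₀, ?_, ?_⟩
  · intro A hA hD
    have : A ∈ Set.range e := he ▸ hA
    obtain ⟨k, rfl⟩ := this
    refine ⟨(S (k+1)).2, ?_⟩
    have h4 : seg y (S (k+1)).2 = seg (S (k+1)).1 (S (k+1)).2 :=
      (seg_eq _ _ _ _).2 ⟨rfl, fun i hi => (hy (k+1) i hi).symm⟩
    rw [h4, hS]
    exact h3 (e k) (S k).1 (S k).2 hD
  · exact (seg_eq _ _ _ _).2 ⟨rfl, fun i hi => hy 0 i hi⟩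

/-- there are infinitely many ... : a generic avoiding nothing -- a filter meeting all dense sets
of `M` comes from a generic real -/
theorem filter_real (M : Set ZFSet.{0})
    (hD : ∀ s, IsCond s → ∃ A ∈ M, IsDense A ∧ ∀ t ∈ A, ¬ t ⊆ s)
    (G : ZFSet.{0} → Prop) (hG : ∀ s, G s → IsCond s)
    (hdown : ∀ s t, IsCond s → G t → s ⊆ t → G s)
    (hdir : ∀ s t, G s → G t → ∃ u, G u ∧ s ⊆ u ∧ t ⊆ u)
    (hmeet : ∀ A ∈ M, IsDense A → ∃ t ∈ A, G t) :
    ∃ y, Generic M y ∧ ∀ t, G t ↔ ∃ n, t = seg y n := by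
  have hG0 : G (seg (fun _ => false) 0) := by
    obtain ⟨A, hA, hA1, _⟩ := hD (seg (fun _ => false) 0) ⟨_, 0, rfl⟩
    obtain ⟨t, _, hGt⟩ := hmeet A hA hA1
    refine hdown _ t ⟨_, 0, rfl⟩ hGt ?_
    intro z hz
    obtain ⟨i, hi, _⟩ := (mem_seg _ _ _).1 hz
    omega
  have hlong : ∀ n, ∃ x m, n ≤ m ∧ G (seg x m) := by
    intro n
    induction n with
    | zero => exact ⟨_, 0, le_rfl, hG0⟩
    | succ n ih =>
      obtain ⟨x, m, hm, hx⟩ := ih
      obtain ⟨A, hA, hA1, hA2⟩ := hD (seg x m) ⟨_, m, rfl⟩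
      obtain ⟨t, htA, hGt⟩ := hmeet A hA hA1
      obtain ⟨u, hu, h1, h2⟩ := hdir _ _ hx hGt
      obtain ⟨y, k, rfl⟩ := hG u hu
      refine ⟨y, k, ?_, hu⟩
      by_contra hk
      obtain ⟨z, l, rfl⟩ := hG t hGt
      have a1 := (seg_subset _ _ _ _).1 h1
      have a2 := (seg_subset _ _ _ _).1 h2
      refine hA2 _ htA ((seg_subset _ _ _ _).2 ⟨by omega, fun i hi => ?_⟩)
      rw [a2.2 i hi, a1.2 i (by omega)]
  have hex : ∀ n, ∃ x, G (seg x n) := by
    intro n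
    obtain ⟨x, m, hm, hx⟩ := hlong n
    exact ⟨x, hdown _ _ ⟨x, n, rfl⟩ hx ((seg_subset _ _ _ _).2 ⟨hm, fun _ _ => rfl⟩)⟩
  choose X hX using hex
  let y : ℕ → Bool := fun i => X (i+1) i
  have hun : ∀ x n, G (seg x n) → ∀ i, i < n → x i = y i := by
    intro x n hx i hi
    obtain ⟨u, hu, h1, h2⟩ := hdir _ _ hx (hX (i+1))
    obtain ⟨z, k, rfl⟩ := hG u hu
    have a1 := (seg_subset _ _ _ _).1 h1
    have a2 := (seg_subset _ _ _ _).1 h2
    show x i = X (i+1) i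
    rw [a1.2 i hi, a2.2 i (Nat.lt_succ_self i)]
  have hiff : ∀ t, G t ↔ ∃ n, t = seg y n := by
    intro t
    constructor
    · intro ht
      obtain ⟨x, n, rfl⟩ := hG t ht
      exact ⟨n, (seg_eq _ _ _ _).2 ⟨rfl, hun x n ht⟩⟩
    · rintro ⟨n, rfl⟩
      have : seg y n = seg (X n) n := (seg_eq _ _ _ _).2 ⟨rfl, fun i hi => (hun _ n (hX n) i hi).symm⟩
      rw [this]; exact hX n
  refine ⟨y, ?_, hiff⟩
  intro A hA hAD
  obtain ⟨t, ht, hGt⟩ := hmeet A hA hAD
  obtain ⟨n, rfl⟩ := (hiff t).1 hGt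
  exact ⟨n, ht⟩

/-- only finitely many conditions of bounded length -/
theorem finite_below (t : ZFSet.{0}) (ht : IsCond t) :
    {s : ZFSet.{0} | IsCond s ∧ ∀ i b, ZFSet.pair i b ∈ s → ∃ b', ZFSet.pair i b' ∈ t}.Finite := by
  obtain ⟨y, m, rfl⟩ := ht
  let g : (Σ n : Fin (m+1), (Fin n → Bool)) → ZFSet.{0} := fun p =>
    seg (fun i => if h : i < (p.1 : ℕ) then p.2 ⟨i, h⟩ else false) p.1
  refine (Set.finite_range g).subset ?_
  rintro s ⟨⟨x, n, rfl⟩, h⟩
  have hn : n ≤ m := by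
    rcases Nat.eq_zero_or_pos n with h0 | h0
    · omega
    · obtain ⟨b', hb'⟩ := h (nat (n-1)) (bit (x (n-1))) ((mem_seg _ _ _).2 ⟨n-1, by omega, rfl⟩)
      obtain ⟨j, hj, e⟩ := (mem_seg _ _ _).1 hb'
      rw [ZFSet.pair_inj] at e
      have := nat_inj e.1
      omega
  refine ⟨⟨⟨n, by omega⟩, fun i => x i⟩, ?_⟩
  refine (seg_eq _ _ _ _).2 ⟨rfl, fun i hi => ?_⟩
  have hi' : i < n := hi
  simp [hi']

end CohenE
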