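import Pool.Agent.Helper212.CohenE.Basics
import Pool.Agent.Helper212.CohenE.Strings

/-! `ω`, products, Cohen conditions, choice, and definable iteration. -/

namespace CohenE

open ZFSet

variable {M : Set ZFSet.{0}} [hM : Fact (CTM M)]
variable {Γ Δ : Type 1} [Ctx M Γ] [Ctx M Δ]

theorem mnat_inj : Function.Injective (mnat (M := M)) := by
  intro m n e
  exact nat_inj (Subtype.ext_iff.1 e)

theorem mnat_succ (n : ℕ) : (mnat (n + 1) : M) = msucc (mnat n) := rfl

/-- being a natural number, as a formula -/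
def isN (x : M) : Prop :=
  (∀ y : M, (y : ZFSet.{0}) ∈ (x : ZFSet.{0}) → ∀ z : M, (z : ZFSet.{0}) ∈ (y : ZFSet.{0}) →
    (z : ZFSet.{0}) ∈ (x : ZFSet.{0})) ∧
  (∀ y : M, ((y : ZFSet.{0}) ∈ (x : ZFSet.{0}) ∨ y = x) → (y = memp ∨ ∃ z : M, y = msucc z))

theorem isN_iff (x : M) : isN x ↔ ∃ n, x = mnat n := by
  constructor
  · obtain ⟨x, hx⟩ := x
    induction x using ZFSet.inductionOn with
    | _ x ih =>
    intro h
    rcases h.2 ⟨x, hx⟩ (Or.inr rfl) with h0 | ⟨z, hz⟩
    · exact ⟨0, h0⟩
    · have hzx : (z : ZFSet.{0}) ∈ x := by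
        have := Subtype.ext_iff.1 hz
        simp only at this
        rw [this]
        show (z : ZFSet.{0}) ∈ insert (z : ZFSet.{0}) (z : ZFSet.{0})
        exact ZFSet.mem_insert _ _
      have hx' : ∀ w : ZFSet.{0}, w ∈ x ↔ w = z ∨ w ∈ (z : ZFSet.{0}) := by
        intro w
        have := Subtype.ext_iff.1 hz
        simp only at this
        rw [this]
        show w ∈ insert (z : ZFSet.{0}) (z : ZFSet.{0}) ↔ _
        exact ZFSet.mem_insert_iff
      obtain ⟨n, hn⟩ := ih z hzx z.2 (by
        constructor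
        · intro y hy w hw
          have h1 : (w : ZFSet.{0}) ∈ x := h.1 y ((hx' _).2 (Or.inr hy)) w hw
          rcases (hx' _).1 h1 with h2 | h2
          · rw [h2] at hw
            exact absurd hw (ZFSet.mem_asymm hy)
          · exact h2
        · intro y hy
          apply h.2 y
          left
          rcases hy with hy | hy
          · exact (hx' _).2 (Or.inr hy)
          · rw [hy]; exact hzx)
      refine ⟨n + 1, ?_⟩
      rw [mnat_succ, ← hn]
      exact hz
  · rintro ⟨n, rfl⟩
    constructor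
    · intro y hy z hz
      obtain ⟨m, hm, e⟩ := (mem_nat n _).1 hy
      rw [e] at hz
      obtain ⟨k, hk, e'⟩ := (mem_nat m _).1 hz
      exact (mem_nat n _).2 ⟨k, by omega, e'⟩
    · intro y hy
      have : ∃ m, y = mnat m := by
        rcases hy with hy | hy
        · obtain ⟨m, hm, e⟩ := (mem_nat n _).1 hy
          exact ⟨m, Subtype.ext e⟩
        · exact ⟨n, hy⟩
      obtain ⟨m, rfl⟩ := this
      cases m with
      | zero => exact Or.inl rfl
      | succ m => exact Or.inr ⟨mnat m, rfl⟩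

theorem D.isN0 : D M (fun x : M => isN x) := by
  refine D.and (D.all (D.imp (D.mem (by first | exact F.var 0 | exact F.var 1 | exact F.var 2 | exact F.var 3 | exact F.var 4 | exact F.var 5 | exact F.var 6 | exact F.var 7 | exact F.const _) (by first | exact F.var 0 | exact F.var 1 | exact F.var 2 | exact F.var 3 | exact F.var 4 | exact F.var 5 | exact F.var 6 | exact F.var 7 | exact F.const _)) (D.all (D.imp (D.mem (by first | exact F.var 0 | exact F.var 1 | exact F.var 2 | exact F.var 3 | exact F.var 4 | exact F.var 5 | exact F.var 6 | exact F.var 7 | exact F.const _) (by first | exact F.var 0 | exact F.var 1 | exact F.var 2 | exact F.var 3 | exact F.var 4 | exact F.var 5 | exact F.var 6 | exact F.var 7 | exact F.const _))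
    (D.mem (by first | exact F.var 0 | exact F.var 1 | exact F.var 2 | exact F.var 3 | exact F.var 4 | exact F.var 5 | exact F.var 6 | exact F.var 7 | exact F.const _) (by first | exact F.var 0 | exact F.var 1 | exact F.var 2 | exact F.var 3 | exact F.var 4 | exact F.var 5 | exact F.var 6 | exact F.var 7 | exact F.const _)))))) (D.all (D.imp (D.or (D.mem (by first | exact F.var 0 | exact F.var 1 | exact F.var 2 | exact F.var 3 | exact F.var 4 | exact F.var 5 | exact F.var 6 | exact F.var 7 | exact F.const _) (by first | exact F.var 0 | exact F.var 1 | exact F.var 2 | exact F.var 3 | exact F.var 4 | exact F.var 5 | exact F.var 6 | exact F.var 7 | exact F.const _))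
      (D.eq (by first | exact F.var 0 | exact F.var 1 | exact F.var 2 | exact F.var 3 | exact F.var 4 | exact F.var 5 | exact F.var 6 | exact F.var 7 | exact F.const _) (by first | exact F.var 0 | exact F.var 1 | exact F.var 2 | exact F.var 3 | exact F.var 4 | exact F.var 5 | exact F.var 6 | exact F.var 7 | exact F.const _))) (D.or (D.eq (by first | exact F.var 0 | exact F.var 1 | exact F.var 2 | exact F.var 3 | exact F.var 4 | exact F.var 5 | exact F.var 6 | exact F.var 7 | exact F.const _) (by first | exact F.var 0 | exact F.var 1 | exact F.var 2 | exact F.var 3 | exact F.var 4 | exact F.var 5 | exact F.var 6 | exact F.var 7 | exact F.const _)) (D.ex (D.eq (by first | exact F.var 0 | exact F.var 1 | exact F.var 2 | exact F.var 3 | exact F.var 4 | exact F.var 5 | exact F.var 6 | exact F.var 7 | exact F.const _)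
        (F.succ (by first | exact F.var 0 | exact F.var 1 | exact F.var 2 | exact F.var 3 | exact F.var 4 | exact F.var 5 | exact F.var 6 | exact F.var 7 | exact F.const _)))))))

theorem exists_omega : ∃ w : M, ∀ z : M, (z : ZFSet.{0}) ∈ (w : ZFSet.{0}) ↔ ∃ n, z = mnat n := by
  obtain ⟨w, hw, h0, hs⟩ := hM.out.infinity
  obtain ⟨b, hb⟩ := exists_sep (Γ := M) (Q := fun _ x => isN x)
    (D.comp D.isN0 (m := fun p : M × M => p.2) (CM.of F.snd)) memp ⟨w, hw⟩
  refine ⟨b, fun z => ?_⟩
  rw [hb, isN_iff]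
  constructor
  · exact fun h => h.2
  · rintro ⟨n, rfl⟩
    refine ⟨?_, n, rfl⟩
    induction n with
    | zero => exact h0
    | succ n ih => exact hs _ ih

/-- `ω` in `M` -/
noncomputable def om : M := exists_omega.choose

theorem mem_om (z : M) : (z : ZFSet.{0}) ∈ ((om : M) : ZFSet.{0}) ↔ ∃ n, z = mnat n :=
  exists_omega.choose_spec z

/-- products -/
theorem exists_prod (a b : M) : ∃ c : M, ∀ z : M, (z : ZFSet.{0}) ∈ (c : ZFSet.{0}) ↔
    ∃ x y : M, (x : ZFSet.{0}) ∈ (a : ZFSet.{0}) ∧ (y : ZFSet.{0}) ∈ (b : ZFSet.{0}) ∧ z = mpair x y := by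
  obtain ⟨p, hp, hp'⟩ := hM.out.power _ (union_memM a.2 b.2)
  obtain ⟨q, hq, hq'⟩ := hM.out.power _ hp
  have hD : D M (fun p : (M × M) × M => ∃ x y : M, (x : ZFSet.{0}) ∈ (p.1.1 : ZFSet.{0}) ∧
      (y : ZFSet.{0}) ∈ (p.1.2 : ZFSet.{0}) ∧ p.2 = mpair x y) :=
    D.ex (D.ex (D.and (D.mem (by first | exact F.var 0 | exact F.var 1 | exact F.var 2 | exact F.var 3 | exact F.var 4 | exact F.var 5 | exact F.var 6 | exact F.var 7 | exact F.const _) (by first | exact F.var 0 | exact F.var 1 | exact F.var 2 | exact F.var 3 | exact F.var 4 | exact F.var 5 | exact F.var 6 | exact F.var 7 | exact F.const _)) (D.and (D.mem (by first | exact F.var 0 | exact F.var 1 | exact F.var 2 | exact F.var 3 | exact F.var 4 | exact F.var 5 | exact F.var 6 | exact F.var 7 | exact F.const _) (by first | exact F.var 0 | exact F.var 1 | exact F.var 2 | exact F.var 3 | exact F.var 4 | exact F.var 5 | exact F.var 6 | exact F.var 7 | exact F.const _))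
      (D.eq (by first | exact F.var 0 | exact F.var 1 | exact F.var 2 | exact F.var 3 | exact F.var 4 | exact F.var 5 | exact F.var 6 | exact F.var 7 | exact F.const _) (F.pair (by first | exact F.var 0 | exact F.var 1 | exact F.var 2 | exact F.var 3 | exact F.var 4 | exact F.var 5 | exact F.var 6 | exact F.var 7 | exact F.const _) (by first | exact F.var 0 | exact F.var 1 | exact F.var 2 | exact F.var 3 | exact F.var 4 | exact F.var 5 | exact F.var 6 | exact F.var 7 | exact F.const _))))))
  obtain ⟨c, hc⟩ := exists_sep (Γ := M × M) (Q := fun p z => ∃ x y : M,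
    (x : ZFSet.{0}) ∈ (p.1 : ZFSet.{0}) ∧ (y : ZFSet.{0}) ∈ (p.2 : ZFSet.{0}) ∧ z = mpair x y)
    hD (a, b) ⟨q, hq⟩
  refine ⟨c, fun z => ?_⟩
  rw [hc]
  constructor
  · exact fun h => h.2
  · rintro ⟨x, y, hx, hy, rfl⟩
    refine ⟨?_, x, y, hx, hy, rfl⟩
    show ZFSet.pair (x : ZFSet.{0}) y ∈ q
    rw [hq' _ (pair_memM x.2 y.2)]
    intro u hu
    rw [ZFSet.pair, ZFSet.mem_pair] at hu
    rcases hu with rfl | rfl
    · rw [hp' _ (single_memM x.2)]
      intro v hv
      rw [ZFSet.mem_singleton] at hv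
      subst hv
      exact ZFSet.mem_union.2 (Or.inl hx)
    · rw [hp' _ (upair_memM x.2 y.2)]
      intro v hv
      rw [ZFSet.mem_pair] at hv
      rcases hv with rfl | rfl
      · exact ZFSet.mem_union.2 (Or.inl hx)
      · exact ZFSet.mem_union.2 (Or.inr hy)

noncomputable def mprod (a b : M) : M := (exists_prod a b).choose

theorem mem_mprod (a b z : M) : (z : ZFSet.{0}) ∈ (mprod a b : ZFSet.{0}) ↔
    ∃ x y : M, (x : ZFSet.{0}) ∈ (a : ZFSet.{0}) ∧ (y : ZFSet.{0}) ∈ (b : ZFSet.{0}) ∧ z = mpair x y :=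
  (exists_prod a b).choose_spec z

theorem pair_mem_mprod (a b x y : M) : (mpair x y : ZFSet.{0}) ∈ (mprod a b : ZFSet.{0}) ↔
    (x : ZFSet.{0}) ∈ (a : ZFSet.{0}) ∧ (y : ZFSet.{0}) ∈ (b : ZFSet.{0}) := by
  rw [mem_mprod]
  constructor
  · rintro ⟨x', y', h, h', e⟩
    rw [mpair_inj] at e
    rw [e.1, e.2]
    exact ⟨h, h'⟩
  · rintro ⟨h, h'⟩
    exact ⟨x, y, h, h', rfl⟩

/-- being a Cohen condition, as a formula -/
def isC (s : M) : Prop :=
  ∃ n : M, isN n ∧
    (∀ z : M, (z : ZFSet.{0}) ∈ (s : ZFSet.{0}) → ∃ i b : M, (i : ZFSet.{0}) ∈ (n : ZFSet.{0}) ∧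
      (b = mbit false ∨ b = mbit true) ∧ z = mpair i b) ∧
    (∀ i : M, (i : ZFSet.{0}) ∈ (n : ZFSet.{0}) → ∃ b : M,
      (mpair i b : ZFSet.{0}) ∈ (s : ZFSet.{0}) ∧
      ∀ b' : M, (mpair i b' : ZFSet.{0}) ∈ (s : ZFSet.{0}) → b' = b)

theorem isC_iff (s : M) : isC s ↔ IsCond (s : ZFSet.{0}) := by
  constructor
  · rintro ⟨n, hn, h1, h2⟩
    obtain ⟨n, rfl⟩ := (isN_iff n).1 hn
    classical
    refine ⟨fun i => decide (ZFSet.pair (nat i) (bit true) ∈ (s : ZFSet.{0})), n, ?_⟩
    have h3 : ∀ i < n, ∃ b : Bool, ZFSet.pair (nat i) (bit b) ∈ (s : ZFSet.{0}) ∧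
        ∀ b' : M, ZFSet.pair (nat i) (b' : ZFSet.{0}) ∈ (s : ZFSet.{0}) → (b' : ZFSet.{0}) = bit b := by
      intro i hi
      obtain ⟨b, hb, hb'⟩ := h2 (mnat i) ((mem_nat n _).2 ⟨i, hi, rfl⟩)
      obtain ⟨i', b'', hi', hb'', e⟩ := h1 _ hb
      rw [mpair_inj] at e
      obtain ⟨e1, e2⟩ := e
      rw [← e2] at hb''
      rcases hb'' with e3 | e3
      · refine ⟨false, ?_, ?_⟩
        · rw [e3] at hb; exact hb
        · intro b' h; rw [hb' b' h, e3]; rfl
      · refine ⟨true, ?_, ?_⟩
        · rw [e3] at hb; exact hb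
        · intro b' h; rw [hb' b' h, e3]; rfl
    have h4 : ∀ i < n, ∀ b : Bool, ZFSet.pair (nat i) (bit b) ∈ (s : ZFSet.{0}) ↔
        b = decide (ZFSet.pair (nat i) (bit true) ∈ (s : ZFSet.{0})) := by
      intro i hi b
      obtain ⟨b0, hb0, hb0'⟩ := h3 i hi
      have h5 : ∀ b, ZFSet.pair (nat i) (bit b) ∈ (s : ZFSet.{0}) ↔ b = b0 := by
        intro b
        constructor
        · intro h; exact bit_inj (hb0' (mbit b) h)
        · rintro rfl; exact hb0
      have h6 : decide (ZFSet.pair (nat i) (bit true) ∈ (s : ZFSet.{0})) = b0 := by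
        cases b0 with
        | false => rw [decide_eq_false_iff_not, h5]; simp
        | true => rw [decide_eq_true_iff, h5]
      rw [h5, h6]
    apply ZFSet.ext
    intro z
    rw [mem_seg]
    constructor
    · intro hz
      obtain ⟨i, b, hi, hb, e⟩ := h1 ⟨z, hM.out.trans _ s.2 _ hz⟩ hz
      obtain ⟨k, hk, e'⟩ := (mem_nat n _).1 hi
      have e1 : z = ZFSet.pair (i : ZFSet.{0}) (b : ZFSet.{0}) := Subtype.ext_iff.1 e
      obtain ⟨b', hb'⟩ : ∃ b' : Bool, (b : ZFSet.{0}) = bit b' := by
        rcases hb with rfl | rfl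
        · exact ⟨false, rfl⟩
        · exact ⟨true, rfl⟩
      rw [e', hb'] at e1
      rw [e1] at hz
      refine ⟨k, hk, ?_⟩
      rw [e1, ← (h4 k hk b').1 hz]
    · rintro ⟨i, hi, rfl⟩
      exact (h4 i hi _).2 rfl
  · rintro ⟨x, n, hs⟩
    refine ⟨mnat n, (isN_iff _).2 ⟨n, rfl⟩, ?_, ?_⟩
    · intro z hz
      rw [hs, mem_seg] at hz
      obtain ⟨i, hi, e⟩ := hz
      refine ⟨mnat i, mbit (x i), (mem_nat n _).2 ⟨i, hi, rfl⟩, ?_, Subtype.ext e⟩
      cases x i <;> simp
    · intro i hi
      obtain ⟨k, hk, e⟩ := (mem_nat n _).1 hi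
      refine ⟨mbit (x k), ?_, ?_⟩
      · rw [hs]
        show ZFSet.pair (i : ZFSet.{0}) (bit (x k)) ∈ seg x n
        rw [e, mem_seg]
        exact ⟨k, hk, rfl⟩
      · intro b' hb'
        rw [hs] at hb'
        change ZFSet.pair (i : ZFSet.{0}) (b' : ZFSet.{0}) ∈ seg x n at hb'
        rw [e, mem_seg] at hb'
        obtain ⟨k', hk', e'⟩ := hb'
        rw [ZFSet.pair_inj] at e'
        have := nat_inj e'.1
        subst this
        exact Subtype.ext e'.2

theorem D.isC0 : D M (fun s : M => isC s) := by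
  refine D.ex (D.and (D.comp D.isN0 (m := fun p : M × M => p.2) (CM.of F.snd)) (D.and
    (D.all (D.imp (D.mem (by first | exact F.var 0 | exact F.var 1 | exact F.var 2 | exact F.var 3 | exact F.var 4 | exact F.var 5 | exact F.var 6 | exact F.var 7 | exact F.const _) (by first | exact F.var 0 | exact F.var 1 | exact F.var 2 | exact F.var 3 | exact F.var 4 | exact F.var 5 | exact F.var 6 | exact F.var 7 | exact F.const _)) (D.ex (D.ex (D.and (D.mem (by first | exact F.var 0 | exact F.var 1 | exact F.var 2 | exact F.var 3 | exact F.var 4 | exact F.var 5 | exact F.var 6 | exact F.var 7 | exact F.const _) (by first | exact F.var 0 | exact F.var 1 | exact F.var 2 | exact F.var 3 | exact F.var 4 | exact F.var 5 | exact F.var 6 | exact F.var 7 | exact F.const _))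
      (D.and (D.or (D.eq (by first | exact F.var 0 | exact F.var 1 | exact F.var 2 | exact F.var 3 | exact F.var 4 | exact F.var 5 | exact F.var 6 | exact F.var 7 | exact F.const _) (by first | exact F.var 0 | exact F.var 1 | exact F.var 2 | exact F.var 3 | exact F.var 4 | exact F.var 5 | exact F.var 6 | exact F.var 7 | exact F.const _)) (D.eq (by first | exact F.var 0 | exact F.var 1 | exact F.var 2 | exact F.var 3 | exact F.var 4 | exact F.var 5 | exact F.var 6 | exact F.var 7 | exact F.const _) (by first | exact F.var 0 | exact F.var 1 | exact F.var 2 | exact F.var 3 | exact F.var 4 | exact F.var 5 | exact F.var 6 | exact F.var 7 | exact F.const _)))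
        (D.eq (by first | exact F.var 0 | exact F.var 1 | exact F.var 2 | exact F.var 3 | exact F.var 4 | exact F.var 5 | exact F.var 6 | exact F.var 7 | exact F.const _) (F.pair (by first | exact F.var 0 | exact F.var 1 | exact F.var 2 | exact F.var 3 | exact F.var 4 | exact F.var 5 | exact F.var 6 | exact F.var 7 | exact F.const _) (by first | exact F.var 0 | exact F.var 1 | exact F.var 2 | exact F.var 3 | exact F.var 4 | exact F.var 5 | exact F.var 6 | exact F.var 7 | exact F.const _)))))))))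
    (D.all (D.imp (D.mem (by first | exact F.var 0 | exact F.var 1 | exact F.var 2 | exact F.var 3 | exact F.var 4 | exact F.var 5 | exact F.var 6 | exact F.var 7 | exact F.const _) (by first | exact F.var 0 | exact F.var 1 | exact F.var 2 | exact F.var 3 | exact F.var 4 | exact F.var 5 | exact F.var 6 | exact F.var 7 | exact F.const _)) (D.ex (D.and
      (D.mem (F.pair (by first | exact F.var 0 | exact F.var 1 | exact F.var 2 | exact F.var 3 | exact F.var 4 | exact F.var 5 | exact F.var 6 | exact F.var 7 | exact F.const _) (by first | exact F.var 0 | exact F.var 1 | exact F.var 2 | exact F.var 3 | exact F.var 4 | exact F.var 5 | exact F.var 6 | exact F.var 7 | exact F.const _)) (by first | exact F.var 0 | exact F.var 1 | exact F.var 2 | exact F.var 3 | exact F.var 4 | exact F.var 5 | exact F.var 6 | exact F.var 7 | exact F.const _))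
      (D.all (D.imp (D.mem (F.pair (by first | exact F.var 0 | exact F.var 1 | exact F.var 2 | exact F.var 3 | exact F.var 4 | exact F.var 5 | exact F.var 6 | exact F.var 7 | exact F.const _) (by first | exact F.var 0 | exact F.var 1 | exact F.var 2 | exact F.var 3 | exact F.var 4 | exact F.var 5 | exact F.var 6 | exact F.var 7 | exact F.const _)) (by first | exact F.var 0 | exact F.var 1 | exact F.var 2 | exact F.var 3 | exact F.var 4 | exact F.var 5 | exact F.var 6 | exact F.var 7 | exact F.const _))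
        (D.eq (by first | exact F.var 0 | exact F.var 1 | exact F.var 2 | exact F.var 3 | exact F.var 4 | exact F.var 5 | exact F.var 6 | exact F.var 7 | exact F.const _) (by first | exact F.var 0 | exact F.var 1 | exact F.var 2 | exact F.var 3 | exact F.var 4 | exact F.var 5 | exact F.var 6 | exact F.var 7 | exact F.const _))))))))))

theorem exists_cnd : ∃ c : M, ∀ s : M, (s : ZFSet.{0}) ∈ (c : ZFSet.{0}) ↔ IsCond (s : ZFSet.{0}) := by
  obtain ⟨p, hp, hp'⟩ := hM.out.power _ (mprod om (⟨_, upair_memM (mbit false).2 (mbit true).2⟩ : M)).2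
  obtain ⟨b, hb⟩ := exists_sep (Γ := M) (Q := fun _ x => isC x)
    (D.comp D.isC0 (m := fun p : M × M => p.2) (CM.of F.snd)) memp ⟨p, hp⟩
  refine ⟨b, fun s => ?_⟩
  rw [hb, isC_iff]
  constructor
  · exact fun h => h.2
  · intro h
    refine ⟨?_, h⟩
    show (s : ZFSet.{0}) ∈ p
    rw [hp' _ s.2]
    obtain ⟨x, n, hs⟩ := h
    intro z hz
    rw [hs, mem_seg] at hz
    obtain ⟨i, hi, rfl⟩ := hz
    refine (pair_mem_mprod om _ (mnat i) (mbit (x i))).2 ⟨(mem_om _).2 ⟨i, rfl⟩, ?_⟩
    show bit (x i) ∈ ({bit false, bit true} : ZFSet.{0})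
    rw [ZFSet.mem_pair]
    cases x i <;> simp

/-- the set of conditions -/
noncomputable def cnd : M := exists_cnd.choose

theorem mem_cnd (s : M) : (s : ZFSet.{0}) ∈ ((cnd : M) : ZFSet.{0}) ↔ IsCond (s : ZFSet.{0}) :=
  exists_cnd.choose_spec s

theorem IsCond.memM {s : ZFSet.{0}} (h : IsCond s) : s ∈ M := by
  obtain ⟨x, n, rfl⟩ := h
  exact seg_memM x n

/-- definable iteration -/
theorem D.iter {Φ : Γ → M → M} (hΦ : F M (fun p : Γ × M => Φ p.1 p.2)) {a : Γ → M} (ha : F M a) :
    D M (fun p : (Γ × M) × M => ∃ n, p.1.2 = mnat n ∧ p.2 = (Φ p.1.1)^[n] (a p.1.1)) := by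
  have key : ∀ p : (Γ × M) × M, (∃ n, p.1.2 = mnat n ∧ p.2 = (Φ p.1.1)^[n] (a p.1.1)) ↔
      ((p.1.2 : ZFSet.{0}) ∈ ((om : M) : ZFSet.{0}) ∧ ∃ f : M,
        (mpair p.1.2 p.2 : ZFSet.{0}) ∈ (f : ZFSet.{0}) ∧
        ∀ k b : M, (mpair k b : ZFSet.{0}) ∈ (f : ZFSet.{0}) →
          ((k = memp ∧ b = a p.1.1) ∨ ∃ k' b' : M, k = msucc k' ∧
            (mpair k' b' : ZFSet.{0}) ∈ (f : ZFSet.{0}) ∧ b = Φ p.1.1 b')) := by
    rintro ⟨⟨γ, i⟩, b⟩
    constructor
    · rintro ⟨n, hn, hb⟩
      simp only at hn hb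
      subst hn hb
      refine ⟨(mem_om _).2 ⟨n, rfl⟩, ?_⟩
      have : ∀ n : ℕ, ∃ f : M, ∀ k b : M, (mpair k b : ZFSet.{0}) ∈ (f : ZFSet.{0}) ↔
          ∃ j, j ≤ n ∧ k = mnat j ∧ b = (Φ γ)^[j] (a γ) := by
        intro n
        induction n with
        | zero =>
          refine ⟨⟨{((mpair memp (a γ) : M) : ZFSet.{0})}, single_memM (mpair memp (a γ)).2⟩, ?_⟩
          intro k b
          rw [ZFSet.mem_singleton, ← Subtype.ext_iff, mpair_inj]
          constructor
          · rintro ⟨rfl, rfl⟩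
            exact ⟨0, le_rfl, rfl, rfl⟩
          · rintro ⟨j, hj, h1, h2⟩
            obtain rfl : j = 0 := by omega
            exact ⟨h1, h2⟩
        | succ n ih =>
          obtain ⟨f, hf⟩ := ih
          refine ⟨⟨insert ((mpair (mnat (n + 1)) ((Φ γ)^[n + 1] (a γ)) : M) : ZFSet.{0})
            (f : ZFSet.{0}), insert_memM (mpair (mnat (n + 1)) ((Φ γ)^[n + 1] (a γ)) : M).2 f.2⟩, ?_⟩
          intro k b
          rw [ZFSet.mem_insert_iff, ← Subtype.ext_iff, mpair_inj, hf]
          constructor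
          · rintro (⟨h1, h2⟩ | ⟨j, hj, h1, h2⟩)
            · exact ⟨n + 1, le_rfl, h1, h2⟩
            · exact ⟨j, by omega, h1, h2⟩
          · rintro ⟨j, hj, h1, h2⟩
            rcases Nat.lt_or_ge n j with h | h
            · obtain rfl : j = n + 1 := by omega
              exact Or.inl ⟨h1, h2⟩
            · exact Or.inr ⟨j, h, h1, h2⟩
      obtain ⟨f, hf⟩ := this n
      refine ⟨f, (hf _ _).2 ⟨n, le_rfl, rfl, rfl⟩, ?_⟩
      intro k b hkb
      obtain ⟨j, hj, h1, h2⟩ := (hf _ _).1 hkb
      cases j with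
      | zero => exact Or.inl ⟨h1, h2⟩
      | succ j =>
        refine Or.inr ⟨mnat j, (Φ γ)^[j] (a γ), h1, (hf _ _).2 ⟨j, by omega, rfl, rfl⟩, ?_⟩
        rw [h2, Function.iterate_succ_apply']
    · rintro ⟨hi, f, hf, hf'⟩
      obtain ⟨n, hn⟩ := (mem_om _).1 hi
      simp only at hn
      subst hn
      refine ⟨n, rfl, ?_⟩
      have : ∀ n : ℕ, ∀ b : M, (mpair (mnat n) b : ZFSet.{0}) ∈ (f : ZFSet.{0}) →
          b = (Φ γ)^[n] (a γ) := by
        intro n
        induction n with
        | zero =>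
          intro b hb
          rcases hf' _ _ hb with ⟨-, h⟩ | ⟨k', b', h, -, -⟩
          · exact h
          · exfalso
            have h1 := Subtype.ext_iff.1 h
            change (∅ : ZFSet.{0}) = insert (k' : ZFSet.{0}) (k' : ZFSet.{0}) at h1
            exact ZFSet.notMem_empty (k' : ZFSet.{0}) (h1 ▸ ZFSet.mem_insert _ _)
        | succ n ih =>
          intro b hb
          rcases hf' _ _ hb with ⟨h, -⟩ | ⟨k', b', h, h1, h2⟩
          · exact absurd (mnat_inj (M := M) (h.trans rfl : mnat (n + 1) = mnat 0)) (by omega)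
          · have hk : k' = mnat n := by
              have hk1 : isN k' := by
                have h3 := (isN_iff (mnat (n + 1) : M)).2 ⟨n + 1, rfl⟩
                have hmem : (k' : ZFSet.{0}) ∈ ((mnat (n + 1) : M) : ZFSet.{0}) := by
                  rw [h]; exact ZFSet.mem_insert _ _
                obtain ⟨m, hm, e⟩ := (mem_nat (n + 1) _).1 hmem
                exact (isN_iff _).2 ⟨m, Subtype.ext e⟩
              obtain ⟨m, rfl⟩ := (isN_iff _).1 hk1
              have := mnat_inj (M := M) (h.trans (mnat_succ m).symm)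
              rw [Nat.succ_injective this]
            subst hk
            rw [h2, ih b' h1, Function.iterate_succ_apply']
      exact this n _ hf
  refine D.congr ?_ key
  refine D.and (D.mem (F.var 1) (F.const _)) (D.ex (D.and (D.mem (F.pair (F.var 2) (F.var 1))
    (F.var 0)) (D.all (D.all (D.imp (D.mem (F.pair (F.var 1) (F.var 0)) (F.var 2)) (D.or
      (D.and (D.eq (F.var 1) (F.const _)) (D.eq (F.var 0) ha.w.w.w.w.w))
      (D.ex (D.ex (D.and (D.eq (F.var 3) (F.succ (F.var 1))) (D.and
        (D.mem (F.pair (F.var 1) (F.var 0)) (F.var 4)) (D.eq (F.var 2) ?_)))))))))))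
  exact F.comp hΦ (m := fun p : (((((((Γ × M) × M) × M) × M) × M) × M) × M) =>
    (p.1.1.1.1.1.1.1, p.2)) (CM.pair (CM.id.w.w.w.w.w.w.w) F.snd)

end CohenE
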