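import Pool.Agent.Helper212.CohenE.Level

/-! Every coded locally finite relation splits into two sets with finite components. -/

namespace CohenE

open ZFSet Toast

set_option linter.unusedSectionVars false

variable {M : Set ZFSet.{0}} [hM : Fact (CTM M)]
variable {Γ Δ : Type 1} [Ctx M Γ] [Ctx M Δ]

variable {H : XM M → XM M → Prop}

/-- having a conflict in `[s]` -/
def Bad (H : XM M → XM M → Prop) (w s : M) (x : XM M) : Prop :=
  ∃ y, Seg s y ∧ Conf H (opn w) x y ∧ x ≠ y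

/-- sparse extensions of `t` -/
noncomputable def spA (H : XM M → XM M → Prop) (w t : M) : M :=
  msep cnd (fun s => (t : ZFSet.{0}) ⊆ (s : ZFSet.{0}) ∧ Frc (fun x => ¬ Bad H w s x) s)

theorem d_spA (hH : CR M (fun _ : M => H)) (hs : ∀ x y, H x y → H y x) :
    D M (fun p : (M × M) × M => (p.1.2 : ZFSet.{0}) ⊆ (p.2 : ZFSet.{0}) ∧
      Frc (fun x => ¬ Bad H p.1.1 p.2 x) p.2) := by
  refine D.and (D.subset (F.var 1) (F.var 0)) ?_
  have h1 : FF M (fun (p : (M × M) × M) x => ¬ Bad H p.1.1 p.2 x) :=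
    FF.not (ff_bad hH (f := fun p : (M × M) × M => p.1.1) (F.var 2) hs
      (g := fun p : (M × M) × M => p.2) (F.var 0))
  exact D.sub (P := fun (p : (M × M) × M) s => Frc (fun x => ¬ Bad H p.1.1 p.2 x) s) h1.df F.snd

theorem f_spA (hH : CR M (fun _ : M => H)) (hs : ∀ x y, H x y → H y x) :
    F M (fun p : M × M => spA H p.1 p.2) :=
  F.sep (Q := fun (p : M × M) s => (p.2 : ZFSet.{0}) ⊆ (s : ZFSet.{0}) ∧
    Frc (fun x => ¬ Bad H p.1 s x) s) (d_spA hH hs) (F.const _)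

theorem mem_spA (hH : CR M (fun _ : M => H)) (hs : ∀ x y, H x y → H y x) (w t s : M) :
    (s : ZFSet.{0}) ∈ (spA H w t : ZFSet.{0}) ↔ IsCond (s : ZFSet.{0}) ∧
      (t : ZFSet.{0}) ⊆ (s : ZFSet.{0}) ∧ ∀ x y, Seg s x → Seg s y → Conf H (opn w) x y → x = y := by
  have := mem_msep (Q := fun (p : M × M) s => (p.2 : ZFSet.{0}) ⊆ (s : ZFSet.{0}) ∧
    Frc (fun x => ¬ Bad H p.1 s x) s) (d_spA hH hs) (w, t) cnd s
  rw [spA, this, mem_cnd]
  refine and_congr Iff.rfl (and_congr Iff.rfl ?_)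
  constructor
  · intro h x y hx hy hc
    by_contra hne
    exact h x hx ⟨y, hy, hc, hne⟩
  · rintro h x hx ⟨y, hy, hc, hne⟩
    exact hne (h x y hx hy hc)

/-- a real is separated from finitely many other reals by an initial segment -/
theorem exists_sep_fin (x : XM M) (Y : Set (XM M)) (hY : Y.Finite) :
    ∃ n, ∀ y ∈ Y, Seg (sg x n) y → x = y := by
  have h1 : ∀ y : XM M, ∃ k, x ≠ y → x.1 k ≠ y.1 k := by
    intro y
    by_cases h : x = y
    · exact ⟨0, fun h' => absurd h h'⟩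
    · have : ∃ n, x.1 n ≠ y.1 n := by
        by_contra hc
        push Not at hc
        exact h (Subtype.ext (funext hc))
      obtain ⟨n, hn⟩ := this
      exact ⟨n, fun _ => hn⟩
  choose k hk using h1
  obtain ⟨b, hb⟩ := (hY.image k).bddAbove
  refine ⟨b + 1, fun y hy hyx => ?_⟩
  by_contra hne
  obtain ⟨m, hm⟩ := hyx
  change seg x.1 (b + 1) = seg y.1 m at hm
  rw [seg_eq] at hm
  have : k y ≤ b := hb ⟨y, hy, rfl⟩
  exact hk y hne (hm.2 (k y) (by omega))

theorem exists_sparse (hH : CR M (fun _ : M => H)) (hs : ∀ x y, H x y → H y x) (hr : ∀ x, H x x)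
    (hf : ∀ x, {y | H x y}.Finite) (w : M) (hw : ∀ x, {y | K H (opn w) x y}.Finite) (t : M)
    (ht : IsCond (t : ZFSet.{0})) : ∃ s : M, (s : ZFSet.{0}) ∈ (spA H w t : ZFSet.{0}) := by
  obtain ⟨x, hx⟩ := exists_seg ht
  obtain ⟨n, hn⟩ := exists_sep_fin x _ (conf_finite hs hr hf (opn w) hw x)
  have h1 : FF M (fun (p : M × M) x => Bad H p.1 p.2 x) :=
    ff_bad hH (f := fun p : M × M => p.1) (F.var 1) hs (g := fun p : M × M => p.2) (F.var 0)
  obtain ⟨s', hs', hf'⟩ := h1.cl (w, sg x n) x (by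
    rintro ⟨y, hy, hc, hne⟩
    exact hne (hn y hc hy))
  obtain ⟨u, hu, h2, h3⟩ := hs'.common (seg_sg x n)
  obtain ⟨v, hv, h4, h5⟩ := hu.common hx
  refine ⟨v, (mem_spA hH hs _ _ _).2 ⟨hv.isCond, h5, fun y z hy hz hc => ?_⟩⟩
  by_contra hne
  refine hf' y (hy.mono hs'.isCond (fun _ h => h4 (h2 h))) ⟨z, ?_, hc, hne⟩
  exact hz.mono (seg_sg x n).isCond (fun _ h => h4 (h3 h))

theorem exists_split (hH : CR M (fun _ : M => H)) (hs : ∀ x y, H x y → H y x) (hr : ∀ x, H x x)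
    (hf : ∀ x, {y | H x y}.Finite) :
    ∃ S : XM M → Prop, FF M (fun (_ : M) => S) ∧
      (∀ F0 : XM M → XM M → Prop, (∀ x y z, H x y → F0 y z → H x z) →
        (∀ x y, F0 x y → F0 y x) → ∀ x y, F0 x y → (S x ↔ S y)) ∧
      ∀ x, {y | Relation.TransGen (fun a b => H a b ∧ (S a ↔ S b)) x y}.Finite := by
  obtain ⟨ch, hchF, hch⟩ := exists_choice (M := M)
  obtain ⟨e, heF, he1, he2⟩ := exists_enum (M := M)
  -- the selected string
  set sel : M → M → M := fun w i => ch (spA H w (e i)) with hsel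
  have hselF : F M (fun p : M × M => sel p.1 p.2) := by
    refine F.comp hchF (m := fun p : M × M => spA H p.1 (e p.2)) (CM.of ?_)
    exact F.comp (f_spA hH hs) (m := fun p : M × M => (p.1, e p.2))
      (CM.pair (CM.of (F.var 1)) (F.comp heF (m := fun p : M × M => p.2) (CM.of F.snd)))
  have hsel1 : ∀ w i, (∀ x, {y | K H (opn w) x y}.Finite) → (∃ n, i = mnat n) →
      (sel w i : ZFSet.{0}) ∈ (spA H w (e i) : ZFSet.{0}) := by
    rintro w i hw ⟨n, rfl⟩
    refine hch _ (fun s hs' => ((mem_spA hH hs _ _ _).1 hs').1) ?_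
    exact exists_sparse hH hs hr hf w hw _ (he1 n)
  -- the recursion
  set Φ : M → M → M := fun i w =>
    code (fun x => opn w x ∨ U H (opn w) (Seg (sel w i)) x) with hΦ
  have hU : FF M (fun (p : M × M) x => U H (opn p.2) (Seg (sel p.2 p.1)) x) :=
    ff_U hH (f := fun p : M × M => p.2) F.snd hs (g := fun p : M × M => sel p.2 p.1)
      (F.comp hselF (m := fun p : M × M => (p.2, p.1)) (CM.pair (CM.of F.snd) (F.var 1)))
  have hst : FF M (fun (p : M × M) x => opn p.2 x ∨ U H (opn p.2) (Seg (sel p.2 p.1)) x) :=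
    FF.or (FF.opn F.snd) hU
  have hΦF : F M (fun p : M × M => Φ p.1 p.2) := F.code hst
  set w : ℕ → M := rseq Φ memp with hw
  have hrec : D M (fun p : (M × M) × M => ∃ n, p.1.2 = mnat n ∧ p.2 = w n) :=
    D.rec (Γ := M) (Φ := fun _ => Φ) (a := fun _ => memp)
      (F.comp hΦF (m := fun p : (M × M) × M => (p.1.2, p.2)) (CM.pair (CM.of (F.var 1)) F.snd))
      (F.const _)
  set R : ℕ → XM M → Prop := fun n => opn (w n) with hR
  set C : ℕ → XM M → Prop := fun n => Seg (sel (w n) (mnat n)) with hC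
  have h0 : ∀ x, ¬ R 0 x := by
    rintro x ⟨s, hs', -⟩
    exact ZFSet.notMem_empty _ hs'
  have hstep : ∀ n x, R (n + 1) x ↔ R n x ∨ U H (R n) (C n) x := fun n x =>
    opn_code hst (mnat n, w n) x
  have hfin : ∀ n, (∀ x, {y | K H (R n) x y}.Finite) := by
    intro n
    induction n with
    | zero =>
      intro x
      refine Set.Finite.subset Set.finite_empty ?_
      intro y hy
      have hy' : K H (R 0) x y := hy
      unfold K at hy'
      rcases Relation.TransGen.head'_iff.1 hy' with ⟨z, hz, -⟩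
      exact absurd hz.1 (h0 x)
    | succ n ih =>
      have e1 : R (n + 1) = fun z => R n z ∨ U H (R n) (C n) z := by
        funext x
        exact propext (hstep n x)
      rw [e1]
      refine step_finite hs hr hf (R n) ih (C n) ?_
      intro c c' hc hc' hne hconf
      have h1 := ((mem_spA hH hs _ _ _).1 (hsel1 (w n) (mnat n) ih ⟨n, rfl⟩)).2.2
      exact hne (h1 c c' hc hc' hconf)
  have hCc : ∀ n c c', C n c → C n c' → c ≠ c' → ¬ Conf H (R n) c c' := by
    intro n c c' hc hc' hne hconf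
    have h1 := ((mem_spA hH hs _ _ _).1 (hsel1 (w n) (mnat n) (hfin n) ⟨n, rfl⟩)).2.2
    exact hne (h1 c c' hc hc' hconf)
  have hcov : ∀ x, ∃ n, C n x := by
    intro x
    have hD : D M (fun p : M × M => ∃ i v : M, (∃ n, i = mnat n ∧ v = w n) ∧ p.2 = sel v i) := by
      refine D.ex (D.ex (D.and ?_ (D.eq (F.var 2) ?_)))
      · exact D.comp hrec (m := fun p : ((M × M) × M) × M => ((p.1.1.1, p.1.2), p.2))
          (CM.pair (CM.pair (CM.of (F.var 3)) (F.var 1)) (F.var 0))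
      · exact F.comp hselF (m := fun p : ((M × M) × M) × M => (p.2, p.1.2))
          (CM.pair (CM.of (F.var 0)) (F.var 1))
    obtain ⟨A, hA⟩ := exists_sep (Q := fun (_ : M) s => ∃ i v : M,
      (∃ n, i = mnat n ∧ v = w n) ∧ s = sel v i) hD memp cnd
    obtain ⟨s, hsA, hsx⟩ := meet (A := A) (fun s hs' => (mem_cnd s).1 ((hA s).1 hs').1)
      (fun s hs' => by
        obtain ⟨n, hn⟩ := he2 s hs'
        have h1 := (mem_spA hH hs _ _ _).1 (hsel1 (w n) (mnat n) (hfin n) ⟨n, rfl⟩)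
        refine ⟨sel (w n) (mnat n), (hA _).2 ⟨(mem_cnd _).2 h1.1, mnat n, w n, ⟨n, rfl, rfl⟩, rfl⟩,
          ?_⟩
        rw [← hn]
        exact h1.2.1) x
    obtain ⟨-, i, v, ⟨n, rfl, rfl⟩, rfl⟩ := (hA s).1 hsA
    exact ⟨n, hsx⟩
  refine ⟨fun x => ∃ n, ¬ U H (R n) (C n) x ∧ ∃ z, H x z ∧ U H (R n) (C n) z, ?_, ?_, ?_⟩
  · have h1 : FF M (fun (p : M × M) x => ¬ U H (opn p.2) (Seg (sel p.2 p.1)) x ∧
        ∃ z, H x z ∧ U H (opn p.2) (Seg (sel p.2 p.1)) z) :=
      FF.and hU.not (FF.exY (R := fun _ => H) (cr_H hH) hU)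
    have h2 : FF M (fun (_ : M) x => ∃ i v : M, (∃ n, i = mnat n ∧ v = w n) ∧
        (¬ U H (opn v) (Seg (sel v i)) x ∧ ∃ z, H x z ∧ U H (opn v) (Seg (sel v i)) z)) :=
      FF.ex (FF.ex (FF.and (FF.const hrec)
        (h1.comp (m := fun p : (M × M) × M => (p.1.2, p.2))
          (CM.pair (CM.of (F.var 1)) (F.var 0)))))
    refine h2.congr fun _ x => ?_
    constructor
    · rintro ⟨n, hn⟩
      exact ⟨mnat n, w n, ⟨n, rfl, rfl⟩, hn⟩
    · rintro ⟨i, v, ⟨n, rfl, rfl⟩, hn⟩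
      exact ⟨n, hn⟩
  · intro F0 hF hFs
    have hUinv : ∀ n x y, F0 x y → U H (R n) (C n) x → U H (R n) (C n) y := by
      rintro n x y hxy ⟨c, hc, z, hz, hzx⟩
      obtain ⟨a, ha, hax⟩ := hzx
      exact ⟨c, hc, z, hz, a, ha, hF _ _ _ hax hxy⟩
    have hone : ∀ x y, F0 x y →
        (∃ n, ¬ U H (R n) (C n) x ∧ ∃ z, H x z ∧ U H (R n) (C n) z) →
        (∃ n, ¬ U H (R n) (C n) y ∧ ∃ z, H y z ∧ U H (R n) (C n) z) := by
      rintro x y hxy ⟨n, h1, z, h2, h3⟩
      exact ⟨n, fun h => h1 (hUinv n y x (hFs _ _ hxy) h), z,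
        hs _ _ (hF _ _ _ (hs _ _ h2) hxy), h3⟩
    exact fun x y hxy => ⟨hone x y hxy, hone y x (hFs _ _ hxy)⟩
  · exact toast hs hr hf R C h0 hstep hCc hcov

end CohenE
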